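import Pool.Agent.Lib_helper79.SRC.FromESB

set_option autoImplicit false

/-! # Small means, one and two leaves -/

namespace Pool.Agent.Lib_helper79.SRC

open PowerSeries Pool.Agent.Lib_helper36.SRC Pool.Agent.Lib_helper36.SRC.RT

lemma prodC_nil : prodC [] = 1 := by unfold prodC; simp

lemma prodC_cons (a : ℝ) (as : List ℝ) : prodC (a :: as) = (1 + C a * (X - 1)) * prodC as := by
  unfold prodC; rw [List.map_cons, List.prod_cons]

/-- `∑ s_i^2 ∏_{j ≠ i} (1 + s_j y)` -/
noncomputable def sqC : List ℝ → ℝ⟦X⟧
  | [] => 0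
  | a :: as => C (a ^ 2) * prodC as + (1 + C a * (X - 1)) * sqC as

/-- `(∏ (1 + s_i y) - 1) / y` -/
noncomputable def quC : List ℝ → ℝ⟦X⟧
  | [] => 0
  | a :: as => quC as + C a * prodC as

lemma prodC_sub_one (as : List ℝ) : prodC as - 1 = (X - 1) * quC as := by
  induction as with
  | nil => rw [prodC_nil, quC]; ring
  | cons a as ih => rw [prodC_cons, quC]; linear_combination ih

lemma deriv_prodC (as : List ℝ) : d⁄dX ℝ (prodC as) - C as.sum * prodC as = (1 - X) * sqC as := by
  induction as with
  | nil =>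
    rw [prodC_nil, sqC, List.sum_nil]
    simp
  | cons a as ih =>
    rw [prodC_cons, sqC, List.sum_cons, Derivation.leibniz, map_add, Derivation.leibniz, map_sub,
      derivative_X, derivative_C]
    simp only [Derivation.map_one_eq_zero, smul_eq_mul, map_pow, map_add]
    linear_combination (1 + C a * (X - 1)) * ih

lemma constCoeff_prodC (as : List ℝ) : constantCoeff (prodC as) = (as.map (fun s => 1 - s)).prod := by
  induction as with
  | nil => rw [prodC_nil]; simp
  | cons a as ih =>
    rw [prodC_cons, map_mul, ih, List.map_cons, List.prod_cons]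
    simp
    left; ring

lemma prod_ge (as : List ℝ) (h : ∀ s ∈ as, 0 ≤ s ∧ s ≤ 1) :
    0 ≤ (as.map (fun s => 1 - s)).prod ∧ 1 - as.sum ≤ (as.map (fun s => 1 - s)).prod ∧
      (as.map (fun s => 1 - s)).prod ≤ 1 := by
  induction as with
  | nil => simp
  | cons a as ih =>
    obtain ⟨h1, h2, h3⟩ := ih (fun s hs => h s (by simp [hs]))
    obtain ⟨ha0, ha1⟩ := h a (by simp)
    rw [List.map_cons, List.prod_cons, List.sum_cons]
    refine ⟨mul_nonneg (by linarith) h1, ?_, ?_⟩
    · nlinarith
    · nlinarith

lemma inW_sqC (as : List ℝ) (ν : ℝ) (h : ∀ s ∈ as, s ≤ 1 ∧ as.sum - s ≥ ν) : InW ν (sqC as) := by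
  induction as generalizing ν with
  | nil => rw [sqC]; exact InW.zero _
  | cons a as ih =>
    rw [sqC]
    rw [List.sum_cons] at h
    apply InW.add
    · apply InW.smul (by positivity)
      exact (inW_prodC as (fun s hs => (h s (by simp [hs])).1)).mono
        (by have := (h a (by simp)).2; linarith)
    · have h1 := ih (ν - a) (fun s hs => ⟨(h s (by simp [hs])).1, by
        have := (h s (by simp [hs])).2; linarith⟩)
      refine ((InW.coin (h a (by simp)).1).mul h1).congr (by ring) rfl

lemma inW_quC (as : List ℝ) (ν : ℝ) (hν : ν ≤ 0) (h : ∀ s ∈ as, 0 ≤ s ∧ s ≤ 1) :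
    InW ν (quC as) := by
  induction as with
  | nil => rw [quC]; exact InW.zero _
  | cons a as ih =>
    rw [quC]
    apply InW.add (ih (fun s hs => h s (by simp [hs])))
    apply InW.smul (h a (by simp)).1
    refine (inW_prodC as (fun s hs => (h s (by simp [hs])).2)).mono ?_
    have : 0 ≤ as.sum := List.sum_nonneg (fun s hs => (h s (by simp [hs])).1)
    linarith

/-- **small means** -/
theorem small_Q (as : List ℝ) (w r : ℝ) (h : ∀ s ∈ as, 0 ≤ s ∧ s ≤ 1) (hw : 0 ≤ w) (hr : 0 ≤ r)
    (hν : as.sum + w ≤ 1) (hν2 : r = 0 ∨ as.sum + w ≤ 2 / 3)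
    (h0 : w + r ≤ (as.map (fun s => 1 - s)).prod) :
    InW (as.sum + w) (prodC as + C w * (X - 1) - C r * (X - 1) ^ 2) := by
  set ν := as.sum + w with hνdef
  have hs0 : 0 ≤ as.sum := List.sum_nonneg (fun s hs => (h s hs).1)
  apply InW.of_deriv (R := sqC as + C w * quC as + C (w * ν) * 1
    + C (2 * r) * (1 + C (-(ν / 2)) * (X - 1)))
  · rw [map_sub, map_add, constCoeff_prodC]
    simp
    linarith
  · apply InW.add
    · apply InW.add
      · apply InW.add
        · apply inW_sqC
          intro s hs
          refine ⟨(h s hs).2, ?_⟩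
          have h1 : s ≤ as.sum := by
            clear_value ν
            clear hν hν2 h0 hνdef
            induction as with
            | nil => simp at hs
            | cons a as ih =>
              rw [List.sum_cons]
              rcases List.mem_cons.1 hs with rfl | hs'
              · have := List.sum_nonneg (fun t ht => (h t (List.mem_cons_of_mem _ ht)).1) (l := as)
                linarith
              · have h2 := ih (fun t ht => h t (List.mem_cons_of_mem _ ht))
                  (List.sum_nonneg (fun t ht => (h t (List.mem_cons_of_mem _ ht)).1)) hs'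
                have h3 := (h a (by simp)).1
                linarith
          linarith
        · exact (inW_quC as (ν - 1) (by linarith) h).smul hw
      · exact (InW.one (by linarith)).smul (by positivity)
    · rcases hν2 with h2 | h2
      · subst h2
        have : C (2 * (0 : ℝ)) = (0 : ℝ⟦X⟧) := by simp
        rw [this, zero_mul]
        exact InW.zero _
      · apply InW.smul (by positivity)
        exact (InW.coin (by linarith)).mono (by linarith)
  · have h1 := deriv_prodC as
    have h2 := prodC_sub_one as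
    have hC : ∀ (t : ℝ) (G : ℝ⟦X⟧), (d⁄dX ℝ) (C t * G) = C t * (d⁄dX ℝ) G := by
      intro t G
      rw [Derivation.leibniz, derivative_C, smul_zero, add_zero, smul_eq_mul]
    have h3 : (d⁄dX ℝ) ((X - 1 : ℝ⟦X⟧) ^ 2) = 2 * (X - 1) := by
      rw [pow_two, Derivation.leibniz, map_sub, derivative_X]
      simp only [Derivation.map_one_eq_zero, smul_eq_mul]
      ring
    have hνC : C ν = C as.sum + C w := by rw [hνdef, map_add]
    have hhalf : (2 : ℝ⟦X⟧) * C (-(ν / 2)) = - C ν := by
      have : (2 : ℝ⟦X⟧) = C 2 := (map_ofNat C 2).symm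
      rw [this, ← map_mul, ← map_neg]; congr 1; ring
    rw [map_sub, map_add, hC, hC, h3, map_sub, derivative_X, Derivation.map_one_eq_zero]
    simp only [map_mul, map_ofNat]
    linear_combination h1 - C w * h2 - (prodC as) * hνC + C w * prodC as * 0
      - C r * (1 - X) * (X - 1) * hhalf

/-- quadratics -/
theorem quad (ν e : ℝ) (h0 : 0 ≤ 1 - ν + e) (h1 : 0 < ν ^ 2 - 2 * e) (h2 : e * (2 + ν) ≤ ν ^ 2)
    (h3 : ν ^ 2 * (ν - 1) ≤ e * (3 * ν - 2)) :
    InW ν (1 + C ν * (X - 1) + C e * (X - 1) ^ 2) := by
  set s := ν * e / (ν ^ 2 - 2 * e) with hs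
  have hsm : (ν ^ 2 - 2 * e) * s = ν * e := by rw [hs]; field_simp
  apply InW.of_deriv (R := C (ν ^ 2 - 2 * e) * (1 + C s * (X - 1)))
  · simp; linarith
  · apply InW.smul h1.le
    have hs1 : s ≤ 1 := by rw [hs, div_le_one h1]; linarith
    have hs2 : ν - 1 ≤ s := by rw [hs, le_div_iff₀ h1]; linarith
    exact (InW.coin hs1).mono hs2
  · have hC : ∀ (t : ℝ) (G : ℝ⟦X⟧), (d⁄dX ℝ) (C t * G) = C t * (d⁄dX ℝ) G := by
      intro t G
      rw [Derivation.leibniz, derivative_C, smul_zero, add_zero, smul_eq_mul]
    have h3 : (d⁄dX ℝ) ((X - 1 : ℝ⟦X⟧) ^ 2) = 2 * (X - 1) := by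
      rw [pow_two, Derivation.leibniz, map_sub, derivative_X]
      simp only [Derivation.map_one_eq_zero, smul_eq_mul]
      ring
    have hsC : (C ν ^ 2 - 2 * C e) * C s = (C ν * C e : ℝ⟦X⟧) := by
      have := congrArg (C (R := ℝ)) hsm
      simpa only [map_mul, map_add, map_sub, map_ofNat, map_pow] using this
    rw [map_add, map_add, hC, hC, h3, map_sub, derivative_X, Derivation.map_one_eq_zero]
    simp only [map_sub, map_mul, map_ofNat, map_pow]
    linear_combination -((1 - X) * (X - 1)) * hsC

end Pool.Agent.Lib_helper79.SRC
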