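import Pool.Agent.Lib_helper79.SRC.PartA
import Pool.Agent.Lib_helper13.GC6.Cert2

set_option autoImplicit false

/-! # Parts (A) and (B) of case IIIB, `m ≥ 2` (helper13's certificate) -/

namespace Pool.Agent.Lib_helper79.SRC

open PowerSeries
open Pool.Agent.Lib_helper36.SRC
open Pool.Agent.Lib_helper13.GC6 (kap HD HN HM HR PartA PartB)

theorem partA_done : PartA :=
  fun h q Bs Cs t r hm hq hq2 hB hl ht hr => partA h q Bs Cs t r ht hr hm hq hq2 hB hl

lemma HD_append79 (as bs : List ℕ) : HD (as ++ bs) = HD as * HD bs := by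
  simp only [HD, List.map_append, List.prod_append]

lemma HN_append79 (as bs : List ℕ) : HN (as ++ bs) = HN as * HN bs := by
  simp only [HN, List.map_append, List.prod_append]

lemma HM_append79 (as bs : List ℕ) : HM (as ++ bs) = HM as + HM bs := by
  simp only [HM, List.map_append, List.sum_append]

lemma four_le_sum (L : List ℕ) (h : ∀ l ∈ L, 4 ≤ l) : 4 * L.length ≤ L.sum := by
  induction L with
  | nil => simp
  | cons a L ih =>
    have h6 := ih (fun l hl' => h l (by simp [hl']))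
    have h7 := h a (by simp)
    simp only [List.length_cons, List.sum_cons]
    omega

/-- `D_C - p y N_C` -/
theorem inW_DpN (L : List ℕ) (p r : ℝ) (hL : 2 ≤ L.length) (h4 : ∀ l ∈ L, 4 ≤ l)
    (hr : r = (1 / 2) ^ L.length) (hp0 : 0 ≤ p) (hpr : p ≤ r) (hp1 : p ≤ 1 / 2)
    (hpp : ∀ l ∈ L, 8 * pp l ≤ r) (hP : HP L ≤ 1 / 16) :
    InW (HM L - p) (HD L - C p * ((X - 1) * HN L)) := by
  have hr0 : 0 < r := by rw [hr]; positivity
  have hr1 : r ≤ 1 / 4 := by
    rw [hr]
    calc (1 / 2 : ℝ) ^ L.length ≤ (1 / 2) ^ 2 :=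
          pow_le_pow_of_le_one (by norm_num) (by norm_num) hL
      _ = 1 / 4 := by norm_num
  have hQr : (2 : ℝ) ^ L.length * r = 1 := by rw [hr, ← mul_pow]; norm_num
  have hPn := HP_nonneg L
  obtain ⟨K, hK, hF⟩ := FB L r hr0 hr1 h4 hpp hQr.le
  set Q : ℝ := 2 ^ L.length with hQ
  have h8 : 8 ≤ L.sum := by have := four_le_sum L h4; omega
  set b : ℝ := (r - p) * (64 / 63 - (r - HP L)) with hb
  have hb0 : 0 ≤ b := by rw [hb]; apply mul_nonneg <;> linarith
  have hb1 : b ≤ 1 / 4 := by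
    rw [hb]
    have h1 : (r - p) * (64 / 63 - (r - HP L)) ≤ r * (64 / 63 - (r - HP L)) :=
      mul_le_mul_of_nonneg_right (by linarith) (by linarith)
    nlinarith
  have hblk := blk8x' L.sum h8 (p - HP L) b (by linarith) (by linarith) hb0 hb1
  rw [← HN_eq] at hblk
  have hlam : p * Q ≤ 1 := by
    calc p * Q ≤ r * Q := mul_le_mul_of_nonneg_right hpr (by positivity)
      _ = 1 := by rw [mul_comm]; exact hQr
  have a1 := ((inW_HD79 L).mul (InW.coin (s := -p) (by linarith))).smul (c := 1 - p * Q)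
    (by linarith)
  have a2 := (hK.mul (InW.coin (s := r - p) (by linarith))).smul (c := p) hp0
  have a3 := hblk.smul (c := 63 / 64 * p) (by positivity)
  refine (((a1.congr (by ring) rfl).add (a2.congr (by ring) rfl)).add
    (a3.congr (?_ : _ = HM L - p) rfl)).congr rfl ?_
  · rw [HM_eq L]; ring
  · have e1 : (C (1 - p * Q) : ℝ⟦X⟧) = 1 - C p * C Q := by simp only [map_sub, map_mul, map_one]
    have e2 : (C Q : ℝ⟦X⟧) * C r = 1 := by rw [← map_mul, hQr, map_one]
    have e3 : (C (63 / 64 * p) : ℝ⟦X⟧) * C b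
        = C p * ((C r - C p) * (1 - C (63 / 64) * (C r - C (HP L)))) := by
      rw [← map_mul, hb]
      have : 63 / 64 * p * ((r - p) * (64 / 63 - (r - HP L)))
          = p * ((r - p) * (1 - 63 / 64 * (r - HP L))) := by ring
      rw [this]
      simp only [map_mul, map_sub, map_one]
    have e4 : (C (63 / 64 * p) : ℝ⟦X⟧) = C (63 / 64) * C p := by rw [map_mul]
    have e5 : (C (p - HP L) : ℝ⟦X⟧) = C p - C (HP L) := by rw [map_sub]
    have e6 : (C (r - p) : ℝ⟦X⟧) = C r - C p := by rw [map_sub]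
    have e7 : (C (-p) : ℝ⟦X⟧) = - C p := by rw [map_neg]
    have e8 : (C (r - HP L) : ℝ⟦X⟧) = C r - C (HP L) := by rw [map_sub]
    rw [e8] at hF
    rw [e4] at e3 ⊢
    rw [e1, e5, e6, e7]
    linear_combination (-(C p * (1 + (C r - C p) * (X - 1)))) * hF
      + (HN L * (X - 1) ^ 2) * e3
      - (C p * (X - 1) * HN L * (1 + (C r - C p) * (X - 1)) ) * e2
      + (C p * HD L * (X - 1)) * e2

/-- `X_C` -/
theorem inW_XC (L : List ℕ) (j : ℕ) (r : ℝ) (hL : 2 ≤ L.length) (h4 : ∀ l ∈ L, 4 ≤ l) (hj : 4 ≤ j)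
    (hr : r = (1 / 2) ^ L.length) (hpr : pp j ≤ r)
    (hpp : ∀ l ∈ L, 8 * pp l ≤ r) (hP : HP L ≤ 1 / 16)
    (hA : InW (HM L + r) (HD L + C r * ((X - 1) * HN L))) :
    InW ((j : ℝ) / 2 + pp j + HM L) ((kap ^ j + C (2 * pp j) * (X - 1)) * HD L
      - C (pp j) * ((X - 1) * (kap ^ j * (HD L + C r * ((X - 1) * HN L))))) := by
  have hr0 : 0 < r := by rw [hr]; positivity
  have hr1 : r ≤ 1 / 4 := by
    rw [hr]
    calc (1 / 2 : ℝ) ^ L.length ≤ (1 / 2) ^ 2 :=
          pow_le_pow_of_le_one (by norm_num) (by norm_num) hL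
      _ = 1 / 4 := by norm_num
  have hp := pp_pos j
  have hp2 := two_pp j
  set p := pp j with hpdef
  set e : ℝ := p / (p + r) with he
  have hd : 0 < p + r := by linarith
  have he0 : 0 ≤ e := by rw [he]; positivity
  have he1 : e ≤ 1 := by rw [he, div_le_one hd]; linarith
  have hep : e * (p + r) = p := by rw [he]; field_simp
  have h1 := inW_DpN L p r hL h4 hr hp.le hpr (by linarith) hpp hP
  have h2 := lemF j hj (p + r) 0 (2 * p) (by linarith) (by linarith) (le_refl _) (by norm_num)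
    (by linarith) hp2.le
  have hT := inW_st j (2 * p) (by linarith) hp2.le
  have a1 := (hT.mul h1).smul (c := 1 - e) (by linarith)
  have a2 := (hA.mul h2).smul (c := e) he0
  refine ((a1.congr (by ring) rfl).add (a2.congr (?_ : _ = (j : ℝ) / 2 + p + HM L) rfl)).congr
    (by ring) ?_
  · ring
  · have e1 : (C (1 - e) : ℝ⟦X⟧) = 1 - C e := by simp only [map_sub, map_one]
    have e2 : (C e : ℝ⟦X⟧) * (C p + C r) = C p := by rw [← map_add, ← map_mul, hep]
    have e3 : (C (p + r) : ℝ⟦X⟧) = C p + C r := by rw [map_add]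
    have e4 : (C (0 / 2 : ℝ) : ℝ⟦X⟧) = 0 := by simp
    have e5 : (C (2 * p) : ℝ⟦X⟧) = 2 * C p := by
      have h2' : (C (2 : ℝ) : ℝ⟦X⟧) = 2 := map_ofNat C 2
      rw [map_mul, h2']
    rw [e1, e3, e4, e5]
    linear_combination (-((X - 1) * (kap ^ j * HD L)) - (X - 1) ^ 2 * C r * kap ^ j * HN L
      + (kap ^ j + 2 * C p * (X - 1)) * ((X - 1) * HN L)) * e2

theorem partB0 (Bs : List ℕ) (hb : 2 ≤ Bs.length) : ∀ Cs : List ℕ,
    (∀ l ∈ Cs ++ Bs, Cs.length + Bs.length + 2 ≤ l) →
    (∀ L : List ℕ, L <:+ (Cs ++ Bs) → 2 ≤ L.length →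
      InW (HM L + (1 / 2) ^ L.length) (HD L + C ((1 / 2 : ℝ) ^ L.length) * ((X - 1) * HN L))) →
    InW (HM Cs + HM Bs)
      (HD Cs * HD Bs + C ((1 / 2 : ℝ) ^ (Cs.length + Bs.length)) * ((X - 1) * (HN Cs * HN Bs))
        - C ((1 / 2 : ℝ) ^ Cs.length) *
          (HR Cs * (HD Bs + C ((1 / 2 : ℝ) ^ Bs.length) * ((X - 1) * HN Bs)))) := by
  intro Cs
  induction Cs with
  | nil =>
    intro _ _
    refine (InW.zero _).congr rfl ?_
    rw [HD_nil79, HN_nil79, HR_nil79]
    simp
  | cons j R ih =>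
    intro hl hA
    have hl' : ∀ l ∈ R ++ Bs, R.length + Bs.length + 2 ≤ l := fun l hl2 => by
      have := hl l (by simp at hl2 ⊢; tauto)
      simp only [List.length_cons] at this
      omega
    have ih' := ih hl' (fun L hL => hA L (hL.trans (by
      rw [List.cons_append]; exact List.suffix_cons j (R ++ Bs))))
    have hlen : (R ++ Bs).length = R.length + Bs.length := List.length_append
    obtain ⟨s, hs⟩ : ∃ s : ℝ, s = (1 / 2) ^ (R.length + Bs.length + 4) := ⟨_, rfl⟩
    have hs0 : 0 < s := by rw [hs]; positivity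
    obtain ⟨r, hr⟩ : ∃ r : ℝ, r = (1 / 2) ^ (R ++ Bs).length := ⟨_, rfl⟩
    have hrs : r = 16 * s := by rw [hr, hs, hlen, pow_add _ _ 4]; ring
    have hpp : ∀ l ∈ (j :: R) ++ Bs, pp l ≤ s := by
      intro l hl2
      rw [hs]
      unfold pp
      have := hl l hl2
      simp only [List.length_cons] at this
      exact pow_le_pow_of_le_one (by norm_num) (by norm_num) (by omega)
    have hpj := hpp j (by simp)
    have hP : HP (R ++ Bs) ≤ 1 / 16 := by
      have h1 := HP_le' (R ++ Bs) s (fun l hl2 => hpp l (by simp at hl2 ⊢; tauto))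
      have h2 := kle (R ++ Bs).length
      rw [← hr] at h2
      rw [hrs] at h2
      linarith
    have hX := inW_XC (R ++ Bs) j r (by rw [hlen]; omega)
      (fun l hl2 => by have := hl' l hl2; omega) (by
        have := hl j (by simp)
        simp only [List.length_cons] at this
        omega) hr (by linarith)
      (fun l hl2 => by have := hpp l (by simp at hl2 ⊢; tauto); linarith) hP
      (by
        have := hA (R ++ Bs) (by rw [List.cons_append]; exact List.suffix_cons j (R ++ Bs))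
          (by rw [hlen]; omega)
        rw [← hr] at this
        exact this)
    have a1 := hX.smul (c := 1 / 2) (by norm_num)
    have hp1 : pp j ≤ 1 := by
      unfold pp; exact pow_le_one₀ (by norm_num) (by norm_num)
    have a2 := ((((inW_kap_pow j).mul (InW.coin (s := pp j) hp1))).mul ih').smul (c := 1 / 2)
      (by norm_num)
    have hrr : r = (1 / 2) ^ (R.length + Bs.length) := by rw [hr, hlen]
    refine ((a1.congr ?_ rfl).add (a2.congr (?_ : _ = HM (j :: R) + HM Bs) rfl)).congr rfl ?_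
    · rw [HM_append79, HM_cons79]; ring
    · rw [HM_cons79]; ring
    · rw [HD_append79, HN_append79, HD_cons79, HN_cons79, HR_cons79, List.length_cons, ← hrr]
      have e0 : (1 / 2 : ℝ) ^ (R.length + 1 + Bs.length) = 1 / 2 * r := by
        rw [hrr, show R.length + 1 + Bs.length = (R.length + Bs.length) + 1 by ring, pow_succ]; ring
      have e1 : (1 / 2 : ℝ) ^ (R.length + 1) = 1 / 2 * (1 / 2) ^ R.length := by
        rw [pow_succ]; ring
      have e2 : (C (2 * pp j) : ℝ⟦X⟧) = 2 * C (pp j) := by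
        have h2' : (C (2 : ℝ) : ℝ⟦X⟧) = 2 := map_ofNat C 2
        rw [map_mul, h2']
      have e3 : (C (1 / 2 : ℝ) : ℝ⟦X⟧) * 2 = 1 := by
        have h2' : (C (2 : ℝ) : ℝ⟦X⟧) = 2 := map_ofNat C 2
        rw [← h2', ← map_mul]; norm_num
      rw [e0, e1, e2, map_mul C (1 / 2) r, map_mul C (1 / 2) ((1 / 2) ^ R.length)]
      linear_combination (((kap ^ j + C (pp j) * (X - 1)) * (HD R * HD Bs))) * e3

theorem partB_done : PartB := by
  intro h Bs Cs hb hl hA
  have h1 := partB0 Bs hb Cs (fun l hl2 => by have := hl l hl2; omega) hA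
  have h2 := (inW_HD79 Cs).mul (inW_HD79 Bs)
  have hh : (1 / 2 : ℝ) ^ h ≤ 1 := pow_le_one₀ (by norm_num) (by norm_num)
  have a1 := h1.smul (c := (1 / 2) ^ h) (by positivity)
  have a2 := h2.smul (c := 1 - (1 / 2) ^ h) (by linarith)
  refine (a1.add a2).congr rfl ?_
  rw [pow_add _ h (Cs.length + Bs.length), pow_add _ h Cs.length,
    map_mul C ((1 / 2 : ℝ) ^ h) ((1 / 2) ^ (Cs.length + Bs.length)),
    map_mul C ((1 / 2 : ℝ) ^ h) ((1 / 2) ^ Cs.length), map_sub, map_one]
  ring

end Pool.Agent.Lib_helper79.SRC
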