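import Pool.Agent.Lib_helper79.SRC.Small

set_option autoImplicit false

/-! # Case I and the star base from the extended star lemma -/

namespace Pool.Agent.Lib_helper79.SRC

open PowerSeries Pool.Agent.Lib_helper36.SRC Pool.Agent.Lib_helper36.SRC.RT

lemma two_t_le (g : ℕ) (cs : List RT) : 2 * t (node g cs) ≤ (1 / 2) ^ cs.length := by
  unfold t
  rw [hh_node, kids_node]
  have : ((1 : ℝ) / 2) ^ (g + cs.length + 1) = (1 / 2) ^ cs.length * ((1 / 2) ^ g * (1 / 2)) := by
    rw [pow_succ, pow_add]; ring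
  rw [this]
  have h1 : ((1 : ℝ) / 2) ^ g ≤ 1 := pow_le_one₀ (by norm_num) (by norm_num)
  have h2 : 0 < ((1 : ℝ) / 2) ^ cs.length := by positivity
  nlinarith

theorem starBase_of_ESB (h : ESB) : StarBase := by
  intro n hn c hs hc
  obtain ⟨g, cs, rfl⟩ := exists_node c
  obtain ⟨l, ls, rfl⟩ : ∃ l ls, cs = l :: ls := by
    cases cs with
    | nil => exact absurd (kids_node _ _) hc.1
    | cons l ls => exact ⟨l, ls, rfl⟩
  have hl : IsLeaf l := hc.2 l (by simp)
  have hls : ∀ d ∈ ls, IsLeaf d := fun d hd => hc.2 d (by simp [hd])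
  have hle := two_t_le g (l :: ls)
  rw [List.length_cons, pow_succ] at hle
  have hl1 := t_le_half l
  have key := h (ls.map t) (t l) (2 * t (node g (l :: ls)))
    (by
      intro s hs
      obtain ⟨d, hd, rfl⟩ := List.mem_map.1 hs
      exact ⟨(t_pos d).le, t_le_half d⟩) (t_pos l).le hl1
    (by have := t_pos (node g (l :: ls)); linarith)
    (by
      rw [List.length_map]
      have h2 : 0 < ((1 : ℝ) / 2) ^ ls.length := by positivity
      calc 2 * t (node g (l :: ls)) ≤ (1 / 2) ^ ls.length * (1 / 2) := hle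
        _ ≤ (1 / 2) ^ ls.length * (1 - t l) := by
            apply mul_le_mul_of_nonneg_left _ h2.le; linarith)
  unfold Good
  refine key.congr ?_ ?_
  · unfold α
    rw [β_cons, β_leaf hl, β_star g ls hls]; ring
  · unfold A
    rw [N_star g (l :: ls) (by simpa only [kids_node] using hc.2), B_cons, H_leaf hl, B_star g ls hls]
    unfold prodC
    rw [List.map_map, mul_one]
    rfl

lemma pow_bound (k : ℕ) : ((k : ℝ) + 4) * (1 / 2) ^ (k + 3) ≤ 1 / 2 := by
  induction k with
  | zero => norm_num
  | succ k ih =>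
    have e : ((1 : ℝ) / 2) ^ (k + 1 + 3) = (1 / 2) ^ (k + 3) * (1 / 2) := by
      rw [← pow_succ]
    rw [e]
    push_cast
    have h2 : 0 < ((1 : ℝ) / 2) ^ (k + 3) := by positivity
    have h3 : (0 : ℝ) ≤ k := Nat.cast_nonneg k
    nlinarith

/-- all leaves have weight `2 p` -/
lemma Q_all_eq (k : ℕ) (p ρ : ℝ) (hp : 0 < p) (hρ : 0 ≤ ρ) (hρp : ρ ≤ p)
    (hp1 : 2 * p ≤ (1 / 2) ^ (k + 1)) :
    InW ((k + 1) * (2 * p) + p + ρ)
      ((1 + C (2 * p + (p - ρ)) * (X - 1)) * prodC (List.replicate k (2 * p)) + C (2 * ρ) * (X - 1)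
        - C (4 * (p - ρ) * (2 * p - p)) * (X - 1) ^ 2) := by
  match k with
  | 0 =>
    have h4 : p ≤ 1 / 4 := by norm_num at hp1; linarith
    have a0 : 0 ≤ 4 * (p - ρ) * p := by apply mul_nonneg; linarith; exact hp.le
    have := quad (3 * p + ρ) (-(4 * (p - ρ) * p)) (by nlinarith) (by nlinarith)
      (by
        have h5 : 0 ≤ 4 * (p - ρ) * p * (2 + (3 * p + ρ)) := by positivity
        have h6 := sq_nonneg (3 * p + ρ)
        linarith)
      (by
        have a1 : 4 * (p - ρ) * p ≤ 1 - (3 * p + ρ) := by nlinarith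
        have a2 : 0 ≤ 4 * (p - ρ) * p := by apply mul_nonneg; linarith; exact hp.le
        have a3 : 3 * (3 * p + ρ) - 2 ≤ (3 * p + ρ) ^ 2 := by nlinarith
        have a4 : 0 ≤ (3 * p + ρ) ^ 2 := sq_nonneg _
        rcases le_total (3 * (3 * p + ρ) - 2) 0 with h | h
        · nlinarith
        · have : 4 * (p - ρ) * p * (3 * (3 * p + ρ) - 2) ≤ (1 - (3 * p + ρ)) * (3 * p + ρ) ^ 2 :=
            mul_le_mul a1 a3 h (by linarith)
          nlinarith)
    refine this.congr (by push_cast; ring) ?_
    simp only [List.replicate, prodC_nil, map_add, map_sub, map_mul, map_neg, map_ofNat]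
    ring
  | 1 =>
    have h4 : p ≤ 1 / 8 := by norm_num at hp1; linarith
    have := quad (5 * p + ρ) ((2 * p + (p - ρ)) * (2 * p) - 4 * (p - ρ) * p) (by nlinarith)
      (by nlinarith) (by
        nlinarith [mul_nonneg hp.le hp.le, mul_nonneg hρ hρ, mul_nonneg hp.le hρ,
          mul_nonneg (mul_nonneg hp.le hp.le) hρ, mul_nonneg (mul_nonneg hp.le hρ) hρ,
          mul_nonneg (mul_nonneg hp.le hp.le) (by linarith : (0 : ℝ) ≤ 1 / 8 - p),
          mul_nonneg (mul_nonneg hp.le hρ) (by linarith : (0 : ℝ) ≤ 1 / 8 - p)])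
      (by
        have e : (2 * p + (p - ρ)) * (2 * p) - 4 * (p - ρ) * p = 2 * p * (p + ρ) := by ring
        rw [e]
        have b1 : 5 * p + ρ ≤ 3 / 4 := by linarith
        have b2 : 2 * p * (p + ρ) * (2 - 3 * (5 * p + ρ)) ≤ (5 * p + ρ) ^ 2 * (1 - (5 * p + ρ)) := by
          have c1 : 2 * p * (p + ρ) * (2 - 3 * (5 * p + ρ)) ≤ 2 * p * (p + ρ) * (2 - 3 * (5 * p)) := by
            apply mul_le_mul_of_nonneg_left (by linarith); positivity
          have c2 : 2 * p * (p + ρ) * (2 - 3 * (5 * p)) ≤ (5 * p + ρ) * (4 / 5 * (p + ρ) * (1 - 15 / 2 * p)) := by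
            have : 2 * p * (p + ρ) * (2 - 3 * (5 * p)) = (5 * p) * (4 / 5 * (p + ρ) * (1 - 15 / 2 * p)) := by
              ring
            rw [this]
            apply mul_le_mul_of_nonneg_right (by linarith)
            have : 0 ≤ 1 - 15 / 2 * p := by linarith
            positivity
          have c3 : 4 / 5 * (p + ρ) * (1 - 15 / 2 * p) ≤ (5 * p + ρ) * (1 - (5 * p + ρ)) := by
            nlinarith [mul_nonneg hp.le hρ, mul_nonneg hρ (by linarith : (0 : ℝ) ≤ p - ρ),
              mul_nonneg hp.le (by linarith : (0 : ℝ) ≤ 1 / 8 - p)]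
          calc _ ≤ _ := c1
            _ ≤ _ := c2
            _ ≤ (5 * p + ρ) * ((5 * p + ρ) * (1 - (5 * p + ρ))) :=
                mul_le_mul_of_nonneg_left c3 (by positivity)
            _ = _ := by ring
        nlinarith)
    refine this.congr (by push_cast; ring) ?_
    simp only [List.replicate, prodC_cons, prodC_nil, map_add, map_sub, map_mul, map_ofNat]
    ring
  | k + 2 =>
    have hb := pow_bound k
    have h2 : 0 < ((1 : ℝ) / 2) ^ (k + 3) := by positivity
    have hp2 : 2 * p ≤ (1 / 2) ^ (k + 3) := hp1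
    have hk : (0 : ℝ) ≤ k := Nat.cast_nonneg k
    have hsum : ((2 * p + (p - ρ)) :: List.replicate (k + 2) (2 * p)).sum + 2 * ρ
        = ((k + 2 : ℕ) + 1) * (2 * p) + p + ρ := by
      rw [List.sum_cons, List.sum_replicate, nsmul_eq_mul]; push_cast; ring
    have hle : ((k : ℝ) + 4) * (2 * p) ≤ 1 / 2 :=
      (mul_le_mul_of_nonneg_left hp2 (by linarith)).trans hb
    have hν : ((2 * p + (p - ρ)) :: List.replicate (k + 2) (2 * p)).sum + 2 * ρ ≤ 1 / 2 := by
      rw [hsum]; push_cast; nlinarith
    have hp8 : 2 * p ≤ 1 / 8 := by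
      refine hp2.trans ?_
      calc ((1 : ℝ) / 2) ^ (k + 3) ≤ (1 / 2) ^ 3 :=
            pow_le_pow_of_le_one (by norm_num) (by norm_num) (by omega)
        _ = 1 / 8 := by norm_num
    have hall : ∀ s ∈ ((2 * p + (p - ρ)) :: List.replicate (k + 2) (2 * p)), 0 ≤ s ∧ s ≤ 1 := by
      intro s hs
      rcases List.mem_cons.1 hs with rfl | hs
      · constructor <;> linarith
      · rw [List.mem_replicate] at hs
        rw [hs.2]; constructor <;> linarith
    have key := small_Q ((2 * p + (p - ρ)) :: List.replicate (k + 2) (2 * p)) (2 * ρ)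
      (4 * (p - ρ) * (2 * p - p)) hall (by linarith)
      (by apply mul_nonneg; linarith; linarith) (by linarith) (Or.inr (by linarith))
      (by
        have := (prod_ge _ hall).2.1
        refine le_trans ?_ this
        have : 4 * (p - ρ) * (2 * p - p) ≤ 1 / 2 := by nlinarith
        linarith)
    refine key.congr hsum ?_
    rw [prodC_cons]

theorem caseI_of_ESB (h : ESB) : CaseI := by
  intro n hn c R hs hc hall ht
  obtain ⟨g, cs, rfl⟩ := exists_node c
  simp only [kids_node] at hall
  have hp0 : 0 < t (node g cs) := t_pos _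
  have hR0 : 0 < t R := t_pos _
  by_cases hex : ∃ d ∈ cs, 4 * t (node g cs) ≤ t d
  · obtain ⟨l, hl, hl4⟩ := hex
    obtain ⟨l1, l2, rfl⟩ := List.append_of_mem hl
    have hp : (l1 ++ l :: l2).Perm (l :: (l1 ++ l2)) := List.perm_middle
    rw [goodJ_perm g hp]
    rw [t_perm g hp] at hl4 ht hall hp0
    have hleaf : IsLeaf l := hc.2 l (by simp)
    have hls : ∀ d ∈ l1 ++ l2, IsLeaf d := fun d hd => hc.2 d (by
      rw [kids_node]; simp only [List.mem_append, List.mem_cons] at hd ⊢; tauto)
    have hs' : size (node g (l :: (l1 ++ l2))) + size R ≤ n + 1 := by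
      rw [size_node, ← sizeL_perm hp, ← size_node g]; exact hs
    apply goodJ_of_Z hn g l (l1 ++ l2) R hleaf hls hs' (by linarith) (by linarith)
    have hle := two_t_le g (l :: (l1 ++ l2))
    rw [List.length_cons] at hle
    have key := ZZ_of_ESB h ((l1 ++ l2).map t) (t l) (t (node g (l :: (l1 ++ l2))))
      (t (node g (l :: (l1 ++ l2))) - t R)
      (by
        intro s hs
        obtain ⟨d, hd, rfl⟩ := List.mem_map.1 hs
        exact ⟨(t_pos d).le, t_le_half d⟩)
      hl4 (t_le_half l) hp0 (by rw [List.length_map]; exact hle) (by linarith) (by linarith)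
    refine key.congr ?_ ?_
    · rw [β_cons, β_leaf hleaf, β_star g _ hls]; ring
    · rw [B_star g _ hls]
      unfold prodC
      rw [List.map_map]
      rfl
  · push Not at hex
    have heq : ∀ d ∈ cs, t d = 2 * t (node g cs) := by
      intro d hd
      have h1 := hall d hd
      have h2 := hex d hd
      -- dyadic weights
      have hd1 : t d = (1 / 2) ^ (d.hh + 1) := leaf_weight (hc.2 d (by rw [kids_node]; exact hd))
      have hd2 : t (node g cs) = (1 / 2) ^ (g + cs.length + 1) := by
        unfold t; rw [hh_node, kids_node]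
      rw [hd1, hd2] at h1 h2 ⊢
      generalize g + cs.length = m at h1 h2 ⊢
      generalize d.hh = k at h1 h2 ⊢
      have e : 2 * ((1 : ℝ) / 2) ^ (m + 1) = (1 / 2) ^ m := by rw [pow_succ]; ring
      rw [e] at h1 ⊢
      rcases lt_trichotomy (k + 1) m with h | h | h
      · exfalso
        have e2 : 4 * ((1 : ℝ) / 2) ^ (m + 1) = (1 / 2) ^ (m - 1) := by
          obtain ⟨j, rfl⟩ : ∃ j, m = j + 1 := ⟨m - 1, by omega⟩
          have : j + 1 - 1 = j := by omega
          rw [this, pow_succ, pow_succ]; ring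
        rw [e2] at h2
        have : ((1 : ℝ) / 2) ^ (m - 1) ≤ (1 / 2) ^ (k + 1) :=
          pow_le_pow_of_le_one (by norm_num) (by norm_num) (by omega)
        linarith
      · rw [h]
      · exfalso
        have : ((1 : ℝ) / 2) ^ (k + 1) < (1 / 2) ^ m :=
          pow_lt_pow_right_of_lt_one₀ (by norm_num) (by norm_num) h
        linarith
    obtain ⟨l, ls, rfl⟩ : ∃ l ls, cs = l :: ls := by
      cases cs with
      | nil => exact absurd (kids_node _ _) hc.1
      | cons l ls => exact ⟨l, ls, rfl⟩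
    have hl : IsLeaf l := hc.2 l (by simp)
    have hls : ∀ d ∈ ls, IsLeaf d := fun d hd => hc.2 d (by simp [hd])
    have hlt : t l = 2 * t (node g (l :: ls)) := heq l (by simp)
    apply goodJ_of_Q hn g l ls R hl hls hs (by linarith) (by linarith)
    set p := t (node g (l :: ls)) with hp
    have hrep : ls.map t = List.replicate ls.length (2 * p) := by
      rw [List.eq_replicate_iff]
      refine ⟨List.length_map _, ?_⟩
      intro s hs
      obtain ⟨d, hd, rfl⟩ := List.mem_map.1 hs
      exact heq d (by simp [hd])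
    have hle := two_t_le g (l :: ls)
    rw [List.length_cons, ← hp] at hle
    have key := Q_all_eq ls.length p (t R) hp0 hR0.le (by linarith) hle
    rw [hlt]
    refine key.congr ?_ ?_
    · rw [β_cons, β_leaf hl, β_star g ls hls, hlt, hrep, List.sum_replicate, nsmul_eq_mul]
      ring
    · rw [B_star g ls hls]
      have e : (List.map (fun d => 1 + C (t d) * (X - 1)) ls).prod = prodC (ls.map t) := by
        unfold prodC; rw [List.map_map]; rfl
      rw [e, hrep]

end Pool.Agent.Lib_helper79.SRC
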