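import Pool.Agent.Lib_helper36.SRC.Scheme
import Pool.Agent.Lib_helper36.SRC.Coef

set_option autoImplicit false

/-! # Case I: the coin certificate -/

namespace Pool.Agent.Lib_helper79.SRC

open PowerSeries Pool.Agent.Lib_helper36.SRC Pool.Agent.Lib_helper36.SRC.RT

lemma size_eq (T : RT) : size T = sizeL T.kids + 1 := by
  conv_lhs => rw [← eta T, size_node]

lemma B_leaf {l : RT} (hl : IsLeaf l) : B l = 1 := by
  unfold B; rw [hl, lawL]

lemma β_leaf {l : RT} (hl : IsLeaf l) : β l = 0 := by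
  unfold β; rw [hl, mnL]

lemma N_leaf {l : RT} (hl : IsLeaf l) : N l = 1 := by
  unfold N; rw [hl, lawL]

lemma H_leaf {l : RT} (hl : IsLeaf l) : H l = 1 + C (t l) * (X - 1) := by
  unfold H; rw [B_leaf hl, N_leaf hl, mul_one]

lemma N_star (g : ℕ) (ls : List RT) (h : ∀ d ∈ ls, IsLeaf d) : N (node g ls) = 1 := by
  induction ls with
  | nil => simp
  | cons l ls ih =>
    rw [N_cons, B_leaf (h l (by simp)), ih (fun d hd => h d (by simp [hd])), mul_one]

lemma B_star (g : ℕ) (ls : List RT) (h : ∀ d ∈ ls, IsLeaf d) :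
    B (node g ls) = (ls.map (fun d => 1 + C (t d) * (X - 1))).prod := by
  induction ls with
  | nil => simp
  | cons l ls ih =>
    rw [B_cons, H_leaf (h l (by simp)), ih (fun d hd => h d (by simp [hd])), List.map_cons,
      List.prod_cons]

lemma β_star (g : ℕ) (ls : List RT) (h : ∀ d ∈ ls, IsLeaf d) :
    β (node g ls) = (ls.map t).sum := by
  induction ls with
  | nil => simp
  | cons l ls ih =>
    rw [β_cons, β_leaf (h l (by simp)), ih (fun d hd => h d (by simp [hd])), List.map_cons,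
      List.sum_cons, zero_add]

/-- the scalar identity behind the certificate -/
lemma cert_ident (a p ρ d : ℝ) (hd : d * (p + (p - ρ)) = p) (Xp AR BR : ℝ⟦X⟧) :
    C (1 / 2) * (((1 + C a * (X - 1)) * Xp + C (2 * p) * ((X - 1) * 1)) * BR
      + (1 + C a * (X - 1)) * Xp * AR)
    = C (1 - d) * ((1 + C (a - p) * (X - 1)) *
        (C (1 / 2) * ((Xp + C (2 * (2 * p)) * ((X - 1) * 1)) * BR + Xp * AR)))
      + C (d / 2) * ((1 + C (a + (p - ρ)) * (X - 1)) * Xp * AR)
      + C (d / 2) * (((1 + C (a + (p - ρ)) * (X - 1)) * Xp + C (2 * ρ) * (X - 1)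
        - C (4 * (p - ρ) * (a - p)) * (X - 1) ^ 2) * BR) := by
  have hC : C d * (C p + (C p - C ρ)) = (C p : ℝ⟦X⟧) := by
    rw [← map_sub, ← map_add, ← map_mul, hd]
  have h2 : C (1 / 2 : ℝ) * 2 = (1 : ℝ⟦X⟧) := by
    have : (2 : ℝ⟦X⟧) = C 2 := (map_ofNat C 2).symm
    rw [this, ← map_mul]; norm_num
  have e1 : C (d / 2) = C d * (C (1 / 2) : ℝ⟦X⟧) := by rw [← map_mul]; congr 1; ring
  rw [e1]
  simp only [map_sub, map_add, map_mul, map_one, map_ofNat]
  have e : ∀ c2 : ℝ⟦X⟧, c2 * 2 = 1 → ∀ (cd ca cp cr y : ℝ⟦X⟧), cd * (cp + (cp - cr)) = cp →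
      c2 * (((1 + ca * y) * Xp + 2 * cp * (y * 1)) * BR + (1 + ca * y) * Xp * AR)
      = (1 - cd) * ((1 + (ca - cp) * y) * (c2 * ((Xp + 2 * (2 * cp) * (y * 1)) * BR + Xp * AR)))
      + cd * c2 * ((1 + (ca + (cp - cr)) * y) * Xp * AR)
      + cd * c2 * (((1 + (ca + (cp - cr)) * y) * Xp + 2 * cr * y
        - 4 * (cp - cr) * (ca - cp) * y ^ 2) * BR) := by
    intro c2 hc2 cd ca cp cr y hcd
    linear_combination (-c2 * y * Xp * (AR + BR) + 2 * c2 * y * BR + 4 * c2 * (ca - cp) * y ^ 2 * BR) * hcd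
  exact e _ h2 _ _ _ _ _ hC

/-- **Certificate for case I**: it is enough to control one explicit polynomial. -/
theorem goodJ_of_Q {n : ℕ} (hn : GoodUpTo n) (g : ℕ) (l : RT) (ls : List RT) (R : RT)
    (hl : IsLeaf l) (hls : ∀ d ∈ ls, IsLeaf d) (hs : size (node g (l :: ls)) + size R ≤ n + 1)
    (_ha : t (node g (l :: ls)) ≤ t l) (hR : t R ≤ t (node g (l :: ls)))
    (hQ : InW (β (node g (l :: ls)) + t (node g (l :: ls)) + t R)
      ((1 + C (t l + (t (node g (l :: ls)) - t R)) * (X - 1)) * B (node g ls)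
        + C (2 * t R) * (X - 1)
        - C (4 * (t (node g (l :: ls)) - t R) * (t l - t (node g (l :: ls)))) * (X - 1) ^ 2)) :
    GoodJ (node g (l :: ls)) R := by
  set p := t (node g (l :: ls)) with hp
  have hp2 : t (node g ls) = 2 * p := (t_cons g l ls).symm
  have hp0 : 0 < p := t_pos _
  have hR0 : 0 < t R := t_pos _
  have hp1 : p ≤ 1 / 2 := t_le_half _
  have hl1 : t l ≤ 1 / 2 := t_le_half _
  have hs1 := size_pos l
  have hs2 := size_pos R
  rw [size_node, sizeL_cons] at hs
  set d := p / (p + (p - t R)) with hd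
  have hden : 0 < p + (p - t R) := by linarith
  have hdmul : d * (p + (p - t R)) = p := by rw [hd]; field_simp
  have hd0 : 0 ≤ d := by positivity
  have hd1 : d ≤ 1 := by rw [hd, div_le_one hden]; linarith
  have hNs : N (node g ls) = 1 := N_star g ls hls
  have hNc : N (node g (l :: ls)) = 1 := by rw [N_cons, B_leaf hl, hNs, mul_one]
  have hAs : A (node g ls) = B (node g ls) + C (2 * (2 * p)) * ((X - 1) * 1) := by
    unfold A; rw [hNs, hp2]
  have hBc : B (node g (l :: ls)) = (1 + C (t l) * (X - 1)) * B (node g ls) := by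
    rw [B_cons, H_leaf hl]
  have hAc : A (node g (l :: ls)) = (1 + C (t l) * (X - 1)) * B (node g ls)
      + C (2 * p) * ((X - 1) * 1) := by
    unfold A; rw [hNc, ← hp, hBc]
  have key : J (node g (l :: ls)) R
      = C (1 - d) * ((1 + C (t l - p) * (X - 1)) * J (node g ls) R)
      + C (d / 2) * ((1 + C (t l + (p - t R)) * (X - 1)) * B (node g ls) * A R)
      + C (d / 2) * (((1 + C (t l + (p - t R)) * (X - 1)) * B (node g ls) + C (2 * t R) * (X - 1)
        - C (4 * (p - t R) * (t l - p)) * (X - 1) ^ 2) * B R) := by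
    have := cert_ident (t l) p (t R) d hdmul (B (node g ls)) (A R) (B R)
    unfold J
    rw [hAc, hBc, hAs]
    exact this
  unfold GoodJ
  rw [key]
  have hβ : β (node g (l :: ls)) = t l + β (node g ls) := by
    rw [β_cons, β_leaf hl]; ring
  have hBs : InW (β (node g ls)) (B (node g ls)) := hn.BL g ls (by omega)
  have hAR : InW (α R) (A R) := hn.A R (by omega)
  have hBR : InW (β R) (B R) := hn.B R (by omega)
  have hJ : GoodJ (node g ls) R := by
    have h1 : Good (node R.hh (node g ls :: R.kids)) := by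
      apply hn
      rw [size_node, sizeL_cons, size_node]
      have := size_eq R
      omega
    rw [good_cons, eta] at h1
    exact h1
  apply InW.add
  · apply InW.add
    · apply InW.smul (by linarith)
      refine ((InW.coin (s := t l - p) (by linarith)).mul hJ).congr ?_ rfl
      unfold mJ; rw [hβ, hp2]; ring
    · apply InW.smul (by positivity)
      refine (((InW.coin (s := t l + (p - t R)) (by linarith)).mul hBs).mul hAR).congr ?_ rfl
      unfold mJ α; rw [hβ]; ring
  · apply InW.smul (by positivity)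
    refine (hQ.mul hBR).congr ?_ rfl
    unfold mJ; ring

end Pool.Agent.Lib_helper79.SRC
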