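import Pool.Agent.Lib_helper79.SRC.AlgI

set_option autoImplicit false

/-! # Case I: the certificate with the leaf moved to `u` -/

namespace Pool.Agent.Lib_helper79.SRC

open PowerSeries Pool.Agent.Lib_helper36.SRC Pool.Agent.Lib_helper36.SRC.RT

/-- the explicit polynomial of case I: `a` weight of the leaf which is moved, `p` weight of the
centre, `D` the difference of the weights of the centre and of `u`, `φ = D / (a - p + D)` -/
noncomputable def ZZ (a p D : ℝ) (Xp : ℝ⟦X⟧) : ℝ⟦X⟧ :=
  Xp * ((1 + C a * (X - 1)) - C (D / (a - p + D)) * ((1 + C p * (X - 1)) * (1 + C (2 * a) * (X - 1))))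
    + C (2 * p) * (X - 1)

lemma cert_identZ (a p D φ : ℝ) (hφ : φ * (a - p + D) = D) (Xp AR BR : ℝ⟦X⟧) :
    C (1 / 2) * (((1 + C a * (X - 1)) * Xp + C (2 * p) * ((X - 1) * 1)) * BR
      + (1 + C a * (X - 1)) * Xp * AR)
    = C φ * (Xp * (1 + C p * (X - 1)) * (C (1 / 2) * ((1 + C (2 * a) * (X - 1)) * BR + 1 * AR)))
      + C ((1 - φ) / 2) * (Xp * (1 + C (a + D) * (X - 1)) * AR)
      + C (1 / 2) * ((Xp * ((1 + C a * (X - 1)) - C φ * ((1 + C p * (X - 1)) *
        (1 + C (2 * a) * (X - 1)))) + C (2 * p) * (X - 1)) * BR) := by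
  have hC : C φ * (C a - C p + C D) = (C D : ℝ⟦X⟧) := by
    rw [← map_sub, ← map_add, ← map_mul, hφ]
  have e1 : C ((1 - φ) / 2) = (1 - C φ) * (C (1 / 2) : ℝ⟦X⟧) := by
    rw [← map_one (C (R := ℝ)), ← map_sub, ← map_mul]; congr 1; ring
  rw [e1]
  simp only [map_sub, map_add, map_mul, map_one, map_ofNat]
  linear_combination (C (1 / 2) * (X - 1) * Xp * AR) * hC

/-- **Certificate for case I** (one leaf of the star `c` moved to `u`). -/
theorem goodJ_of_Z {n : ℕ} (hn : GoodUpTo n) (g : ℕ) (l : RT) (ls : List RT) (R : RT)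
    (hl : IsLeaf l) (hls : ∀ d ∈ ls, IsLeaf d) (hs : size (node g (l :: ls)) + size R ≤ n + 1)
    (ha : t (node g (l :: ls)) < t l) (hR : t R ≤ t (node g (l :: ls)))
    (hZ : InW (β (node g (l :: ls)) + t (node g (l :: ls)) + t R)
      (ZZ (t l) (t (node g (l :: ls))) (t (node g (l :: ls)) - t R) (B (node g ls)))) :
    GoodJ (node g (l :: ls)) R := by
  set p := t (node g (l :: ls)) with hp
  have hp0 : 0 < p := t_pos _
  have hR0 : 0 < t R := t_pos _
  have hp1 : p ≤ 1 / 2 := t_le_half _
  have hl1 : t l ≤ 1 / 2 := t_le_half _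
  have hs1 := size_pos l
  have hs2 := size_pos R
  have hsl : size l = 1 := by rw [size_eq, hl, sizeL_nil]
  rw [size_node, sizeL_cons] at hs
  set D := p - t R with hD
  have hden : 0 < t l - p + D := by rw [hD]; linarith
  set φ := D / (t l - p + D) with hφ
  have hφmul : φ * (t l - p + D) = D := by rw [hφ]; field_simp
  have hφ0 : 0 ≤ φ := div_nonneg (by rw [hD]; linarith) hden.le
  have hφ1 : φ ≤ 1 := by rw [hφ, div_le_one hden]; linarith
  have hNs : N (node g ls) = 1 := N_star g ls hls
  have hNc : N (node g (l :: ls)) = 1 := by rw [N_cons, B_leaf hl, hNs, mul_one]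
  have hBc : B (node g (l :: ls)) = (1 + C (t l) * (X - 1)) * B (node g ls) := by
    rw [B_cons, H_leaf hl]
  have hAc : A (node g (l :: ls)) = (1 + C (t l) * (X - 1)) * B (node g ls)
      + C (2 * p) * ((X - 1) * 1) := by
    unfold A; rw [hNc, ← hp, hBc]
  have hAl : A l = 1 + C (2 * t l) * (X - 1) := by
    unfold A; rw [B_leaf hl, N_leaf hl, mul_one]
  have key : J (node g (l :: ls)) R
      = C φ * (B (node g ls) * (1 + C p * (X - 1)) * J l R)
      + C ((1 - φ) / 2) * (B (node g ls) * (1 + C (t l + D) * (X - 1)) * A R)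
      + C (1 / 2) * (ZZ (t l) p D (B (node g ls)) * B R) := by
    have := cert_identZ (t l) p D φ hφmul (B (node g ls)) (A R) (B R)
    unfold J ZZ
    rw [hAc, hBc, hAl, B_leaf hl]
    exact this
  unfold GoodJ
  rw [key]
  have hβ : β (node g (l :: ls)) = t l + β (node g ls) := by
    rw [β_cons, β_leaf hl]; ring
  have hBs : InW (β (node g ls)) (B (node g ls)) := hn.BL g ls (by omega)
  have hAR : InW (α R) (A R) := hn.A R (by omega)
  have hBR : InW (β R) (B R) := hn.B R (by omega)
  have hJ : GoodJ l R := by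
    have h1 : Good (node R.hh (l :: R.kids)) := by
      apply hn
      rw [size_node, sizeL_cons]
      have := size_eq R
      omega
    rw [good_cons, eta] at h1
    exact h1
  apply InW.add
  · apply InW.add
    · apply InW.smul hφ0
      refine ((hBs.mul (InW.coin (s := p) (by linarith))).mul hJ).congr ?_ rfl
      unfold mJ; rw [hβ, β_leaf hl]; ring
    · apply InW.smul (by linarith)
      refine ((hBs.mul (InW.coin (s := t l + D) (by rw [hD]; linarith))).mul hAR).congr ?_ rfl
      unfold mJ α; rw [hβ]; ring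
  · apply InW.smul (by norm_num)
    refine (hZ.mul hBR).congr ?_ rfl
    unfold mJ; ring

/-- the series of case I, for a list of leaf weights -/
noncomputable def prodC (as : List ℝ) : ℝ⟦X⟧ := (as.map (fun s => 1 + C s * (X - 1))).prod

/-- **The scalar statement (B)** which gives case I and the stars. -/
def StatB : Prop := ∀ (as : List ℝ) (a p D : ℝ), (∃ k : ℕ, a = (1 / 2) ^ (k + 1)) →
  (∀ s ∈ as, ∃ k : ℕ, s = (1 / 2) ^ (k + 1)) → (∃ k : ℕ, p = (1 / 2) ^ (k + as.length + 2)) →
  2 * p ≤ a → (∀ s ∈ as, 2 * p ≤ s) → 0 ≤ D → D ≤ p →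
  InW (as.sum + a + 2 * p - D) (ZZ a p D (prodC as))

lemma leaf_weight {d : RT} (hd : IsLeaf d) : t d = (1 / 2) ^ (d.hh + 1) := by
  unfold t; rw [hd]; simp

/-- case I from the scalar statement -/
theorem caseI_of_StatB (h : StatB) : CaseI := by
  intro n hn c R hs hc hall ht
  obtain ⟨g, cs, rfl⟩ := exists_node c
  obtain ⟨l, ls, rfl⟩ : ∃ l ls, cs = l :: ls := by
    cases cs with
    | nil => exact absurd (kids_node _ _) hc.1
    | cons l ls => exact ⟨l, ls, rfl⟩
  have hl : IsLeaf l := hc.2 l (by simp)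
  have hls : ∀ d ∈ ls, IsLeaf d := fun d hd => hc.2 d (by simp [hd])
  have hp0 : 0 < t (node g (l :: ls)) := t_pos _
  have hal : 2 * t (node g (l :: ls)) ≤ t l := hall l (by simp)
  have hR0 : 0 < t R := t_pos _
  apply goodJ_of_Z hn g l ls R hl hls hs (by linarith) (by linarith)
  have := h (ls.map t) (t l) (t (node g (l :: ls))) (t (node g (l :: ls)) - t R)
    ⟨l.hh, leaf_weight hl⟩
    (by
      intro s hs
      obtain ⟨d, hd, rfl⟩ := List.mem_map.1 hs
      exact ⟨d.hh, leaf_weight (hls d hd)⟩)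
    ⟨g, by unfold t; simp [hh_node, kids_node, List.length_map]; ring_nf⟩
    hal
    (by
      intro s hs
      obtain ⟨d, hd, rfl⟩ := List.mem_map.1 hs
      exact hall d (by simp [hd]))
    (by linarith) (by linarith)
  refine this.congr ?_ ?_
  · rw [β_cons, β_leaf hl, β_star g ls hls]; ring
  · rw [B_star g ls hls]
    unfold prodC
    rw [List.map_map]
    rfl

/-- stars from the scalar statement -/
theorem starBase_of_StatB (h : StatB)
    (hthin : ∀ n : ℕ, GoodUpTo n → ∀ c : RT, size c ≤ n + 1 → IsStar c →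
      (∃ d ∈ c.kids, ¬ 2 * t c ≤ t d) → Good c) : StarBase := by
  intro n hn c hs hc
  by_cases hall : ∀ d ∈ c.kids, 2 * t c ≤ t d
  · obtain ⟨g, cs, rfl⟩ := exists_node c
    obtain ⟨l, ls, rfl⟩ : ∃ l ls, cs = l :: ls := by
      cases cs with
      | nil => exact absurd (kids_node _ _) hc.1
      | cons l ls => exact ⟨l, ls, rfl⟩
    have hl : IsLeaf l := hc.2 l (by simp)
    have hls : ∀ d ∈ ls, IsLeaf d := fun d hd => hc.2 d (by simp [hd])
    have hal : 2 * t (node g (l :: ls)) ≤ t l := hall l (by simp)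
    have := h (ls.map t) (t l) (t (node g (l :: ls))) 0
      ⟨l.hh, leaf_weight hl⟩
      (by
        intro s hs
        obtain ⟨d, hd, rfl⟩ := List.mem_map.1 hs
        exact ⟨d.hh, leaf_weight (hls d hd)⟩)
      ⟨g, by unfold t; simp [hh_node, kids_node, List.length_map]; ring_nf⟩
      hal
      (by
        intro s hs
        obtain ⟨d, hd, rfl⟩ := List.mem_map.1 hs
        exact hall d (by simp [hd]))
      (le_refl _) (t_pos _).le
    unfold Good
    refine this.congr ?_ ?_
    · unfold α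
      rw [β_cons, β_leaf hl, β_star g ls hls]; ring
    · unfold ZZ A
      rw [zero_div, map_zero, zero_mul, sub_zero, N_star g (l :: ls) (by simpa only [kids_node] using hc.2), B_cons, H_leaf hl,
        B_star g ls hls]
      unfold prodC
      rw [List.map_map, mul_one]
      have e : (List.map (fun d => 1 + C (t d) * (X - 1)) ls).prod
          = (List.map ((fun s : ℝ => (1 + C s * (X - 1) : ℝ⟦X⟧)) ∘ t) ls).prod := rfl
      rw [e]; ring
  · push Not at hall
    obtain ⟨d, hd, hdt⟩ := hall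
    exact hthin n hn c hs hc ⟨d, hd, not_le.2 hdt⟩

/-- a star with a thin leaf -/
theorem star_thin {n : ℕ} (hn : GoodUpTo n) (c : RT) (hs : size c ≤ n + 1) (hc : IsStar c)
    (h : ∃ d ∈ c.kids, ¬ 2 * t c ≤ t d) : Good c := by
  obtain ⟨d, hd, hdt⟩ := h
  obtain ⟨g, cs, rfl⟩ := exists_node c
  simp only [kids_node] at hd
  obtain ⟨l1, l2, rfl⟩ := List.append_of_mem hd
  have hp : (l1 ++ d :: l2).Perm (d :: (l1 ++ l2)) := List.perm_middle
  have hleaf : IsLeaf d := hc.2 d (by simp)
  have hdn : d = node d.hh [] := by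
    have := eta d; rw [hleaf] at this; exact this.symm
  rw [good_perm g hp, good_cons]
  have e1 : 2 * t (node g (l1 ++ d :: l2)) = t (node g (l1 ++ l2)) := by
    rw [t_perm g hp, t_cons]
  have hle : t d ≤ t (node g (l1 ++ l2)) := by
    rw [← e1]; exact (not_le.1 hdt).le
  rw [hdn] at hle ⊢
  apply goodJ_thin_leaf hn _ _ _ hle
  rw [size_node, sizeL_perm hp, sizeL_cons] at hs
  rw [size_node]
  have := size_pos d
  omega

theorem starBase_of_StatB' (h : StatB) : StarBase :=
  starBase_of_StatB h (fun _ hn c hs hc hex => star_thin hn c hs hc hex)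

end Pool.Agent.Lib_helper79.SRC
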