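import Pool.Agent.Lib_helper1.SRCH.HonestCheck
import Pool.Agent.Lib_helper13.GC6.CaseIIIBH

set_option autoImplicit false

/-! # The polynomial block of case IIIB, by the reflective checker -/

namespace Pool.Agent.Lib_helper79.SRC

open PowerSeries
open Pool.Agent.Lib_helper36.SRC Pool.Agent.Lib_helper1.SRCH

def fb8 : List (List ℤ) := mul2 (lift1 (pow1 [1, 1] 8)) [[39, 80], [-15, -80], [8]]

theorem chkfb8 : chk fb8 32 129 (-80) = true := by decide +kernel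

/-- `κ^8 (1 - a y + y²/4)` is in `W (4 - a)` for `-1/32 ≤ a ≤ 9/32` -/
theorem blk8 (a : ℝ) (h0 : -(1 / 32) ≤ a) (h1 : a ≤ 9 / 32) :
    InW (4 - a) (Pool.Agent.Lib_helper13.GC6.kap ^ 8
      * (1 - C a * (X - 1) + C (1 / 4) * (X - 1) ^ 2)) := by
  unfold Pool.Agent.Lib_helper13.GC6.kap
  have h := inW_of_chk fb8 32 129 (-80) (by norm_num) chkfb8 (r := 2 / 5 * (a + 1 / 32))
    (by linarith) (by linarith)
  have h2 := h.smul (c := (1 / 2) ^ 13) (by positivity)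
  refine h2.congr ?_ ?_
  · push_cast; ring
  · unfold fb8
    rw [ev2_mul, ev2_lift, ev1_pow]
    have e := two_kl 8
    unfold kl at e
    have e1 : ev1 (X : ℝ⟦X⟧) [1, 1] = 1 + X := by simp
    rw [e1, ← e]
    have e2 : (C ((1 / 2 : ℝ) ^ 13) : ℝ⟦X⟧) * (C (2 ^ 8) * 32) = 1 := by
      have h3 : (C (32 : ℝ) : ℝ⟦X⟧) = 32 := map_ofNat C 32
      rw [← h3, ← map_mul, ← map_mul]; norm_num
    have e3 : (80 : ℝ⟦X⟧) * C (2 / 5 * (a + 1 / 32)) = 32 * C a + 1 := by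
      have h4 : (C (80 : ℝ) : ℝ⟦X⟧) = 80 := map_ofNat C 80
      have h5 : (C (32 : ℝ) : ℝ⟦X⟧) = 32 := map_ofNat C 32
      rw [← h4, ← h5, ← map_mul, ← map_mul, ← map_one C, ← map_add]; congr 1; ring
    have e4 : (4 : ℝ⟦X⟧) * C (1 / 4) = 1 := by
      have h4 : (C (4 : ℝ) : ℝ⟦X⟧) = 4 := map_ofNat C 4
      rw [← h4, ← map_mul]; norm_num
    have e5 : ev2 (X : ℝ⟦X⟧) (C (2 / 5 * (a + 1 / 32))) [[39, 80], [-15, -80], [8]]
        = 32 * (1 - C a * (X - 1) + C (1 / 4) * (X - 1) ^ 2) := by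
      simp only [ev2_cons, ev2_nil, ev1_cons, ev1_nil]
      push_cast
      linear_combination (1 - X) * e3 - 8 * (X - 1) ^ 2 * e4
    rw [e5]
    linear_combination ((1 + C (1 / 2) * (X - 1)) ^ 8
      * (1 - C a * (X - 1) + C (1 / 4) * (X - 1) ^ 2)) * e2

def fb4 : List (List ℤ) := mul2 (lift1 (pow1 [1, 1] 4)) [[35, 80], [-7, -80], [4]]

theorem chkfb4 : chk fb4 32 65 (-80) = true := by decide +kernel

/-- `κ^4 (1 - a y + y²/8)` is in `W (2 - a)` for `-1/32 ≤ a ≤ 9/32` -/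
theorem blk4 (a : ℝ) (h0 : -(1 / 32) ≤ a) (h1 : a ≤ 9 / 32) :
    InW (2 - a) (Pool.Agent.Lib_helper13.GC6.kap ^ 4
      * (1 - C a * (X - 1) + C (1 / 8) * (X - 1) ^ 2)) := by
  unfold Pool.Agent.Lib_helper13.GC6.kap
  have h := inW_of_chk fb4 32 65 (-80) (by norm_num) chkfb4 (r := 2 / 5 * (a + 1 / 32))
    (by linarith) (by linarith)
  have h2 := h.smul (c := (1 / 2) ^ 9) (by positivity)
  refine h2.congr ?_ ?_
  · push_cast; ring
  · unfold fb4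
    rw [ev2_mul, ev2_lift, ev1_pow]
    have e := two_kl 4
    unfold kl at e
    have e1 : ev1 (X : ℝ⟦X⟧) [1, 1] = 1 + X := by simp
    rw [e1, ← e]
    have e2 : (C ((1 / 2 : ℝ) ^ 9) : ℝ⟦X⟧) * (C (2 ^ 4) * 32) = 1 := by
      have h3 : (C (32 : ℝ) : ℝ⟦X⟧) = 32 := map_ofNat C 32
      rw [← h3, ← map_mul, ← map_mul]; norm_num
    have e3 : (80 : ℝ⟦X⟧) * C (2 / 5 * (a + 1 / 32)) = 32 * C a + 1 := by
      have h4 : (C (80 : ℝ) : ℝ⟦X⟧) = 80 := map_ofNat C 80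
      have h5 : (C (32 : ℝ) : ℝ⟦X⟧) = 32 := map_ofNat C 32
      rw [← h4, ← h5, ← map_mul, ← map_mul, ← map_one C, ← map_add]; congr 1; ring
    have e4 : (8 : ℝ⟦X⟧) * C (1 / 8) = 1 := by
      have h4 : (C (8 : ℝ) : ℝ⟦X⟧) = 8 := map_ofNat C 8
      rw [← h4, ← map_mul]; norm_num
    have e5 : ev2 (X : ℝ⟦X⟧) (C (2 / 5 * (a + 1 / 32))) [[35, 80], [-7, -80], [4]]
        = 32 * (1 - C a * (X - 1) + C (1 / 8) * (X - 1) ^ 2) := by
      simp only [ev2_cons, ev2_nil, ev1_cons, ev1_nil]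
      push_cast
      linear_combination (1 - X) * e3 - 4 * (X - 1) ^ 2 * e4
    rw [e5]
    linear_combination ((1 + C (1 / 2) * (X - 1)) ^ 4
      * (1 - C a * (X - 1) + C (1 / 8) * (X - 1) ^ 2)) * e2

lemma inW_kap_pow (n : ℕ) : InW ((n : ℝ) / 2) (Pool.Agent.Lib_helper13.GC6.kap ^ n) := by
  induction n with
  | zero => simpa using (InW.coin (s := 0) (by norm_num)).congr rfl (by simp)
  | succ n ih =>
    have c2 : InW (1 / 2) (Pool.Agent.Lib_helper13.GC6.kap) := InW.coin (by norm_num)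
    refine (ih.mul c2).congr ?_ ?_
    · push_cast; ring
    · rw [pow_succ]

/-- from the extreme value `b0` to `0 ≤ b ≤ b0`, and from the exponent `m` to `n ≥ m` -/
lemma blk_ext (m n : ℕ) (hmn : m ≤ n) (a b b0 : ℝ) (ha : -1 ≤ a) (hb : 0 ≤ b) (hb1 : b ≤ b0)
    (hb0 : 0 < b0)
    (h : InW (m / 2 - a) (Pool.Agent.Lib_helper13.GC6.kap ^ m
      * (1 - C a * (X - 1) + C b0 * (X - 1) ^ 2))) :
    InW (n / 2 - a) (Pool.Agent.Lib_helper13.GC6.kap ^ n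
      * (1 - C a * (X - 1) + C b * (X - 1) ^ 2)) := by
  obtain ⟨k, rfl⟩ := Nat.exists_eq_add_of_le hmn
  have hcoin : InW (m / 2 - a) (Pool.Agent.Lib_helper13.GC6.kap ^ m * (1 + C (-a) * (X - 1))) :=
    ((inW_kap_pow m).mul (InW.coin (s := -a) (by linarith))).congr (by ring) rfl
  have h5 := (h.smul (c := b / b0) (by positivity)).add
      (hcoin.smul (c := 1 - b / b0) (by rw [sub_nonneg, div_le_one hb0]; exact hb1))
  have h6 := h5.mul (inW_kap_pow k)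
  refine h6.congr ?_ ?_
  · push_cast; ring
  · have e1 : (C (b / b0) : ℝ⟦X⟧) * C b0 = C b := by
      rw [← map_mul]; congr 1; field_simp
    have e2 : (C (1 - b / b0) : ℝ⟦X⟧) = 1 - C (b / b0) := by rw [map_sub, map_one]
    have e3 : (C (-a) : ℝ⟦X⟧) = - C a := by rw [map_neg]
    rw [e2, e3, pow_add]
    linear_combination (Pool.Agent.Lib_helper13.GC6.kap ^ m * Pool.Agent.Lib_helper13.GC6.kap ^ k
      * (X - 1) ^ 2) * e1

/-- the block at any exponent `n ≥ 4`, `0 ≤ b ≤ 1/8` -/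
theorem blk4' (n : ℕ) (hn : 4 ≤ n) (a b : ℝ) (h0 : -(1 / 32) ≤ a) (h1 : a ≤ 9 / 32) (hb : 0 ≤ b)
    (hb1 : b ≤ 1 / 8) : InW (n / 2 - a) (Pool.Agent.Lib_helper13.GC6.kap ^ n
      * (1 - C a * (X - 1) + C b * (X - 1) ^ 2)) := by
  apply blk_ext 4 n hn a b (1 / 8) (by linarith) hb hb1 (by norm_num)
  refine (blk4 a h0 h1).congr ?_ rfl
  norm_num

/-- the block at any exponent `n ≥ 8`, `0 ≤ b ≤ 1/4` -/
theorem blk8' (n : ℕ) (hn : 8 ≤ n) (a b : ℝ) (h0 : -(1 / 32) ≤ a) (h1 : a ≤ 9 / 32) (hb : 0 ≤ b)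
    (hb1 : b ≤ 1 / 4) : InW (n / 2 - a) (Pool.Agent.Lib_helper13.GC6.kap ^ n
      * (1 - C a * (X - 1) + C b * (X - 1) ^ 2)) := by
  apply blk_ext 8 n hn a b (1 / 4) (by linarith) hb hb1 (by norm_num)
  refine (blk8 a h0 h1).congr ?_ rfl
  norm_num

def fb4x : List (List ℤ) := mul2 (lift1 (pow1 [1, 1] 4)) [[17, 72], [-3, -72], [2]]

theorem chkfb4x : chk fb4x 16 33 (-72) = true := by decide +kernel

/-- `κ^4 (1 - a y + y²/8)` is in `W (2 - a)` for `-1/16 ≤ a ≤ 1/2` -/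
theorem blk4x (a : ℝ) (h0 : -(1 / 16) ≤ a) (h1 : a ≤ 1 / 2) :
    InW (2 - a) (Pool.Agent.Lib_helper13.GC6.kap ^ 4
      * (1 - C a * (X - 1) + C (1 / 8) * (X - 1) ^ 2)) := by
  unfold Pool.Agent.Lib_helper13.GC6.kap
  have h := inW_of_chk fb4x 16 33 (-72) (by norm_num) chkfb4x (r := 2 / 9 * (a + 1 / 16))
    (by linarith) (by linarith)
  have h2 := h.smul (c := (1 / 2) ^ 8) (by positivity)
  refine h2.congr ?_ ?_
  · push_cast; ring
  · unfold fb4x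
    rw [ev2_mul, ev2_lift, ev1_pow]
    have e := two_kl 4
    unfold kl at e
    have e1 : ev1 (X : ℝ⟦X⟧) [1, 1] = 1 + X := by simp
    rw [e1, ← e]
    have e2 : (C ((1 / 2 : ℝ) ^ 8) : ℝ⟦X⟧) * (C (2 ^ 4) * 16) = 1 := by
      have h3 : (C (16 : ℝ) : ℝ⟦X⟧) = 16 := map_ofNat C 16
      rw [← h3, ← map_mul, ← map_mul]; norm_num
    have e3 : (72 : ℝ⟦X⟧) * C (2 / 9 * (a + 1 / 16)) = 16 * C a + 1 := by
      have h4 : (C (72 : ℝ) : ℝ⟦X⟧) = 72 := map_ofNat C 72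
      have h5 : (C (16 : ℝ) : ℝ⟦X⟧) = 16 := map_ofNat C 16
      rw [← h4, ← h5, ← map_mul, ← map_mul, ← map_one C, ← map_add]; congr 1; ring
    have e4 : (8 : ℝ⟦X⟧) * C (1 / 8) = 1 := by
      have h4 : (C (8 : ℝ) : ℝ⟦X⟧) = 8 := map_ofNat C 8
      rw [← h4, ← map_mul]; norm_num
    have e5 : ev2 (X : ℝ⟦X⟧) (C (2 / 9 * (a + 1 / 16))) [[17, 72], [-3, -72], [2]]
        = 16 * (1 - C a * (X - 1) + C (1 / 8) * (X - 1) ^ 2) := by
      simp only [ev2_cons, ev2_nil, ev1_cons, ev1_nil]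
      push_cast
      linear_combination (1 - X) * e3 - 2 * (X - 1) ^ 2 * e4
    rw [e5]
    linear_combination ((1 + C (1 / 2) * (X - 1)) ^ 4
      * (1 - C a * (X - 1) + C (1 / 8) * (X - 1) ^ 2)) * e2

/-- the block at any exponent `n ≥ 4`, `0 ≤ b ≤ 1/8`, `-1/16 ≤ a ≤ 1/2` -/
theorem blk4x' (n : ℕ) (hn : 4 ≤ n) (a b : ℝ) (h0 : -(1 / 16) ≤ a) (h1 : a ≤ 1 / 2) (hb : 0 ≤ b)
    (hb1 : b ≤ 1 / 8) : InW (n / 2 - a) (Pool.Agent.Lib_helper13.GC6.kap ^ n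
      * (1 - C a * (X - 1) + C b * (X - 1) ^ 2)) := by
  apply blk_ext 4 n hn a b (1 / 8) (by linarith) hb hb1 (by norm_num)
  refine (blk4x a h0 h1).congr ?_ rfl
  norm_num

def fb8x : List (List ℤ) := mul2 (lift1 (pow1 [1, 1] 8)) [[19, 72], [-7, -72], [4]]

theorem chkfb8x : chk fb8x 16 65 (-72) = true := by decide +kernel

/-- `κ^8 (1 - a y + y²/4)` is in `W (4 - a)` for `-1/16 ≤ a ≤ 1/2` -/
theorem blk8x (a : ℝ) (h0 : -(1 / 16) ≤ a) (h1 : a ≤ 1 / 2) :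
    InW (4 - a) (Pool.Agent.Lib_helper13.GC6.kap ^ 8
      * (1 - C a * (X - 1) + C (1 / 4) * (X - 1) ^ 2)) := by
  unfold Pool.Agent.Lib_helper13.GC6.kap
  have h := inW_of_chk fb8x 16 65 (-72) (by norm_num) chkfb8x (r := 2 / 9 * (a + 1 / 16))
    (by linarith) (by linarith)
  have h2 := h.smul (c := (1 / 2) ^ 12) (by positivity)
  refine h2.congr ?_ ?_
  · push_cast; ring
  · unfold fb8x
    rw [ev2_mul, ev2_lift, ev1_pow]
    have e := two_kl 8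
    unfold kl at e
    have e1 : ev1 (X : ℝ⟦X⟧) [1, 1] = 1 + X := by simp
    rw [e1, ← e]
    have e2 : (C ((1 / 2 : ℝ) ^ 12) : ℝ⟦X⟧) * (C (2 ^ 8) * 16) = 1 := by
      have h3 : (C (16 : ℝ) : ℝ⟦X⟧) = 16 := map_ofNat C 16
      rw [← h3, ← map_mul, ← map_mul]; norm_num
    have e3 : (72 : ℝ⟦X⟧) * C (2 / 9 * (a + 1 / 16)) = 16 * C a + 1 := by
      have h4 : (C (72 : ℝ) : ℝ⟦X⟧) = 72 := map_ofNat C 72
      have h5 : (C (16 : ℝ) : ℝ⟦X⟧) = 16 := map_ofNat C 16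
      rw [← h4, ← h5, ← map_mul, ← map_mul, ← map_one C, ← map_add]; congr 1; ring
    have e4 : (4 : ℝ⟦X⟧) * C (1 / 4) = 1 := by
      have h4 : (C (4 : ℝ) : ℝ⟦X⟧) = 4 := map_ofNat C 4
      rw [← h4, ← map_mul]; norm_num
    have e5 : ev2 (X : ℝ⟦X⟧) (C (2 / 9 * (a + 1 / 16))) [[19, 72], [-7, -72], [4]]
        = 16 * (1 - C a * (X - 1) + C (1 / 4) * (X - 1) ^ 2) := by
      simp only [ev2_cons, ev2_nil, ev1_cons, ev1_nil]
      push_cast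
      linear_combination (1 - X) * e3 - 4 * (X - 1) ^ 2 * e4
    rw [e5]
    linear_combination ((1 + C (1 / 2) * (X - 1)) ^ 8
      * (1 - C a * (X - 1) + C (1 / 4) * (X - 1) ^ 2)) * e2

/-- the block at any exponent `n ≥ 8`, `0 ≤ b ≤ 1/4`, `-1/16 ≤ a ≤ 1/2` -/
theorem blk8x' (n : ℕ) (hn : 8 ≤ n) (a b : ℝ) (h0 : -(1 / 16) ≤ a) (h1 : a ≤ 1 / 2) (hb : 0 ≤ b)
    (hb1 : b ≤ 1 / 4) : InW (n / 2 - a) (Pool.Agent.Lib_helper13.GC6.kap ^ n
      * (1 - C a * (X - 1) + C b * (X - 1) ^ 2)) := by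
  apply blk_ext 8 n hn a b (1 / 4) (by linarith) hb hb1 (by norm_num)
  refine (blk8x a h0 h1).congr ?_ rfl
  norm_num

end Pool.Agent.Lib_helper79.SRC
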