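import Pool.Agent.Lib_helper79.SRC.CaseIStar
import Pool.Agent.Lib_helper36.SRC.StarLemma

set_option autoImplicit false

/-! # Case I and the stars: done -/

namespace Pool.Agent.Lib_helper79.SRC

open PowerSeries Pool.Agent.Lib_helper36.SRC Pool.Agent.Lib_helper36.SRC.RT
  Pool.Agent.Lib_helper35.SRC

theorem hA : HA := fun L w _ hL hw0 hw => star_lemma L w hL hw0 hw

theorem hR1 : HR1 := fun L w δ hlen hL hδ0 hδ hw0 hw hpi =>
  starA L w δ hL hlen hw0 (by rw [Pi0_eq]; exact hpi) hδ0 hw hδ

theorem hR2 : HR2 := fun L w hlen hL hw0 hw => starB L w hL (by omega) hw0 hw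

theorem starBase : StarBase := starBase_of_HA hA

theorem caseI : CaseI := caseI_of_star hA hR1 hR2

end Pool.Agent.Lib_helper79.SRC
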