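import Pool.Agent.Lib_helper79.SRC.Level2

set_option autoImplicit false

/-! # Two and three leaves -/

namespace Pool.Agent.Lib_helper79.SRC

open PowerSeries Pool.Agent.Lib_helper36.SRC Pool.Agent.Lib_helper36.SRC.RT
  Pool.Agent.Lib_helper35.SRC

/-- quadratic polynomials in `x` in the cone `W ρ`, `ρ ≤ 1` -/
theorem inW_quadR (ρ r0 r1 r2 : ℝ) (h0 : 0 ≤ ρ) (h1 : ρ ≤ 1) (a0 : 0 ≤ r0) (a1 : 0 ≤ r1)
    (a2 : 0 ≤ r2) (b1 : ρ * r0 ≤ r1) (b2 : ρ * r0 ≤ (1 - ρ) * r1 + r2) :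
    InW ρ (C r0 + C r1 * X + C r2 * X ^ 2) := by
  have hS : S (C r0 * xk 0 ρ + C r1 * xk 1 ρ + C r2 * xk 2 ρ)
      = (C r0 + C r1 * X + C r2 * X ^ 2) * Ex (-ρ) := by
    rw [map_add, map_add, map_mul, map_mul, map_mul, S_C, S_C, S_C, S_xk, S_xk, S_xk]
    ring
  rw [inW_iff_NN hS]
  intro n
  match n with
  | 0 =>
    rw [map_add, map_add, coeff_C_mul, coeff_C_mul, coeff_C_mul, coeff_xk_self,
      coeff_xk_lt 1 0 ρ (by omega), coeff_xk_lt 2 0 ρ (by omega)]
    linarith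
  | 1 =>
    have e0 := coeff_xk 0 0 ρ
    norm_num at e0
    rw [map_add, map_add, coeff_C_mul, coeff_C_mul, coeff_C_mul, coeff_xk_self, e0,
      coeff_xk_lt 2 1 ρ (by omega)]
    linarith
  | 2 =>
    have e0 := coeff_xk 0 1 ρ
    have e1 := coeff_xk 1 0 ρ
    norm_num at e0 e1
    rw [map_add, map_add, coeff_C_mul, coeff_C_mul, coeff_C_mul, coeff_xk_self, e0, e1]
    have : 0 ≤ ρ * r0 * (ρ / 2) := by positivity
    nlinarith
  | n + 3 =>
    have e0 := coeff_xk 0 (n + 2) ρ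
    have e1 := coeff_xk 1 (n + 1) ρ
    have e2 := coeff_xk 2 n ρ
    have k0 : 0 + (n + 2 + 1) = n + 3 := by ring
    have k1 : 1 + (n + 1 + 1) = n + 3 := by ring
    have k2 : 2 + (n + 1) = n + 3 := by ring
    rw [k0] at e0
    rw [k1] at e1
    rw [k2] at e2
    rw [map_add, map_add, coeff_C_mul, coeff_C_mul, coeff_C_mul, e0, e1, e2]
    have f0 : (0 : ℝ) < (n.factorial : ℝ) := by exact_mod_cast n.factorial_pos
    have g3 : ((n + 2 + 1).factorial : ℝ) = ((n : ℝ) + 3) * ((n + 1 + 1).factorial : ℝ) := by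
      rw [Nat.factorial_succ (n + 2)]; push_cast; ring
    have g2 : ((n + 1 + 1).factorial : ℝ) = ((n : ℝ) + 2) * ((n + 1).factorial : ℝ) := by
      rw [Nat.factorial_succ (n + 1)]; push_cast; ring
    have f1 : (0 : ℝ) < ((n + 1).factorial : ℝ) := by exact_mod_cast (n + 1).factorial_pos
    have hn : (0 : ℝ) ≤ n := Nat.cast_nonneg n
    set N : ℝ := (n : ℝ) + 3 - ρ with hN
    have hNpos : 0 < N := by rw [hN]; linarith
    have c0 : ((0 : ℕ) : ℝ) + ((n + 2 : ℕ) + 1) - ρ = N := by rw [hN]; push_cast; ring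
    have c1 : ((1 : ℕ) : ℝ) + ((n + 1 : ℕ) + 1) - ρ = N := by rw [hN]; push_cast; ring
    have c2 : ((2 : ℕ) : ℝ) + ((n : ℕ) + 1) - ρ = N := by rw [hN]; push_cast; ring
    rw [c0, c1, c2, g3, g2]
    have key : r0 * ((((0 : ℕ) : ℝ) - ρ) * N ^ (n + 2) / (((n : ℝ) + 3) * (((n : ℝ) + 2) *
        ((n + 1).factorial : ℝ)))) + r1 * ((((1 : ℕ) : ℝ) - ρ) * N ^ (n + 1) / (((n : ℝ) + 2) *
        ((n + 1).factorial : ℝ))) + r2 * ((((2 : ℕ) : ℝ) - ρ) * N ^ n / ((n + 1).factorial : ℝ))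
        = N ^ n / (((n : ℝ) + 3) * (((n : ℝ) + 2) * ((n + 1).factorial : ℝ))) *
          (-(ρ * r0) * N ^ 2 + (1 - ρ) * r1 * (N * ((n : ℝ) + 3))
            + (2 - ρ) * r2 * (((n : ℝ) + 3) * ((n : ℝ) + 2))) := by
      have h3 : (n : ℝ) + 3 ≠ 0 := by positivity
      have h2 : (n : ℝ) + 2 ≠ 0 := by positivity
      rw [pow_add, pow_add]
      push_cast
      field_simp
      ring
    rw [key]
    apply mul_nonneg (by positivity)
    have q1 : (1 - ρ) * r1 * N ^ 2 ≤ (1 - ρ) * r1 * (N * ((n : ℝ) + 3)) := by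
      apply mul_le_mul_of_nonneg_left _ (mul_nonneg (by linarith) a1)
      rw [pow_two]
      apply mul_le_mul_of_nonneg_left _ hNpos.le
      rw [hN]; linarith
    have q2 : r2 * N ^ 2 ≤ (2 - ρ) * r2 * (((n : ℝ) + 3) * ((n : ℝ) + 2)) := by
      have : N ^ 2 ≤ (2 - ρ) * (((n : ℝ) + 3) * ((n : ℝ) + 2)) := by
        have e : (2 - ρ) * (((n : ℝ) + 3) * ((n : ℝ) + 2)) - N ^ 2
            = (1 - ρ) * ((n + 3) * (n + 1)) + ρ * N := by rw [hN]; ring
        have : 0 ≤ (1 - ρ) * (((n : ℝ) + 3) * (n + 1)) := mul_nonneg (by linarith) (by positivity)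
        have : 0 ≤ ρ * N := mul_nonneg h0 hNpos.le
        linarith
      calc r2 * N ^ 2 ≤ r2 * ((2 - ρ) * (((n : ℝ) + 3) * ((n : ℝ) + 2))) :=
            mul_le_mul_of_nonneg_left this a2
        _ = _ := by ring
    have q3 : ρ * r0 * N ^ 2 ≤ ((1 - ρ) * r1 + r2) * N ^ 2 :=
      mul_le_mul_of_nonneg_right b2 (by positivity)
    nlinarith

/-- two leaves, the first one general, `w` up to `1/4` -/
theorem star_two (s r w : ℝ) (hs0 : 0 ≤ s) (hs1 : s ≤ 1 / 2) (hr0 : 0 ≤ r) (hr1 : r ≤ 1 / 2)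
    (hw0 : 0 ≤ w) (hw : w ≤ 1 / 4) :
    InW ([s, r].sum + w) (prodC [s, r] + C w * (X - 1)) := by
  by_cases hν : [s, r].sum + w ≤ 1
  · have := small_Q [s, r] w 0 (by
      intro a ha
      simp only [List.mem_cons, List.not_mem_nil, or_false] at ha
      rcases ha with rfl | rfl <;> constructor <;> linarith) hw0 (le_refl _) hν (Or.inl rfl) (by
      simp only [List.map_cons, List.map_nil, List.prod_cons, List.prod_nil]
      nlinarith)
    refine this.congr rfl ?_
    simp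
  · push Not at hν
    simp only [List.sum_cons, List.sum_nil, add_zero] at hν ⊢
    have := quad (s + r + w) (s * r) (by nlinarith) (by nlinarith [sq_nonneg (s - r), mul_nonneg hs0 hr0]) (by
        nlinarith [sq_nonneg (s - r), mul_nonneg hs0 hr0, mul_nonneg (mul_nonneg hs0 hr0) (show 0 ≤ 2 - (s + r + w) by linarith)])
      (by
        have hx : 0 ≤ 1 / 2 - s := by linarith
        have hy : 0 ≤ 1 / 2 - r := by linarith
        have hz : 0 ≤ 1 / 4 - w := by linarith
        have ht : 0 ≤ s + r + w - 1 := by linarith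
        have h14 : 1 / 4 ≤ s := by linarith
        have h14' : 1 / 4 ≤ r := by linarith
        nlinarith [mul_nonneg hx hy, mul_nonneg hx hz, mul_nonneg hy hz, mul_nonneg hx ht,
          mul_nonneg hy ht, mul_nonneg hz ht, mul_nonneg (mul_nonneg hx hy) ht,
          mul_nonneg (mul_nonneg hx hy) hz, mul_nonneg (mul_nonneg hz ht) hx,
          mul_nonneg (mul_nonneg hz ht) hy, mul_nonneg ht ht])
    refine this.congr (by ring) ?_
    rw [prodC_cons, prodC_cons, prodC_nil, map_add, map_add, map_mul]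
    ring

/-- (R1) for two leaves -/
theorem R1_two (s δ : ℝ) (hs0 : 0 ≤ s) (hs1 : s ≤ 1 / 2) (hδ0 : 0 ≤ δ) (hδ : δ ≤ 1 / 2) :
    InW ([s, (1 - δ) / 2].sum + (1 + δ) / 4) (prodC [s, (1 - δ) / 2] + C ((1 + δ) / 4) * (X - 1)) := by
  by_cases hν : [s, (1 - δ) / 2].sum + (1 + δ) / 4 ≤ 1
  · have := small_Q [s, (1 - δ) / 2] ((1 + δ) / 4) 0 (by
      intro a ha
      simp only [List.mem_cons, List.not_mem_nil, or_false] at ha
      rcases ha with rfl | rfl <;> constructor <;> linarith) (by linarith) (le_refl _) hν (Or.inl rfl) (by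
      simp only [List.map_cons, List.map_nil, List.prod_cons, List.prod_nil]
      nlinarith)
    refine this.congr rfl ?_
    simp
  · push Not at hν
    simp only [List.sum_cons, List.sum_nil, add_zero] at hν ⊢
    have hx : 0 ≤ 1 / 2 - s := by linarith
    have hy : 0 ≤ 1 / 2 - δ := by linarith
    have ht : 0 ≤ s - 1 / 4 - δ / 4 := by linarith
    have := quad (s + ((1 - δ) / 2) + ((1 + δ) / 4)) (s * ((1 - δ) / 2)) (by nlinarith)
      (by nlinarith [sq_nonneg (s - (1 - δ) / 2)])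
      (by nlinarith [sq_nonneg (s - (1 - δ) / 2), mul_nonneg hs0 hδ0, mul_nonneg hx hδ0, mul_nonneg hs0 hy])
      (by
        nlinarith [mul_nonneg hx hδ0, mul_nonneg hx hy, mul_nonneg ht hx, mul_nonneg ht hy,
          mul_nonneg ht hδ0, mul_nonneg hδ0 hy, mul_nonneg (mul_nonneg ht hx) hδ0,
          mul_nonneg (mul_nonneg ht hx) hy, mul_nonneg (mul_nonneg ht ht) hx,
          mul_nonneg (mul_nonneg ht ht) hδ0, mul_nonneg (mul_nonneg hδ0 hδ0) ht,
          mul_nonneg (mul_nonneg hδ0 hδ0) hx])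
    refine this.congr (by ring) ?_
    rw [prodC_cons, prodC_cons, prodC_nil]
    have h2 : C ((1 - δ) / 2) = (C (1/2) * (1 - C δ) : ℝ⟦X⟧) := by
      rw [← map_one (C (R := ℝ)), ← map_sub, ← map_mul]; congr 1; ring
    have h4 : C ((1 + δ) / 4) = (C (1/2) * C (1/2) * (1 + C δ) : ℝ⟦X⟧) := by
      rw [← map_one (C (R := ℝ)), ← map_add, ← map_mul, ← map_mul]; congr 1; ring
    rw [map_add, map_add, map_mul]
    ring

/-- three leaves -/
theorem star_three (a b c w : ℝ) (ha : 0 ≤ a) (ha1 : a ≤ 1) (hb : 0 ≤ b) (hb1 : b ≤ 1) (hc : 0 ≤ c)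
    (hc1 : c ≤ 1) (hw : 0 ≤ w) (hw1 : w ≤ (1 - a) * (1 - b) * (1 - c))
    (hν1 : 1 ≤ a + b + c + w) (hν2 : a + b + c + w ≤ 2)
    (h1 : (a + b + c + w - 1) * (a ^ 2 * (1 - b) * (1 - c) + b ^ 2 * (1 - a) * (1 - c)
        + c ^ 2 * (1 - a) * (1 - b) + w * (1 - (1 - a) * (1 - b) * (1 - c)) + (a + b + c + w) * w)
      ≤ a ^ 2 * (b * (1 - c) + c * (1 - b)) + b ^ 2 * (a * (1 - c) + c * (1 - a))
        + c ^ 2 * (a * (1 - b) + b * (1 - a)) + w * (a * b + b * c + c * a - 2 * (a * b * c)))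
    (h2 : (a + b + c + w - 1) * (a ^ 2 * (1 - b) * (1 - c) + b ^ 2 * (1 - a) * (1 - c)
        + c ^ 2 * (1 - a) * (1 - b) + w * (1 - (1 - a) * (1 - b) * (1 - c)) + (a + b + c + w) * w)
      ≤ (1 - (a + b + c + w - 1)) * (a ^ 2 * (b * (1 - c) + c * (1 - b))
        + b ^ 2 * (a * (1 - c) + c * (1 - a))
        + c ^ 2 * (a * (1 - b) + b * (1 - a)) + w * (a * b + b * c + c * a - 2 * (a * b * c)))
        + (a * b * c * (a + b + c + w))) :
    InW ([a, b, c].sum + w) (prodC [a, b, c] + C w * (X - 1)) := by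
  have hR := inW_quadR (a + b + c + w - 1)
    (a ^ 2 * (1 - b) * (1 - c) + b ^ 2 * (1 - a) * (1 - c)
        + c ^ 2 * (1 - a) * (1 - b) + w * (1 - (1 - a) * (1 - b) * (1 - c)) + (a + b + c + w) * w)
    (a ^ 2 * (b * (1 - c) + c * (1 - b)) + b ^ 2 * (a * (1 - c) + c * (1 - a))
        + c ^ 2 * (a * (1 - b) + b * (1 - a)) + w * (a * b + b * c + c * a - 2 * (a * b * c)))
    (a * b * c * (a + b + c + w)) (by linarith) (by linarith)
    (by
      have e1 : 0 ≤ 1 - a := by linarith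
      have e2 : 0 ≤ 1 - b := by linarith
      have e3 : 0 ≤ 1 - c := by linarith
      have e4 : (1 - a) * (1 - b) * (1 - c) ≤ 1 := by
        have : (1 - a) * (1 - b) ≤ 1 := by nlinarith [mul_nonneg ha hb, mul_nonneg e1 hb]
        have h0 : 0 ≤ (1 - a) * (1 - b) := mul_nonneg e1 e2
        nlinarith
      have e5 : 0 ≤ 1 - (1 - a) * (1 - b) * (1 - c) := by linarith
      positivity)
    (by
      have e1 : 0 ≤ 1 - a := by linarith
      have e2 : 0 ≤ 1 - b := by linarith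
      have e3 : 0 ≤ 1 - c := by linarith
      have e4 : 0 ≤ a * b + b * c + c * a - 2 * (a * b * c) := by
        have : a * b * (1 - c) + b * c * (1 - a) + c * a = a * b + b * c + c * a - 2 * (a * b * c) := by
          ring
        rw [← this]; positivity
      positivity)
    (by positivity) h1 h2
  apply InW.of_deriv (R := C (a ^ 2 * (1 - b) * (1 - c) + b ^ 2 * (1 - a) * (1 - c)
        + c ^ 2 * (1 - a) * (1 - b) + w * (1 - (1 - a) * (1 - b) * (1 - c)) + (a + b + c + w) * w)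
      + C (a ^ 2 * (b * (1 - c) + c * (1 - b)) + b ^ 2 * (a * (1 - c) + c * (1 - a))
        + c ^ 2 * (a * (1 - b) + b * (1 - a)) + w * (a * b + b * c + c * a - 2 * (a * b * c))) * X
      + C (a * b * c * (a + b + c + w)) * X ^ 2)
  · rw [map_add, constCoeff_prodC]
    simp
    linarith
  · refine hR.congr ?_ rfl
    simp only [List.sum_cons, List.sum_nil, add_zero]; ring
  · have hd := deriv_star [a, b, c] w 0
    simp only [map_zero, zero_mul, add_zero, mul_zero, sub_zero] at hd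
    rw [hd]
    congr 1
    simp only [sqC, quC, prodC_cons, prodC_nil, List.sum_cons, List.sum_nil]
    simp only [map_add, map_sub, map_mul, map_pow, map_one, map_ofNat, map_zero]
    ring

/-- (R1) for three leaves -/
theorem R1_three (a b δ : ℝ) (ha : a = 1 / 2 ∨ a = 1 / 4 ∨ a = 1 / 8)
    (hb : b = 1 / 2 ∨ b = 1 / 4 ∨ b = 1 / 8) (hδ0 : 0 ≤ δ) (hδ : δ ≤ 1 / 6) :
    InW ([a, b, (1 - δ) / 2].sum + (1 + δ) / 8)
      (prodC [a, b, (1 - δ) / 2] + C ((1 + δ) / 8) * (X - 1)) := by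
  by_cases hν : [a, b, (1 - δ) / 2].sum + (1 + δ) / 8 ≤ 1
  · have := small_Q [a, b, (1 - δ) / 2] ((1 + δ) / 8) 0 (by
      intro r hr
      simp only [List.mem_cons, List.not_mem_nil, or_false] at hr
      rcases hr with rfl | rfl | rfl
      · rcases ha with rfl | rfl | rfl <;> norm_num
      · rcases hb with rfl | rfl | rfl <;> norm_num
      · constructor <;> linarith) (by linarith) (le_refl _) hν (Or.inl rfl) (by
      simp only [List.map_cons, List.map_nil, List.prod_cons, List.prod_nil]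
      rcases ha with rfl | rfl | rfl <;> rcases hb with rfl | rfl | rfl <;> nlinarith)
    refine this.congr rfl ?_
    simp
  · push Not at hν
    simp only [List.sum_cons, List.sum_nil, add_zero] at hν
    have hy : 0 ≤ 1 / 6 - δ := by linarith
    have hd2 : 0 ≤ δ * (1 / 6 - δ) := mul_nonneg hδ0 hy
    have hd3 : 0 ≤ δ ^ 2 * (1 / 6 - δ) := mul_nonneg (sq_nonneg δ) hy
    have hd4 : 0 ≤ δ ^ 3 * (1 / 6 - δ) := mul_nonneg (by positivity) hy
    have hd5 : 0 ≤ δ ^ 3 := by positivity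
    have hd6 : 0 ≤ δ ^ 4 := by positivity
    apply star_three
    · rcases ha with rfl | rfl | rfl <;> norm_num
    · rcases ha with rfl | rfl | rfl <;> norm_num
    · rcases hb with rfl | rfl | rfl <;> norm_num
    · rcases hb with rfl | rfl | rfl <;> norm_num
    · linarith
    · linarith
    · linarith
    · rcases ha with rfl | rfl | rfl <;> rcases hb with rfl | rfl | rfl <;> nlinarith
    · linarith
    · rcases ha with rfl | rfl | rfl <;> rcases hb with rfl | rfl | rfl <;> linarith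
    · rcases ha with rfl | rfl | rfl <;> rcases hb with rfl | rfl | rfl <;> nlinarith
    · rcases ha with rfl | rfl | rfl <;> rcases hb with rfl | rfl | rfl <;> nlinarith

end Pool.Agent.Lib_helper79.SRC
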