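import Pool.Agent.Lib_helper79.SRC.CaseIFinal
import Pool.Agent.Lib_helper79.SRC.SmallL

set_option autoImplicit false

/-! # Case I and the star base from the star lemma -/

namespace Pool.Agent.Lib_helper79.SRC

open PowerSeries Pool.Agent.Lib_helper36.SRC Pool.Agent.Lib_helper36.SRC.RT
  Pool.Agent.Lib_helper35.SRC

/-- star lemma, at least three real leaves -/
def HA : Prop := ∀ (L : List ℝ) (w : ℝ), 3 ≤ L.length → (∀ s ∈ L, 0 ≤ s ∧ s ≤ 1 / 2) → 0 ≤ w →
  w ≤ (1 / 2) ^ L.length → InW (L.sum + w) (prodC L + C w * (X - 1))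

/-- star lemma with a slightly larger centre, at least four real leaves -/
def HR1 : Prop := ∀ (L : List ℝ) (w δ : ℝ), 4 ≤ L.length → (∀ s ∈ L, 0 ≤ s ∧ s ≤ 1 / 2) →
  0 ≤ δ → δ * (1 - 2 * (1 / 2) ^ L.length) ≤ (1 / 2) ^ L.length → 0 ≤ w →
  w ≤ (1 / 2) ^ L.length * (1 + δ) → w ≤ (L.map (fun s => 1 - s)).prod →
  InW (L.sum + w) (prodC L + C w * (X - 1))

/-- star lemma with thin leaves and a larger centre -/
def HR2 : Prop := ∀ (L : List ℝ) (w : ℝ), 3 ≤ L.length → (∀ s ∈ L, 0 ≤ s ∧ s ≤ 1 / 4) → 0 ≤ w →
  w ≤ 3 / 2 * (1 / 2) ^ L.length → InW (L.sum + w) (prodC L + C w * (X - 1))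

theorem star_all (hA : HA) (L : List ℝ) (w : ℝ) (hne : L ≠ []) (hL : ∀ s ∈ L, 0 ≤ s ∧ s ≤ 1 / 2)
    (hw0 : 0 ≤ w) (hw : w ≤ (1 / 2) ^ L.length) :
    InW (L.sum + w) (prodC L + C w * (X - 1)) := by
  match L, hne, hL, hw with
  | [s], _, hL, hw =>
    obtain ⟨h0, h1⟩ := hL s (by simp)
    simp only [List.length_cons, List.length_nil] at hw
    norm_num at hw
    have := small_Q [s] w 0 (by
      intro a ha
      simp only [List.mem_cons, List.not_mem_nil, or_false] at ha
      subst ha; constructor <;> linarith) hw0 (le_refl _)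
      (by simp only [List.sum_cons, List.sum_nil]; linarith) (Or.inl rfl) (by
      simp only [List.map_cons, List.map_nil, List.prod_cons, List.prod_nil]
      linarith)
    refine this.congr rfl ?_
    simp
  | [s, r], _, hL, hw =>
    obtain ⟨h0, h1⟩ := hL s (by simp)
    obtain ⟨h0', h1'⟩ := hL r (by simp)
    simp only [List.length_cons, List.length_nil] at hw
    norm_num at hw
    exact star_two s r w h0 h1 h0' h1' hw0 hw
  | s :: r :: q :: L, _, hL, hw =>
    exact hA _ w (by simp) hL hw0 hw

theorem starBase_of_HA (hA : HA) : StarBase := by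
  intro n hn c hs hc
  obtain ⟨g, cs, rfl⟩ := exists_node c
  rw [IsStar, kids_node] at hc
  have hne : cs ≠ [] := hc.1
  have hall : ∀ d ∈ cs, IsLeaf d := hc.2
  have hle := two_t_le g cs
  have key := star_all hA (cs.map t) (2 * t (node g cs)) (by simpa using hne)
    (by
      intro s hs
      obtain ⟨d, hd, rfl⟩ := List.mem_map.1 hs
      exact ⟨(t_pos d).le, t_le_half d⟩)
    (by have := t_pos (node g cs); linarith) (by rw [List.length_map]; exact hle)
  unfold Good
  refine key.congr ?_ ?_
  · unfold α
    rw [β_star g cs hall]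
  · unfold A
    rw [N_star g cs hall, B_star g cs hall]
    unfold prodC
    rw [List.map_map, mul_one]
    rfl

lemma exists_max (cs : List RT) (h : cs ≠ []) : ∃ l ∈ cs, ∀ d ∈ cs, t d ≤ t l := by
  induction cs with
  | nil => exact absurd rfl h
  | cons c cs ih =>
    rcases eq_or_ne cs [] with rfl | hne
    · exact ⟨c, by simp, fun d hd => by
        simp only [List.mem_cons, List.not_mem_nil, or_false] at hd; rw [hd]⟩
    · obtain ⟨l, hl, hmax⟩ := ih hne
      rcases le_total (t c) (t l) with h1 | h1
      · exact ⟨l, by simp [hl], fun d hd => by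
          rcases List.mem_cons.1 hd with rfl | hd
          · exact h1
          · exact hmax d hd⟩
      · exact ⟨c, by simp, fun d hd => by
          rcases List.mem_cons.1 hd with rfl | hd
          · exact le_refl _
          · exact (hmax d hd).trans h1⟩

lemma dyadic_le {a : ℝ} {k : ℕ} (ha : a = (1 / 2) ^ (k + 1)) : 0 < a ∧ a ≤ 1 / 2 := by
  subst ha
  refine ⟨by positivity, ?_⟩
  calc ((1 : ℝ) / 2) ^ (k + 1) ≤ (1 / 2) ^ 1 :=
        pow_le_pow_of_le_one (by norm_num) (by norm_num) (by omega)
    _ = 1 / 2 := by norm_num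

lemma dyadic_cases {a : ℝ} (ha : ∃ k : ℕ, a = (1 / 2) ^ (k + 1)) (h : 1 / 8 ≤ a) :
    a = 1 / 2 ∨ a = 1 / 4 ∨ a = 1 / 8 := by
  obtain ⟨k, rfl⟩ := ha
  match k with
  | 0 => left; norm_num
  | 1 => right; left; norm_num
  | 2 => right; right; norm_num
  | k + 3 =>
    exfalso
    have : ((1 : ℝ) / 2) ^ (k + 3 + 1) ≤ (1 / 2) ^ 4 :=
      pow_le_pow_of_le_one (by norm_num) (by norm_num) (by omega)
    norm_num at this h
    linarith

lemma dyadic_half_or {a : ℝ} (ha : ∃ k : ℕ, a = (1 / 2) ^ (k + 1)) : a = 1 / 2 ∨ a ≤ 1 / 4 := by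
  obtain ⟨k, rfl⟩ := ha
  match k with
  | 0 => left; norm_num
  | k + 1 =>
    right
    calc ((1 : ℝ) / 2) ^ (k + 1 + 1) ≤ (1 / 2) ^ 2 :=
          pow_le_pow_of_le_one (by norm_num) (by norm_num) (by omega)
      _ = 1 / 4 := by norm_num

/-- the star with a moved leaf -/
theorem moved_star (hA : HA) (h1 : HR1) (h2 : HR2) (as : List ℝ) (a p D : ℝ) (g : ℕ)
    (has : ∀ s ∈ as, ∃ k : ℕ, s = (1 / 2) ^ (k + 1)) (ha : ∃ k : ℕ, a = (1 / 2) ^ (k + 1))
    (hmax : ∀ s ∈ as, s ≤ a) (hp : p = (1 / 2) ^ (g + as.length + 2)) (h4 : 4 * p ≤ a)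
    (has2 : ∀ s ∈ as, 2 * p ≤ s) (hD : 0 ≤ D) (hDp : D ≤ p) :
    InW (as.sum + a * (1 - D / (a - 2 * p)) + 2 * p * (1 + D / (a - 2 * p)))
      ((1 + C (a * (1 - D / (a - 2 * p))) * (X - 1)) * prodC as
        + C (2 * p * (1 + D / (a - 2 * p))) * (X - 1)) := by
  have hp0 : 0 < p := by rw [hp]; positivity
  have has0 : ∀ s ∈ as, 0 ≤ s ∧ s ≤ 1 / 2 := by
    intro s hs
    obtain ⟨k, hk⟩ := has s hs
    have := dyadic_le hk
    exact ⟨this.1.le, this.2⟩
  obtain ⟨k, hk⟩ := ha
  obtain ⟨ha0, ha1⟩ := dyadic_le hk
  have hd : 0 < a - 2 * p := by linarith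
  set δ := D / (a - 2 * p) with hδ
  have hδ0 : 0 ≤ δ := div_nonneg hD hd.le
  have hδm : δ * (a - 2 * p) = D := by rw [hδ]; field_simp
  have hδ1 : δ ≤ 1 / 2 := by
    rw [hδ, div_le_iff₀ hd]; linarith
  have e1 : prodC (a * (1 - δ) :: as) = (1 + C (a * (1 - δ)) * (X - 1)) * prodC as := prodC_cons _ _
  have e2 : (a * (1 - δ) :: as).sum = as.sum + a * (1 - δ) := by rw [List.sum_cons]; ring
  have hlist : ∀ s ∈ (a * (1 - δ) :: as), 0 ≤ s ∧ s ≤ 1 / 2 := by
    intro s hs
    rcases List.mem_cons.1 hs with rfl | hs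
    · constructor
      · apply mul_nonneg ha0.le; linarith
      · nlinarith
    · exact has0 s hs
  match g, hp with
  | g + 1, hp =>
    -- the thin case
    have key := star_all hA (a * (1 - δ) :: as) (2 * p * (1 + δ)) (by simp) hlist
      (by positivity)
      (by
        rw [List.length_cons]
        have : p ≤ (1 / 2) ^ (as.length + 1) * (1 / 4) := by
          rw [hp]
          calc ((1 : ℝ) / 2) ^ (g + 1 + as.length + 2) ≤ (1 / 2) ^ (as.length + 1 + 2) :=
                pow_le_pow_of_le_one (by norm_num) (by norm_num) (by omega)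
            _ = (1 / 2) ^ (as.length + 1) * (1 / 4) := by rw [pow_add]; norm_num
        have h5 : 0 < ((1 : ℝ) / 2) ^ (as.length + 1) := by positivity
        nlinarith)
    rw [e1, e2] at key
    exact key
  | 0, hp =>
    rw [Nat.zero_add] at hp
    rcases dyadic_half_or ⟨k, hk⟩ with hhalf | hquart
    · -- `a = 1/2`
      match as, has, hmax, hp, has2, has0, e1, e2, hlist with
      | [], _, _, hp, _, _, _, _, _ =>
        exfalso
        simp only [List.length_nil] at hp
        norm_num at hp
        rw [hp, hhalf] at h4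
        norm_num at h4
      | [s], has, _, hp, _, has0, _, _, _ =>
        simp only [List.length_cons, List.length_nil] at hp
        norm_num at hp
        have key := R1_two s δ (has0 s (by simp)).1 (has0 s (by simp)).2 hδ0 hδ1
        refine key.congr ?_ ?_
        · rw [hhalf, hp]; simp only [List.sum_cons, List.sum_nil]; ring
        · have c1 : a * (1 - δ) = (1 - δ) / 2 := by rw [hhalf]; ring
          have c2 : 2 * p * (1 + δ) = (1 + δ) / 4 := by rw [hp]; ring
          rw [c1, c2, prodC_cons, prodC_cons, prodC_cons, prodC_nil]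
          ring
      | [s, r], has, _, hp, has2, _, _, _, _ =>
        simp only [List.length_cons, List.length_nil] at hp
        norm_num at hp
        have hs : 1 / 8 ≤ s := by have := has2 s (by simp); rw [hp] at this; linarith
        have hr : 1 / 8 ≤ r := by have := has2 r (by simp); rw [hp] at this; linarith
        have key := R1_three s r δ (dyadic_cases (has s (by simp)) hs)
          (dyadic_cases (has r (by simp)) hr) hδ0 (by
            rw [hhalf, hp] at hδm
            rw [hp] at hDp
            nlinarith)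
        refine key.congr ?_ ?_
        · rw [hhalf, hp]; simp only [List.sum_cons, List.sum_nil]; ring
        · have c1 : a * (1 - δ) = (1 - δ) / 2 := by rw [hhalf]; ring
          have c2 : 2 * p * (1 + δ) = (1 + δ) / 8 := by rw [hp]; ring
          rw [c1, c2]
          simp only [prodC_cons, prodC_nil]
          ring
      | s :: r :: q :: as, _, _, hp, _, hasx, e1, e2, hlist =>
        have key := h1 (a * (1 - δ) :: s :: r :: q :: as) (2 * p * (1 + δ)) δ (by simp) hlist hδ0
          (by
            rw [List.length_cons]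
            have hp2 : ((1 : ℝ) / 2) ^ ((s :: r :: q :: as).length + 1) = 2 * p := by
              rw [hp, pow_succ _ ((s :: r :: q :: as).length + 1)]; ring
            rw [hp2]
            rw [hhalf] at hδm
            nlinarith)
          (by positivity)
          (by
            rw [List.length_cons]
            have hp2 : ((1 : ℝ) / 2) ^ ((s :: r :: q :: as).length + 1) = 2 * p := by
              rw [hp, pow_succ _ ((s :: r :: q :: as).length + 1)]; ring
            rw [hp2])
          (by
            rw [List.map_cons, List.prod_cons]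
            have hq : ((1 : ℝ) / 2) ^ (s :: r :: q :: as).length ≤
                ((s :: r :: q :: as).map (fun s => 1 - s)).prod := by
              rw [← pi1_eq]
              exact pow_le_pi1 _ hasx
            have hp2 : ((1 : ℝ) / 2) ^ (s :: r :: q :: as).length = 4 * p := by
              rw [hp, pow_add]; ring
            rw [hp2] at hq
            rw [hhalf]
            nlinarith)
        rw [e1, e2] at key
        exact key
    · -- all leaves are at most `1/4`
      have hlen : 3 ≤ (a * (1 - δ) :: as).length := by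
        rw [List.length_cons]
        by_contra hc
        push Not at hc
        have : as.length ≤ 1 := by omega
        have : (1 / 2 : ℝ) ^ 3 ≤ p := by
          rw [hp]
          exact pow_le_pow_of_le_one (by norm_num) (by norm_num) (by omega)
        norm_num at this
        linarith
      have key := h2 (a * (1 - δ) :: as) (2 * p * (1 + δ)) hlen
        (by
          intro s hs
          rcases List.mem_cons.1 hs with rfl | hs
          · constructor
            · apply mul_nonneg ha0.le; linarith
            · nlinarith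
          · exact ⟨(has0 s hs).1, (hmax s hs).trans hquart⟩)
        (by positivity)
        (by
          rw [List.length_cons]
          have hp2 : ((1 : ℝ) / 2) ^ (as.length + 1) = 2 * p := by
            rw [hp, pow_succ _ (as.length + 1)]; ring
          rw [hp2]
          nlinarith)
      rw [e1, e2] at key
      exact key

theorem ZZ_of_star (hA : HA) (h1 : HR1) (h2 : HR2) (as : List ℝ) (a p D : ℝ) (g : ℕ)
    (has : ∀ s ∈ as, ∃ k : ℕ, s = (1 / 2) ^ (k + 1)) (ha : ∃ k : ℕ, a = (1 / 2) ^ (k + 1))
    (hmax : ∀ s ∈ as, s ≤ a) (hp : p = (1 / 2) ^ (g + as.length + 2)) (h4 : 4 * p ≤ a)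
    (has2 : ∀ s ∈ as, 2 * p ≤ s) (hD : 0 ≤ D) (hDp : D ≤ p) :
    InW (as.sum + a + 2 * p - D) (ZZ a p D (prodC as)) := by
  have hp0 : 0 < p := by rw [hp]; positivity
  have ha1 : a ≤ 1 / 2 := by obtain ⟨k, hk⟩ := ha; exact (dyadic_le hk).2
  rw [ZZ_eq a p D (by linarith) hD hp0]
  have d1 : 0 < a - 2 * p := by linarith
  have d2 : 0 < a - 2 * p + D := by linarith
  have d3 : 0 < a - p + D := by linarith
  have hsum : a * (1 - D / (a - 2 * p)) + 2 * p * (1 + D / (a - 2 * p)) = a + 2 * p - D := by
    have : D / (a - 2 * p) * (a - 2 * p) = D := by field_simp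
    linear_combination -this
  apply InW.add
  · apply InW.smul (by positivity)
    refine (moved_star hA h1 h2 as a p D g has ha hmax hp h4 has2 hD hDp).congr ?_ rfl
    linear_combination hsum
  · apply InW.smul (by positivity)
    refine (((inW_prodC as (fun s hs => by
        obtain ⟨k, hk⟩ := has s hs
        linarith [(dyadic_le hk).2])).mul
      (InW.coin (s := 2 * a) (by linarith))).mul
      (InW.coin (s := -(a - 2 * p + D)) (by linarith))).congr ?_ rfl
    ring

theorem caseI_of_star (hA : HA) (h1 : HR1) (h2 : HR2) : CaseI := by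
  intro n hn c R hs hc hall ht
  obtain ⟨g, cs, rfl⟩ := exists_node c
  rw [IsStar, kids_node] at hc
  simp only [kids_node] at hall
  have hp0 : 0 < t (node g cs) := t_pos _
  have hR0 : 0 < t R := t_pos _
  obtain ⟨l, hl, hmax⟩ := exists_max cs hc.1
  by_cases hl4 : 4 * t (node g cs) ≤ t l
  · obtain ⟨l1, l2, rfl⟩ := List.append_of_mem hl
    have hp : (l1 ++ l :: l2).Perm (l :: (l1 ++ l2)) := List.perm_middle
    rw [goodJ_perm g hp]
    rw [t_perm g hp] at hl4 ht hall hp0
    have hleaf : IsLeaf l := hc.2 l (by simp)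
    have hls : ∀ d ∈ l1 ++ l2, IsLeaf d := fun d hd => hc.2 d (by
      simp only [List.mem_append, List.mem_cons] at hd ⊢; tauto)
    have hs' : size (node g (l :: (l1 ++ l2))) + size R ≤ n + 1 := by
      rw [size_node, ← sizeL_perm hp, ← size_node g]; exact hs
    apply goodJ_of_Z hn g l (l1 ++ l2) R hleaf hls hs' (by linarith) (by linarith)
    have key := ZZ_of_star hA h1 h2 ((l1 ++ l2).map t) (t l) (t (node g (l :: (l1 ++ l2))))
      (t (node g (l :: (l1 ++ l2))) - t R) g
      (by
        intro s hs
        obtain ⟨d, hd, rfl⟩ := List.mem_map.1 hs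
        exact ⟨_, leaf_weight (hls d hd)⟩)
      ⟨_, leaf_weight hleaf⟩
      (by
        intro s hs
        obtain ⟨d, hd, rfl⟩ := List.mem_map.1 hs
        apply hmax
        simp only [List.mem_append, List.mem_cons] at hd ⊢; tauto)
      (by
        rw [List.length_map]
        unfold t
        rw [hh_node, kids_node, List.length_cons]
        congr 1)
      hl4
      (by
        intro s hs
        obtain ⟨d, hd, rfl⟩ := List.mem_map.1 hs
        apply hall
        simp only [List.mem_append, List.mem_cons] at hd ⊢; tauto)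
      (by linarith) (by linarith)
    refine key.congr ?_ ?_
    · rw [β_cons, β_leaf hleaf, β_star g _ hls]; ring
    · rw [B_star g _ hls]
      unfold prodC
      rw [List.map_map]
      rfl
  · push Not at hl4
    have hex : ∀ d ∈ cs, t d < 4 * t (node g cs) := fun d hd => (hmax d hd).trans_lt hl4
    have heq : ∀ d ∈ cs, t d = 2 * t (node g cs) := by
      intro d hd
      have h1 := hall d hd
      have h2 := hex d hd
      -- dyadic weights
      have hd1 : t d = (1 / 2) ^ (d.hh + 1) := leaf_weight (hc.2 d hd)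
      have hd2 : t (node g cs) = (1 / 2) ^ (g + cs.length + 1) := by
        unfold t; rw [hh_node, kids_node]
      rw [hd1, hd2] at h1 h2 ⊢
      generalize g + cs.length = m at h1 h2 ⊢
      generalize d.hh = k at h1 h2 ⊢
      have e : 2 * ((1 : ℝ) / 2) ^ (m + 1) = (1 / 2) ^ m := by rw [pow_succ]; ring
      rw [e] at h1 ⊢
      rcases lt_trichotomy (k + 1) m with h | h | h
      · exfalso
        have e2 : 4 * ((1 : ℝ) / 2) ^ (m + 1) = (1 / 2) ^ (m - 1) := by
          obtain ⟨j, rfl⟩ : ∃ j, m = j + 1 := ⟨m - 1, by omega⟩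
          have : j + 1 - 1 = j := by omega
          rw [this, pow_succ, pow_succ]; ring
        rw [e2] at h2
        have : ((1 : ℝ) / 2) ^ (m - 1) ≤ (1 / 2) ^ (k + 1) :=
          pow_le_pow_of_le_one (by norm_num) (by norm_num) (by omega)
        linarith
      · rw [h]
      · exfalso
        have : ((1 : ℝ) / 2) ^ (k + 1) < (1 / 2) ^ m :=
          pow_lt_pow_right_of_lt_one₀ (by norm_num) (by norm_num) h
        linarith
    obtain ⟨l, ls, rfl⟩ : ∃ l ls, cs = l :: ls := by
      cases cs with
      | nil => exact absurd rfl hc.1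
      | cons l ls => exact ⟨l, ls, rfl⟩
    have hl : IsLeaf l := hc.2 l (by simp)
    have hls : ∀ d ∈ ls, IsLeaf d := fun d hd => hc.2 d (by simp [hd])
    have hlt : t l = 2 * t (node g (l :: ls)) := heq l (by simp)
    apply goodJ_of_Q hn g l ls R hl hls hs (by linarith) (by linarith)
    set p := t (node g (l :: ls)) with hp
    have hrep : ls.map t = List.replicate ls.length (2 * p) := by
      rw [List.eq_replicate_iff]
      refine ⟨List.length_map _, ?_⟩
      intro s hs
      obtain ⟨d, hd, rfl⟩ := List.mem_map.1 hs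
      exact heq d (by simp [hd])
    have hle := two_t_le g (l :: ls)
    rw [List.length_cons, ← hp] at hle
    have key := Q_all_eq ls.length p (t R) hp0 hR0.le (by linarith) hle
    rw [hlt]
    refine key.congr ?_ ?_
    · rw [β_cons, β_leaf hl, β_star g ls hls, hlt, hrep, List.sum_replicate, nsmul_eq_mul]
      ring
    · rw [B_star g ls hls]
      have e : (List.map (fun d => 1 + C (t d) * (X - 1)) ls).prod = prodC (ls.map t) := by
        unfold prodC; rw [List.map_map]; rfl
      rw [e, hrep]

end Pool.Agent.Lib_helper79.SRC
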