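import Pool.Agent.Lib_helper79.SRC.LemF
import Pool.Agent.Lib_helper6.SRC.K7

set_option autoImplicit false

/-! # The recursion `(F)` of case IIIB (helper13) -/

namespace Pool.Agent.Lib_helper79.SRC

open PowerSeries
open Pool.Agent.Lib_helper36.SRC
open Pool.Agent.Lib_helper13.GC6 (kap HD HN HM)

/-- the weight of the centre of an honest star -/
noncomputable def pp (l : ℕ) : ℝ := (1 / 2) ^ (l + 1)

/-- the sum of these weights -/
noncomputable def HP (ls : List ℕ) : ℝ := (ls.map pp).sum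

lemma pp_pos (l : ℕ) : 0 < pp l := by unfold pp; positivity

lemma two_pp (l : ℕ) : 2 * pp l = (1 / 2) ^ l := by unfold pp; rw [pow_succ]; ring

lemma HP_nil : HP [] = 0 := by simp [HP]
lemma HP_cons (l : ℕ) (ls : List ℕ) : HP (l :: ls) = pp l + HP ls := by simp [HP]
lemma HP_nonneg (ls : List ℕ) : 0 ≤ HP ls := by
  induction ls with
  | nil => rw [HP_nil]
  | cons l ls ih => rw [HP_cons]; have := pp_pos l; linarith

lemma HD_nil79 : HD [] = 1 := by simp [HD]
lemma HN_nil79 : HN [] = 1 := by simp [HN]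
lemma HM_nil79 : HM [] = 0 := by simp [HM]
lemma HD_cons79 (l : ℕ) (ls : List ℕ) :
    HD (l :: ls) = (kap ^ l + C (pp l) * (X - 1)) * HD ls := by
  simp only [HD, List.map_cons, List.prod_cons, pp]
lemma HN_cons79 (l : ℕ) (ls : List ℕ) : HN (l :: ls) = kap ^ l * HN ls := by
  simp only [HN, List.map_cons, List.prod_cons]
lemma HM_cons79 (l : ℕ) (ls : List ℕ) : HM (l :: ls) = (l : ℝ) / 2 + pp l + HM ls := by
  simp only [HM, List.map_cons, List.sum_cons, pp]

lemma HN_eq (ls : List ℕ) : HN ls = kap ^ ls.sum := by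
  induction ls with
  | nil => rw [HN_nil79]; simp
  | cons l ls ih => rw [HN_cons79, ih, List.sum_cons, pow_add]

lemma HM_eq (ls : List ℕ) : HM ls = (ls.sum : ℝ) / 2 + HP ls := by
  induction ls with
  | nil => rw [HM_nil79, HP_nil]; simp
  | cons l ls ih => rw [HM_cons79, ih, HP_cons, List.sum_cons]; push_cast; ring

lemma inW_HN79 (ls : List ℕ) : InW (HM ls - HP ls) (HN ls) := by
  rw [HN_eq]
  refine (inW_kap_pow ls.sum).congr ?_ rfl
  rw [HM_eq]; ring

lemma inW_S79 (l : ℕ) : InW ((l : ℝ) / 2 + pp l) (kap ^ l + C (pp l) * (X - 1)) := by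
  apply inW_st l _ (pp_pos l).le
  rw [← two_pp]; have := pp_pos l; linarith

lemma inW_HD79 (ls : List ℕ) : InW (HM ls) (HD ls) := by
  induction ls with
  | nil => rw [HM_nil79, HD_nil79]; exact InW.one (le_refl _)
  | cons l ls ih => rw [HM_cons79, HD_cons79]; exact (inW_S79 l).mul ih

/-- Lemma F for a negative centre -/
theorem lemFneg (l : ℕ) (hl : 1 ≤ l) (b w q : ℝ) (hb0 : 0 ≤ b) (hb1 : b ≤ 1 / 4) (hw0 : 2 * b ≤ w)
    (hw1 : w ≤ 1) (hq0 : 0 ≤ q) (hq1 : q ≤ (1 / 2) ^ l) :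
    InW (l / 2 + b + q) (kap ^ l * (1 + C b * (X - 1))
      + C q * ((X - 1) * (1 + C (w / 2) * (X - 1)))) := by
  have hd : 0 < 1 - 2 * b := by linarith
  set m : ℝ := (w - 2 * b) / (1 - 2 * b) with hm
  have hm0 : 0 ≤ m := by rw [hm]; apply div_nonneg <;> linarith
  have hm1 : m ≤ 1 := by rw [hm, div_le_one hd]; linarith
  have hmw : (1 - m) * b + m / 2 = w / 2 := by
    have : m * (1 - 2 * b) = w - 2 * b := by rw [hm]; field_simp
    linarith
  have h1 := ((inW_st l q hq0 hq1).mul (InW.coin (s := b) (by linarith))).smul (c := 1 - m)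
    (by linarith)
  have h2 := star_lemma (b :: List.replicate (l - 1) (1 / 2 : ℝ)) q (by
      intro s hs
      rcases List.mem_cons.1 hs with rfl | hs
      · constructor <;> linarith
      · rw [List.eq_of_mem_replicate hs]; norm_num) hq0 (by
      rw [List.length_cons, List.length_replicate, Nat.sub_add_cancel hl]; exact hq1)
  have h3 : prodC (b :: List.replicate (l - 1) (1 / 2 : ℝ)) = (1 + C b * (X - 1)) * kap ^ (l - 1) := by
    rw [← prodC_rep79]; simp [prodC]
  rw [h3] at h2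
  have hk : InW (1 / 2) kap := InW.coin (by norm_num)
  have h4 := (h2.mul hk).smul (c := m) hm0
  have h5 : (b :: List.replicate (l - 1) (1 / 2 : ℝ)).sum + q + 1 / 2 = l / 2 + b + q := by
    rw [List.sum_cons, List.sum_replicate, nsmul_eq_mul, Nat.cast_sub hl]; push_cast; ring
  rw [h5] at h4
  refine ((h1.congr (by ring) rfl).add h4).congr rfl ?_
  have e1 : (C (w / 2) : ℝ⟦X⟧) = (1 - C m) * C b + C m * C (1 / 2) := by
    rw [← hmw, map_add, map_mul, map_sub, map_one]
    congr 1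
    rw [← map_mul]; congr 1; ring
  have e2 : (C (1 - m) : ℝ⟦X⟧) = 1 - C m := by rw [map_sub, map_one]
  have e3 : kap ^ l = kap ^ (l - 1) * kap := by rw [← pow_succ]; congr 1; omega
  rw [e1, e2, e3]
  unfold Pool.Agent.Lib_helper13.GC6.kap
  ring

/-- one step, `0 ≤ w = lam - 2 γ ≤ 1` -/
theorem stepF (l : ℕ) (hl : 4 ≤ l) (g lam : ℝ) (hg0 : -(1 / 8) ≤ g) (hg1 : g ≤ 1 / 4)
    (hlam : 0 ≤ lam) (hw0 : 0 ≤ lam - 2 * g) (hw1 : lam - 2 * g ≤ 1) :
    InW (l / 2 - g + pp l) (kap ^ l * (1 - C (g + pp l) * (X - 1)) + C (2 * pp l) * (X - 1)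
      + C (pp l * (lam - 2 * g)) * (X - 1) ^ 2) := by
  have hp := pp_pos l
  have hp2 := two_pp l
  have hp1 : pp l ≤ 1 / 32 := by
    have : (1 / 2 : ℝ) ^ l ≤ (1 / 2) ^ 4 := pow_le_pow_of_le_one (by norm_num) (by norm_num) hl
    rw [← hp2] at this; norm_num at this; linarith
  have e2 : (C (2 * pp l * ((lam - 2 * g) / 2)) : ℝ⟦X⟧) = C (pp l * (lam - 2 * g)) := by
    congr 1; ring
  rcases le_total 0 (g + pp l) with h | h
  · have h1 := lemF l hl (g + pp l) (lam - 2 * g) (2 * pp l) h (by linarith) hw0 hw1 (by linarith)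
      hp2.le
    refine h1.congr (by ring) ?_
    rw [← e2, map_mul C (2 * pp l)]
    ring
  · have h1 := lemFneg l (by omega) (-(g + pp l)) (lam - 2 * g) (2 * pp l) (by linarith)
      (by linarith) (by linarith) hw1 (by linarith) hp2.le
    refine h1.congr (by ring) ?_
    rw [← e2, map_mul C (2 * pp l), map_neg]
    ring

/-- the last step, `lam ≤ 1`, `w` slightly above `1` allowed -/
theorem stepG (l : ℕ) (hl : 4 ≤ l) (g lam : ℝ) (hg0 : -(5 / 1024) ≤ g) (hg1 : g ≤ 1 / 4)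
    (hlam : 0 ≤ lam) (hlam1 : lam ≤ 1) (hw0 : 0 ≤ lam - 2 * g) :
    InW (l / 2 - g + pp l) (kap ^ l * (1 - C (g + pp l) * (X - 1)) + C (2 * pp l) * (X - 1)
      + C (pp l * (lam - 2 * g)) * (X - 1) ^ 2
      + C (1 / 64) * (kap ^ l * (1 - C (g - pp l) * (X - 1)))) := by
  have hp := pp_pos l
  have hp2 := two_pp l
  have hp1 : pp l ≤ 1 / 32 := by
    have : (1 / 2 : ℝ) ^ l ≤ (1 / 2) ^ 4 := pow_le_pow_of_le_one (by norm_num) (by norm_num) hl
    rw [← hp2] at this; norm_num at this; linarith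
  rcases le_total (lam - 2 * g) 1 with h | h
  · have h1 := stepF l hl g lam (by linarith) hg1 hlam hw0 h
    have h2 := ((inW_kap_pow l).mul (InW.coin (s := -(g - pp l)) (by linarith))).smul
      (c := 1 / 64) (by norm_num)
    refine (h1.add (h2.congr (by ring) rfl)).congr rfl ?_
    rw [map_neg]; ring
  · have hg : g ≤ 0 := by linarith
    have h1 := stepF l hl g (1 + 2 * g) (by linarith) hg1 (by linarith) (by linarith) (by linarith)
    have h2 := (Pool.Agent.Lib_helper6.SRC.inW_K7 (l := l) (by omega) (p := pp l)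
      (a := pp l - g) (c := 64 * (lam - 2 * g - 1)) rfl (by linarith) (by linarith) (by linarith)
      (by linarith)).smul (c := 1 / 64) (by norm_num)
    refine (h1.add (h2.congr (by ring) rfl)).congr rfl ?_
    have e1 : (C (64 * (lam - 2 * g - 1) * pp l) : ℝ⟦X⟧)
        = C 64 * (C (pp l * (lam - 2 * g)) - C (pp l)) := by
      rw [← map_sub, ← map_mul]; congr 1; ring
    have e2 : (C (1 / 64) : ℝ⟦X⟧) * C 64 = 1 := by rw [← map_mul]; norm_num
    have e3 : (C (pp l * (1 + 2 * g - 2 * g)) : ℝ⟦X⟧) = C (pp l) := by congr 1; ring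
    rw [e1, e3, map_sub C (pp l) g, map_sub C g (pp l)]
    unfold Pool.Agent.Lib_helper13.GC6.kap
    linear_combination ((C (pp l * (lam - 2 * g)) - C (pp l)) * (X - 1) ^ 2) * e2

lemma HP_le (ls : List ℕ) (r : ℝ) (hp : ∀ l ∈ ls, 8 * pp l ≤ r) : 8 * HP ls ≤ ls.length * r := by
  induction ls with
  | nil => rw [HP_nil]; simp
  | cons l ls ih =>
    rw [HP_cons, List.length_cons]
    have h1 := hp l (by simp)
    have h2 := ih (fun j hj => hp j (by simp [hj]))
    push_cast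
    linarith

/-- the identity of one step -/
lemma F_step (l : ℕ) (ls : List ℕ) (r : ℝ) (K : ℝ⟦X⟧)
    (hK : C (2 ^ ls.length) * (HD ls - C r * ((X - 1) * HN ls))
      = HN ls * (1 - C (r - HP ls) * (X - 1)) + K) :
    C (2 ^ (l :: ls).length) * (HD (l :: ls) - C r * ((X - 1) * HN (l :: ls)))
      = HN (l :: ls) * (1 - C (r - HP (l :: ls)) * (X - 1))
        + (C 2 * ((kap ^ l + C (pp l) * (X - 1)) * K)
          + HN ls * (kap ^ l * (1 - C (r - HP ls + pp l) * (X - 1)) + C (2 * pp l) * (X - 1)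
            + C (pp l * (2 ^ (ls.length + 1) * r - 2 * (r - HP ls))) * (X - 1) ^ 2)) := by
  have h2 : (C (2 : ℝ) : ℝ⟦X⟧) = 2 := map_ofNat C 2
  rw [HD_cons79, HN_cons79, HP_cons, List.length_cons]
  have e1 : (C (2 ^ (ls.length + 1)) : ℝ⟦X⟧) = C (2 ^ ls.length) * 2 := by
    rw [pow_succ, map_mul, h2]
  have e2 : (C (pp l * (2 ^ (ls.length + 1) * r - 2 * (r - HP ls))) : ℝ⟦X⟧)
      = C (pp l) * (C (2 ^ ls.length) * 2 * C r - 2 * (C r - C (HP ls))) := by
    rw [map_mul, map_sub, map_mul, e1, map_mul, h2, map_sub]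
  have e3 : (C (r - (pp l + HP ls)) : ℝ⟦X⟧) = C r - C (pp l) - C (HP ls) := by
    rw [map_sub, map_add]; ring
  have e4 : (C (r - HP ls + pp l) : ℝ⟦X⟧) = C r - C (HP ls) + C (pp l) := by
    rw [map_add, map_sub]
  have e5 : (C (2 * pp l) : ℝ⟦X⟧) = 2 * C (pp l) := by rw [map_mul, h2]
  rw [e1, e2, e3, e4, e5, h2]
  rw [map_sub] at hK
  linear_combination (2 * (kap ^ l + C (pp l) * (X - 1))) * hK

/-- `(F)` with `θ = 1` -/
theorem FA (ls : List ℕ) (r : ℝ) (h0 : 0 < r) (h1 : r ≤ 1 / 4) (h4 : ∀ l ∈ ls, 4 ≤ l)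
    (hp : ∀ l ∈ ls, 8 * pp l ≤ r) (hc : 2 ^ ls.length * r ≤ 1 / 2) :
    ∃ K : ℝ⟦X⟧, InW (HM ls - r) K ∧ C (2 ^ ls.length) * (HD ls - C r * ((X - 1) * HN ls))
      = HN ls * (1 - C (r - HP ls) * (X - 1)) + K := by
  induction ls with
  | nil =>
    refine ⟨0, InW.zero _, ?_⟩
    rw [HD_nil79, HN_nil79, HP_nil]
    simp
  | cons l ls ih =>
    rw [List.length_cons, pow_succ] at hc
    have hpow : (1 : ℝ) ≤ 2 ^ ls.length := one_le_pow₀ (by norm_num)
    have hpowr : 0 < (2 : ℝ) ^ ls.length * r := by positivity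
    obtain ⟨K, hK, hF⟩ := ih (fun j hj => h4 j (by simp [hj])) (fun j hj => hp j (by simp [hj]))
      (by linarith)
    refine ⟨_, ?_, F_step l ls r K hF⟩
    have hP := HP_le ls r (fun j hj => hp j (by simp [hj]))
    have hP0 := HP_nonneg ls
    have hlen : (ls.length : ℝ) ≤ 2 ^ ls.length := by exact_mod_cast Nat.lt_two_pow_self.le
    have hlr : (ls.length : ℝ) * r ≤ 2 ^ ls.length * r := mul_le_mul_of_nonneg_right hlen h0.le
    have hr2 : r ≤ 2 ^ ls.length * r := by nlinarith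
    have hs := stepF l (h4 l (by simp)) (r - HP ls) (2 ^ (ls.length + 1) * r) (by linarith)
      (by linarith) (by positivity) (by rw [pow_succ]; linarith) (by rw [pow_succ]; linarith)
    have a1 := ((inW_S79 l).mul hK).smul (c := 2) (by norm_num)
    have a2 := (inW_HN79 ls).mul hs
    rw [HM_cons79]
    exact (a1.congr (by ring) rfl).add (a2.congr (by ring) rfl)

/-- `(F)` with `θ = 63/64` -/
theorem FB (ls : List ℕ) (r : ℝ) (h0 : 0 < r) (h1 : r ≤ 1 / 4) (h4 : ∀ l ∈ ls, 4 ≤ l)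
    (hp : ∀ l ∈ ls, 8 * pp l ≤ r) (hc : 2 ^ ls.length * r ≤ 1) :
    ∃ K : ℝ⟦X⟧, InW (HM ls - r) K ∧ C (2 ^ ls.length) * (HD ls - C r * ((X - 1) * HN ls))
      = C (63 / 64) * (HN ls * (1 - C (r - HP ls) * (X - 1))) + K := by
  cases ls with
  | nil =>
    obtain ⟨K, hK, hF⟩ := FA [] r h0 h1 h4 hp (by simpa using (by linarith : r ≤ 1 / 2))
    refine ⟨C (1 / 64) * (HN [] * (1 - C (r - HP []) * (X - 1))) + K, ?_, ?_⟩
    · refine InW.add ?_ hK
      have := ((inW_HN79 []).mul (InW.coin (s := -(r - HP [])) (by rw [HP_nil]; linarith))).smul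
        (c := 1 / 64) (by norm_num)
      refine this.congr (by ring) ?_
      rw [map_neg]; ring
    · rw [hF]
      have : (C (63 / 64 : ℝ) : ℝ⟦X⟧) + C (1 / 64) = 1 := by rw [← map_add]; norm_num
      linear_combination (-(HN [] * (1 - C (r - HP []) * (X - 1)))) * this
  | cons l ls =>
    rw [List.length_cons, pow_succ] at hc
    have hpow : (1 : ℝ) ≤ 2 ^ ls.length := one_le_pow₀ (by norm_num)
    obtain ⟨K, hK, hF⟩ := FA ls r h0 h1 (fun j hj => h4 j (by simp [hj]))
      (fun j hj => hp j (by simp [hj])) (by linarith)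
    have hP := HP_le ls r (fun j hj => hp j (by simp [hj]))
    have hP0 := HP_nonneg ls
    have hr2 : r ≤ 2 ^ ls.length * r := by nlinarith
    have hg : -(5 / 1024) ≤ r - HP ls := by
      rcases Nat.lt_or_ge ls.length 9 with h9 | h9
      · have h8 : (ls.length : ℝ) ≤ 8 := by exact_mod_cast (by omega : ls.length ≤ 8)
        have := mul_le_mul_of_nonneg_right h8 h0.le
        linarith
      · obtain ⟨d, hd⟩ := Nat.exists_eq_add_of_le h9
        have hdp : (d : ℝ) + 1 ≤ 2 ^ d := by exact_mod_cast Nat.lt_two_pow_self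
        rw [hd] at hP hc
        rw [pow_add] at hc
        push_cast at hP
        have h3 : (512 : ℝ) * ((d : ℝ) + 1) * r ≤ 1 / 2 := by
          calc (512 : ℝ) * ((d : ℝ) + 1) * r ≤ 512 * 2 ^ d * r := by
                apply mul_le_mul_of_nonneg_right _ h0.le
                linarith
            _ ≤ 1 / 2 := by norm_num at hc ⊢; linarith
        nlinarith
    have hs := stepG l (h4 l (by simp)) (r - HP ls) (2 ^ (ls.length + 1) * r) hg
      (by linarith) (by positivity) (by rw [pow_succ]; linarith) (by rw [pow_succ]; linarith)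
    have a1 := ((inW_S79 l).mul hK).smul (c := 2) (by norm_num)
    have a2 := (inW_HN79 ls).mul hs
    refine ⟨C 2 * ((kap ^ l + C (pp l) * (X - 1)) * K) + HN ls
      * (kap ^ l * (1 - C (r - HP ls + pp l) * (X - 1)) + C (2 * pp l) * (X - 1)
      + C (pp l * (2 ^ (ls.length + 1) * r - 2 * (r - HP ls))) * (X - 1) ^ 2
      + C (1 / 64) * (kap ^ l * (1 - C (r - HP ls - pp l) * (X - 1)))), ?_, ?_⟩
    · rw [HM_cons79]
      exact (a1.congr (by ring) rfl).add (a2.congr (by ring) rfl)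
    · rw [F_step l ls r K hF, HN_cons79, HP_cons]
      have e1 : (C (63 / 64 : ℝ) : ℝ⟦X⟧) + C (1 / 64) = 1 := by rw [← map_add]; norm_num
      have e2 : (C (r - (pp l + HP ls)) : ℝ⟦X⟧) = C (r - HP ls - pp l) := by congr 1; ring
      rw [e2]
      linear_combination (-(kap ^ l * HN ls * (1 - C (r - HP ls - pp l) * (X - 1)))) * e1

end Pool.Agent.Lib_helper79.SRC
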