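import Pool.Agent.Lib_helper79.SRC.AlgZ

set_option autoImplicit false

/-! # Case I and the stars from the extended star lemma -/

namespace Pool.Agent.Lib_helper79.SRC

open PowerSeries Pool.Agent.Lib_helper36.SRC Pool.Agent.Lib_helper36.SRC.RT

/-- **Extended star lemma** (helper48) -/
def ESB : Prop := ∀ (as : List ℝ) (a τ : ℝ), (∀ s ∈ as, 0 ≤ s ∧ s ≤ 1 / 2) → 0 ≤ a → a ≤ 1 / 2 →
  0 ≤ τ → τ ≤ (1 / 2) ^ as.length * (1 - a) →
  InW (as.sum + a + τ) ((1 + C a * (X - 1)) * prodC as + C τ * (X - 1))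

lemma inW_prodC (as : List ℝ) (h : ∀ s ∈ as, s ≤ 1) : InW as.sum (prodC as) := by
  induction as with
  | nil => unfold prodC; simpa using InW.one (le_refl (0 : ℝ))
  | cons a as ih =>
    have e : prodC (a :: as) = (1 + C a * (X - 1)) * prodC as := by
      unfold prodC; rw [List.map_cons, List.prod_cons]
    rw [e, List.sum_cons]
    exact (InW.coin (h a (by simp))).mul (ih (fun s hs => h s (by simp [hs])))

/-- the identity of helper48 -/
lemma ZZ_eq (a p D : ℝ) (ha : 2 * p < a) (hD : 0 ≤ D) (hp : 0 < p) (Xp : ℝ⟦X⟧) :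
    ZZ a p D Xp = C ((a - 2 * p) / (a - 2 * p + D)) *
      ((1 + C (a * (1 - D / (a - 2 * p))) * (X - 1)) * Xp + C (2 * p * (1 + D / (a - 2 * p))) * (X - 1))
      + C (D * p / ((a - 2 * p + D) * (a - p + D))) *
        ((Xp * (1 + C (2 * a) * (X - 1))) * (1 + C (-(a - 2 * p + D)) * (X - 1))) := by
  have h1 : a - 2 * p ≠ 0 := by linarith
  have h2 : a - 2 * p + D ≠ 0 := by linarith
  have h3 : a - p + D ≠ 0 := by linarith
  unfold ZZ
  set φ := D / (a - p + D) with hφ
  set c1 := (a - 2 * p) / (a - 2 * p + D) with hc1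
  set δ := D / (a - 2 * p) with hδ
  set k1 := D * p / ((a - 2 * p + D) * (a - p + D)) with hk1
  -- real identities
  have r1 : c1 * (1 + δ) = 1 := by rw [hc1, hδ]; field_simp
  have r2 : c1 + k1 = 1 - φ := by rw [hc1, hk1, hφ]; field_simp; ring
  have r3 : k1 * (a - 2 * p + D) = φ * p := by
    rw [hk1, hφ, div_mul_eq_mul_div, div_mul_eq_mul_div, div_eq_div_iff (mul_ne_zero h2 h3) h3]
    ring
  have q1 : C c1 * (1 + C δ) = (1 : ℝ⟦X⟧) := by
    rw [← map_one (C (R := ℝ)), ← map_add, ← map_mul, r1]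
  have q2 : C c1 + C k1 = (1 : ℝ⟦X⟧) - C φ := by
    rw [← map_one (C (R := ℝ)), ← map_add, ← map_sub, r2]
  have q3 : C k1 * (C a - 2 * C p + C D) = (C φ * C p : ℝ⟦X⟧) := by
    have := congrArg (C (R := ℝ)) r3
    simpa only [map_mul, map_add, map_sub, map_ofNat] using this
  simp only [map_sub, map_add, map_mul, map_one, map_ofNat, map_neg]
  linear_combination (C a * (X - 1) * Xp - 2 * C p * (X - 1)) * q1
    - (Xp * (1 + 2 * C a * (X - 1))) * q2 + (Xp * (1 + 2 * C a * (X - 1)) * (X - 1)) * q3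

/-- the scalar statement for `a ≥ 4 p` -/
theorem ZZ_of_ESB (h : ESB) (as : List ℝ) (a p D : ℝ) (has : ∀ s ∈ as, 0 ≤ s ∧ s ≤ 1 / 2)
    (ha : 4 * p ≤ a) (ha1 : a ≤ 1 / 2) (hp : 0 < p) (hp1 : 2 * p ≤ (1 / 2) ^ (as.length + 1))
    (hD : 0 ≤ D) (hDp : D ≤ p) :
    InW (as.sum + a + 2 * p - D) (ZZ a p D (prodC as)) := by
  rw [ZZ_eq a p D (by linarith) hD hp]
  have h1 : 0 < a - 2 * p := by linarith
  have h2 : 0 < a - 2 * p + D := by linarith
  have h3 : 0 < a - p + D := by linarith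
  set δ := D / (a - 2 * p) with hδ
  have hδ0 : 0 ≤ δ := div_nonneg hD h1.le
  have hδ1 : δ ≤ 1 / 2 := by
    rw [hδ, div_le_iff₀ h1]; linarith
  have hsum : a * (1 - δ) + 2 * p * (1 + δ) = a + 2 * p - D := by
    have : δ * (a - 2 * p) = D := by rw [hδ]; field_simp
    linear_combination -this
  apply InW.add
  · apply InW.smul (by positivity)
    have key := h as (a * (1 - δ)) (2 * p * (1 + δ)) has (by nlinarith) (by nlinarith)
      (by positivity) (by
        have e : (1 / 2 : ℝ) ^ (as.length + 1) = (1 / 2) ^ as.length * (1 / 2) := pow_succ _ _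
        rw [e] at hp1
        have h5 : 0 < (1 / 2 : ℝ) ^ as.length := by positivity
        calc 2 * p * (1 + δ) ≤ (1 / 2) ^ as.length * (1 / 2) * (1 + δ) :=
              mul_le_mul_of_nonneg_right hp1 (by linarith)
          _ = (1 / 2) ^ as.length * (1 / 2 * (1 + δ)) := by ring
          _ ≤ (1 / 2) ^ as.length * (1 - a * (1 - δ)) := by
              apply mul_le_mul_of_nonneg_left _ h5.le
              nlinarith)
    refine key.congr ?_ rfl
    linear_combination hsum
  · apply InW.smul (by positivity)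
    refine (((inW_prodC as (fun s hs => by linarith [(has s hs).2])).mul
      (InW.coin (s := 2 * a) (by linarith))).mul
      (InW.coin (s := -(a - 2 * p + D)) (by linarith))).congr ?_ rfl
    ring

end Pool.Agent.Lib_helper79.SRC
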