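import Pool.Agent.Lib_helper79.SRC.BLK8
import Pool.Agent.Lib_helper36.SRC.StarLemma

set_option autoImplicit false

/-! # helper13's Lemma F -/

namespace Pool.Agent.Lib_helper79.SRC

open PowerSeries
open Pool.Agent.Lib_helper36.SRC
open Pool.Agent.Lib_helper13.GC6 (kap)

lemma prodC_rep79 (l : ℕ) : prodC (List.replicate l (1 / 2 : ℝ)) = kap ^ l := by
  unfold prodC kap
  simp [List.map_replicate, List.prod_replicate]

/-- the honest star law -/
theorem inW_st (j : ℕ) (w : ℝ) (h0 : 0 ≤ w) (h1 : w ≤ (1 / 2) ^ j) :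
    InW (j / 2 + w) (kap ^ j + C w * (X - 1)) := by
  have h := star_lemma (List.replicate j (1 / 2 : ℝ)) w (by
    intro s hs
    rw [List.eq_of_mem_replicate hs]
    norm_num) h0 (by rw [List.length_replicate]; exact h1)
  refine h.congr ?_ ?_
  · rw [List.sum_replicate, nsmul_eq_mul]; ring
  · rw [prodC_rep79]

/-- **Lemma F** -/
theorem lemF (l : ℕ) (hl : 4 ≤ l) (al w q : ℝ) (ha0 : 0 ≤ al) (ha1 : al ≤ 1 / 2) (hw0 : 0 ≤ w)
    (hw1 : w ≤ 1) (hq0 : 0 ≤ q) (hq1 : q ≤ (1 / 2) ^ l) :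
    InW (l / 2 - al + q) (kap ^ l * (1 - C al * (X - 1))
      + C q * ((X - 1) * (1 + C (w / 2) * (X - 1)))) := by
  have hk : InW (1 / 2) kap := InW.coin (by norm_num)
  have hco : InW (-al) (1 + C (-al) * (X - 1)) := InW.coin (by linarith)
  set g : ℝ := 2 * al / (1 + 2 * al) with hg
  have hd : 0 < 1 + 2 * al := by linarith
  have hg0 : 0 ≤ g := by rw [hg]; positivity
  have hg1 : 0 ≤ 1 - g := by
    have : 1 - g = 1 / (1 + 2 * al) := by rw [hg]; field_simp; ring
    rw [this]; positivity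
  have hga : (1 - g) * al = g / 2 := by rw [hg]; field_simp; ring
  -- `(1-γ)(1-αy) + γκ = 1`
  have e0 : C (1 - g) * (1 - C al * (X - 1)) + C g * kap = (1 : ℝ⟦X⟧) := by
    have e1 : (C (1 - g) : ℝ⟦X⟧) * C al = C (g / 2) := by rw [← map_mul, hga]
    have e2 : (C g : ℝ⟦X⟧) * C (1 / 2) = C (g / 2) := by rw [← map_mul]; congr 1; ring
    have e3 : (C (1 - g) : ℝ⟦X⟧) = 1 - C g := by rw [map_sub, map_one]
    unfold Pool.Agent.Lib_helper13.GC6.kap
    rw [mul_sub, ← mul_assoc, e1, mul_add, ← mul_assoc, e2, e3]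
    ring
  -- the claim for all `j ≤ l`, times `κ^(l-j)`
  have hX : ∀ j : ℕ, j ≤ l → 1 ≤ j → InW (j / 2 + q)
      (kap ^ j + C q * ((X - 1) * (1 + C (w / 2) * (X - 1)))) := by
    intro j hj hj1
    have hpj : q ≤ (1 / 2) ^ j := hq1.trans (pow_le_pow_of_le_one (by norm_num) (by norm_num) hj)
    have h1 := (inW_st j q hq0 hpj).smul (c := 1 - w) (by linarith)
    have hpj' : q ≤ (1 / 2) ^ (j - 1) :=
      hpj.trans (pow_le_pow_of_le_one (by norm_num) (by norm_num) (by omega))
    have h2 := ((inW_st (j - 1) q hq0 hpj').mul hk).smul (c := w) hw0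
    have h2' : InW (j / 2 + q) (C w * ((kap ^ (j - 1) + C q * (X - 1)) * kap)) := by
      refine h2.congr ?_ rfl
      have : ((j - 1 : ℕ) : ℝ) = (j : ℝ) - 1 := by rw [Nat.cast_sub hj1]; simp
      rw [this]; ring
    refine (h1.add h2').congr rfl ?_
    have e1 : (C (1 - w) : ℝ⟦X⟧) = 1 - C w := by rw [map_sub, map_one]
    have e2 : (C (w / 2) : ℝ⟦X⟧) = C w * C (1 / 2) := by rw [← map_mul]; congr 1; ring
    have e3 : kap ^ j = kap ^ (j - 1) * kap := by rw [← pow_succ]; congr 1; omega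
    rw [e1, e2, e3]
    unfold Pool.Agent.Lib_helper13.GC6.kap
    ring
  have main : ∀ j : ℕ, j ≤ l → InW (l / 2 - al + q) (kap ^ (l - j) * (kap ^ j * (1 - C al * (X - 1))
      + C q * ((X - 1) * (1 + C (w / 2) * (X - 1))))) := by
    intro j
    induction j with
    | zero =>
      intro _
      have hq16 : q ≤ 1 / 16 := by
        refine hq1.trans ((pow_le_pow_of_le_one (by norm_num) (by norm_num) hl).trans ?_)
        norm_num
      have h := blk4x' l hl (al - q) (q * (w / 2)) (by linarith) (by linarith) (by positivity) (by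
        nlinarith)
      refine h.congr (by ring) ?_
      have e1 : (C (al - q) : ℝ⟦X⟧) = C al - C q := by rw [map_sub]
      have e2 : (C (q * (w / 2)) : ℝ⟦X⟧) = C q * C (w / 2) := by rw [map_mul]
      rw [e1, e2, Nat.sub_zero, pow_zero]
      ring
    | succ j ih =>
      intro hj
      have h1 := (((hX (j + 1) hj (by omega)).mul hco).mul
        (Pool.Agent.Lib_helper79.SRC.inW_kap_pow (l - (j + 1)))).smul hg1
      have h2 := (ih (by omega)).smul hg0
      have hlj : ((l - (j + 1) : ℕ) : ℝ) = (l : ℝ) - (j + 1) := by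
        rw [Nat.cast_sub hj]; push_cast; ring
      have h1' : InW (l / 2 - al + q) (C (1 - g) * ((kap ^ (j + 1)
          + C q * ((X - 1) * (1 + C (w / 2) * (X - 1)))) * (1 + C (-al) * (X - 1))
          * kap ^ (l - (j + 1)))) := by
        refine h1.congr ?_ rfl
        rw [hlj]; push_cast; ring
      refine (h1'.add h2).congr rfl ?_
      have e3 : (C (-al) : ℝ⟦X⟧) = - C al := by rw [map_neg]
      have e4 : kap ^ (l - j) = kap ^ (l - (j + 1)) * kap := by
        rw [← pow_succ]; congr 1; omega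
      rw [e3, e4, pow_succ kap j]
      have e5 : (C (1 - g) : ℝ⟦X⟧) = 1 - C g := by rw [map_sub, map_one]
      linear_combination (kap ^ (l - (j + 1)) *
        (C q * ((X - 1) * (1 + C (w / 2) * (X - 1))))) * e0
        + (kap ^ (l - (j + 1)) * (kap ^ j * kap * (1 - C al * (X - 1)))) * e5
  have h := main l le_rfl
  rw [Nat.sub_self, pow_zero, one_mul] at h
  exact h

end Pool.Agent.Lib_helper79.SRC
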