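import Pool.Agent.Lib_helper35.SRC.GenCoef

set_option autoImplicit false

/-! # Levels 0, 1, 2 of a star -/

namespace Pool.Agent.Lib_helper79.SRC

open PowerSeries Pool.Agent.Lib_helper36.SRC Pool.Agent.Lib_helper36.SRC.RT
  Pool.Agent.Lib_helper35.SRC

/-- transform of the star with leaves `L` and weight `w` -/
noncomputable def TT (L : List ℝ) (w : ℝ) : ℝ⟦X⟧ :=
  (L.map kc).prod * ab (-w) + C w * y1 (L.sum + w)

lemma S_TT (L : List ℝ) (w : ℝ) :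
    S (TT L w) = (prodC L + C w * (X - 1)) * Ex (-(L.sum + w)) := by
  have h := S_starS L w 0 (L.sum + w)
  unfold starS at h
  have e : L.sum - (L.sum + w) = -w := by ring
  rw [e] at h
  simp only [map_zero, zero_mul, add_zero] at h
  exact h

theorem inW_TT (L : List ℝ) (w : ℝ) : InW (L.sum + w) (prodC L + C w * (X - 1)) ↔ NN (TT L w) :=
  inW_iff_NN (S_TT L w)

/-- `∏ (1 - s)` -/
noncomputable def pi1 : List ℝ → ℝ
  | [] => 1
  | s :: L => (1 - s) * pi1 L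

/-- `∑ s² / (1 - s)` -/
noncomputable def be1 : List ℝ → ℝ
  | [] => 0
  | s :: L => be1 L + s ^ 2 / (1 - s)

/-- `(∑ s² / (1 - s))² + ∑ s² (1 - 2 s) / (1 - s)²` -/
noncomputable def ww1 : List ℝ → ℝ
  | [] => 0
  | s :: L => ww1 L + 2 * be1 L * (s ^ 2 / (1 - s)) + s ^ 2

/-- `∏ 1 / (2 (1 - s))` -/
noncomputable def ka1 : List ℝ → ℝ
  | [] => 1
  | s :: L => ka1 L * (1 / (2 * (1 - s)))

lemma pi1_eq (L : List ℝ) : pi1 L = (L.map (fun s => 1 - s)).prod := by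
  induction L with
  | nil => simp [pi1]
  | cons s L ih => rw [pi1, ih, List.map_cons, List.prod_cons]

lemma cm0 (f g : ℝ⟦X⟧) : coeff 0 (f * g) = coeff 0 f * coeff 0 g := by
  rw [coeff_mul, Finset.Nat.antidiagonal_zero, Finset.sum_singleton]

lemma cm1 (f g : ℝ⟦X⟧) : coeff 1 (f * g) = coeff 0 f * coeff 1 g + coeff 1 f * coeff 0 g := by
  rw [coeff_mul, Finset.Nat.sum_antidiagonal_eq_sum_range_succ_mk]
  simp [Finset.sum_range_succ]

lemma cm2 (f g : ℝ⟦X⟧) : coeff 2 (f * g)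
    = coeff 0 f * coeff 2 g + coeff 1 f * coeff 1 g + coeff 2 f * coeff 0 g := by
  rw [coeff_mul, Finset.Nat.sum_antidiagonal_eq_sum_range_succ_mk]
  simp [Finset.sum_range_succ]

lemma coeff_prod_kc (L : List ℝ) (h : ∀ s ∈ L, s < 1) :
    coeff 0 (L.map kc).prod = pi1 L ∧ coeff 1 (L.map kc).prod = pi1 L * be1 L ∧
      coeff 2 (L.map kc).prod = pi1 L * ww1 L / 2 := by
  induction L with
  | nil =>
    simp [pi1, be1, ww1, coeff_one]
  | cons s L ih =>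
    obtain ⟨h0, h1, h2⟩ := ih (fun r hr => h r (List.mem_cons_of_mem _ hr))
    have hs : 1 - s ≠ 0 := by have := h s (by simp); linarith
    have k2 : coeff 2 (kc s) = s ^ 2 * (1 - s) / 2 := by
      have := coeff_kc s 0
      norm_num at this
      exact this
    rw [List.map_cons, List.prod_cons]
    refine ⟨?_, ?_, ?_⟩
    · rw [cm0, coeff_kc_zero, h0, pi1]
    · rw [cm1, coeff_kc_zero, coeff_kc_one, h0, h1, pi1, be1]
      field_simp
    · rw [cm2, coeff_kc_zero, coeff_kc_one, k2, h0, h1, h2, pi1, ww1]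
      field_simp

lemma coeff_ab_two (c : ℝ) : coeff 2 (ab c) = c * (c + 2) / 2 := by
  have := coeff_ab_succ c 1
  norm_num at this
  exact this

lemma coeff_ab_one (c : ℝ) : coeff 1 (ab c) = c := by
  have := coeff_ab_succ c 0
  norm_num at this
  exact this

lemma coeff_TT_zero (L : List ℝ) (w : ℝ) (h : ∀ s ∈ L, s < 1) : coeff 0 (TT L w) = pi1 L - w := by
  obtain ⟨h0, h1, h2⟩ := coeff_prod_kc L h
  unfold TT
  rw [map_add, coeff_C_mul, coeff_y1_zero, cm0, h0, coeff_ab_zero]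
  ring

lemma coeff_TT_one (L : List ℝ) (w : ℝ) (h : ∀ s ∈ L, s < 1) :
    coeff 1 (TT L w) = pi1 L * (be1 L - w) + w * (1 + (L.sum + w)) := by
  obtain ⟨h0, h1, h2⟩ := coeff_prod_kc L h
  unfold TT
  rw [map_add, coeff_C_mul, coeff_y1_one, cm1, h0, h1, coeff_ab_zero, coeff_ab_one]
  ring

lemma coeff_TT_two (L : List ℝ) (w : ℝ) (h : ∀ s ∈ L, s < 1) :
    2 * coeff 2 (TT L w) = pi1 L * (ww1 L - 2 * w * be1 L - 2 * w + w ^ 2)
      + w * (2 - (L.sum + w) ^ 2) := by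
  obtain ⟨h0, h1, h2⟩ := coeff_prod_kc L h
  have hy := coeff_y1 0 (L.sum + w)
  norm_num at hy
  unfold TT
  rw [map_add, coeff_C_mul, hy, cm2, h0, h1, h2, coeff_ab_zero, coeff_ab_one, coeff_ab_two]
  ring

/-! ### Bounds -/

lemma exists_v {s : ℝ} (h0 : 0 ≤ s) (h1 : s ≤ 1 / 2) :
    ∃ v : ℝ, 0 ≤ v ∧ v ≤ 1 ∧ s = v / (1 + v) ∧ 1 - s = 1 / (1 + v) ∧ s ^ 2 / (1 - s) = v ^ 2 / (1 + v)
      ∧ 1 / (2 * (1 - s)) = (1 + v) / 2 := by
  have h : 0 < 1 - s := by linarith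
  refine ⟨s / (1 - s), div_nonneg h0 h.le, ?_, ?_, ?_, ?_, ?_⟩
  · rw [div_le_one h]; linarith
  all_goals
    have : 1 + s / (1 - s) = 1 / (1 - s) := by field_simp; ring
    rw [this]
    field_simp

lemma pi1_pos (L : List ℝ) (h : ∀ s ∈ L, s < 1) : 0 < pi1 L := by
  induction L with
  | nil => simp [pi1]
  | cons s L ih =>
    rw [pi1]
    have := h s (by simp)
    exact mul_pos (by linarith) (ih (fun r hr => h r (List.mem_cons_of_mem _ hr)))

lemma be1_nonneg (L : List ℝ) (h : ∀ s ∈ L, 0 ≤ s ∧ s ≤ 1 / 2) : 0 ≤ be1 L ∧ be1 L ≤ L.sum := by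
  induction L with
  | nil => simp [be1]
  | cons s L ih =>
    rw [be1, List.sum_cons]
    obtain ⟨h0, h1⟩ := h s (by simp)
    obtain ⟨i0, i1⟩ := ih (fun r hr => h r (List.mem_cons_of_mem _ hr))
    have : s ^ 2 / (1 - s) ≤ s := by
      rw [div_le_iff₀ (by linarith)]; nlinarith
    have : 0 ≤ s ^ 2 / (1 - s) := div_nonneg (by positivity) (by linarith)
    constructor <;> linarith

/-- `∏ (1 + v) ≥ 1 + ∑ v` -/
lemma pi1_slack (L : List ℝ) (h : ∀ s ∈ L, 0 ≤ s ∧ s ≤ 1 / 2) :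
    pi1 L * (1 + be1 L + L.sum) ≤ 1 ∧ pi1 L ≤ 1 := by
  induction L with
  | nil => simp [pi1, be1]
  | cons s L ih =>
    rw [pi1, be1, List.sum_cons]
    obtain ⟨h0, h1⟩ := h s (by simp)
    obtain ⟨i0, i1⟩ := ih (fun r hr => h r (List.mem_cons_of_mem _ hr))
    have hp := pi1_pos L (fun r hr => by have := h r (List.mem_cons_of_mem _ hr); linarith)
    have hs : 1 - s ≠ 0 := by linarith
    have e : (1 - s) * pi1 L * (1 + (be1 L + s ^ 2 / (1 - s)) + (s + L.sum))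
        = (1 - s) * (pi1 L * (1 + be1 L + L.sum)) + pi1 L * s := by
      field_simp
      ring
    rw [e]
    constructor
    · nlinarith
    · nlinarith

lemma ka1_mul_pi1 (L : List ℝ) (h : ∀ s ∈ L, s < 1) : ka1 L * pi1 L = (1 / 2) ^ L.length := by
  induction L with
  | nil => simp [ka1, pi1]
  | cons s L ih =>
    rw [ka1, pi1, List.length_cons, pow_succ, ← ih (fun r hr => h r (List.mem_cons_of_mem _ hr))]
    have := h s (by simp)
    have : 1 - s ≠ 0 := by linarith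
    field_simp

lemma ka1_bounds (L : List ℝ) (h : ∀ s ∈ L, 0 ≤ s ∧ s ≤ 1 / 2) : 0 < ka1 L ∧ ka1 L ≤ 1 := by
  induction L with
  | nil => simp [ka1]
  | cons s L ih =>
    obtain ⟨h0, h1⟩ := h s (by simp)
    obtain ⟨i0, i1⟩ := ih (fun r hr => h r (List.mem_cons_of_mem _ hr))
    obtain ⟨v, v0, v1, -, -, -, e⟩ := exists_v h0 h1
    rw [ka1, e]
    constructor
    · positivity
    · nlinarith

/-- the step for `(P)` -/
lemma P_step (W β κ σ v : ℝ) (hκ0 : 0 ≤ κ) (hκ1 : κ ≤ 1) (hv0 : 0 ≤ v) (hv1 : v ≤ 1)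
    (hW : κ * σ ^ 2 ≤ W) (hβ : κ * σ - (1 - κ) / 4 ≤ β) :
    κ * ((1 + v) / 2) * (v / (1 + v) + σ) ^ 2 ≤ W + 2 * β * (v ^ 2 / (1 + v)) + (v / (1 + v)) ^ 2 := by
  have hv : 0 < 1 + v := by linarith
  have key : 0 ≤ (1 + v) ^ 2 * (W + 2 * β * (v ^ 2 / (1 + v)) + (v / (1 + v)) ^ 2
      - κ * ((1 + v) / 2) * (v / (1 + v) + σ) ^ 2) := by
    have e : (1 + v) ^ 2 * (W + 2 * β * (v ^ 2 / (1 + v)) + (v / (1 + v)) ^ 2
      - κ * ((1 + v) / 2) * (v / (1 + v) + σ) ^ 2)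
      = (1 + v) ^ 2 * (W - κ * σ ^ 2) + 2 * v ^ 2 * (1 + v) * (β - (κ * σ - (1 - κ) / 4))
        + (1 - v) / 2 * (κ * ((1 + v) * σ - v) ^ 2 + (1 - κ) * v ^ 2) := by
      field_simp
      ring
    rw [e]
    have a1 : 0 ≤ (1 + v) ^ 2 * (W - κ * σ ^ 2) := mul_nonneg (by positivity) (by linarith)
    have a2 : 0 ≤ 2 * v ^ 2 * (1 + v) * (β - (κ * σ - (1 - κ) / 4)) :=
      mul_nonneg (by positivity) (by linarith)
    have a3 : 0 ≤ (1 - v) / 2 * (κ * ((1 + v) * σ - v) ^ 2 + (1 - κ) * v ^ 2) := by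
      apply mul_nonneg (by linarith)
      have := mul_nonneg (show 0 ≤ 1 - κ by linarith) (sq_nonneg v)
      positivity
    linarith
  have := nonneg_of_mul_nonneg_right key (by positivity)
  linarith

lemma Q_step (β κ σ v : ℝ) (hκ0 : 0 ≤ κ) (hκ1 : κ ≤ 1) (hσ : 0 ≤ σ) (hv0 : 0 ≤ v) (hv1 : v ≤ 1)
    (hβ : κ * σ - (1 - κ) / 4 ≤ β) (h : 1 / 4 ≤ σ ∨ κ ≤ 1 / 3) :
    κ * ((1 + v) / 2) * (v / (1 + v) + σ) - (1 - κ * ((1 + v) / 2)) / 4 ≤ β + v ^ 2 / (1 + v) := by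
  have hv : 0 < 1 + v := by linarith
  have key : 0 ≤ (1 + v) * (β + v ^ 2 / (1 + v) - (κ * ((1 + v) / 2) * (v / (1 + v) + σ)
      - (1 - κ * ((1 + v) / 2)) / 4)) := by
    have e : (1 + v) * (β + v ^ 2 / (1 + v) - (κ * ((1 + v) / 2) * (v / (1 + v) + σ)
      - (1 - κ * ((1 + v) / 2)) / 4)) = (1 + v) * (β - (κ * σ - (1 - κ) / 4))
        + (κ * (1 - v ^ 2) * (σ / 2 + 1 / 8) + v ^ 2 - κ * v * (1 + v) / 2) := by
      field_simp
      ring
    rw [e]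
    have a1 : 0 ≤ (1 + v) * (β - (κ * σ - (1 - κ) / 4)) := mul_nonneg hv.le (by linarith)
    have hv2 : 0 ≤ 1 - v ^ 2 := by nlinarith
    have a2 : 0 ≤ κ * (1 - v ^ 2) * (σ / 2 + 1 / 8) + v ^ 2 - κ * v * (1 + v) / 2 := by
      rcases h with h | h
      · have b1 : κ * (1 - v ^ 2) * (1 / 4) ≤ κ * (1 - v ^ 2) * (σ / 2 + 1 / 8) :=
          mul_le_mul_of_nonneg_left (by linarith) (mul_nonneg hκ0 hv2)
        have b2 : 0 ≤ (1 - κ) * v ^ 2 := mul_nonneg (by linarith) (sq_nonneg v)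
        have b3 : 0 ≤ κ * (1 - v) ^ 2 := mul_nonneg hκ0 (sq_nonneg _)
        nlinarith
      · have b1 : κ * (1 - v ^ 2) * (1 / 8) ≤ κ * (1 - v ^ 2) * (σ / 2 + 1 / 8) :=
          mul_le_mul_of_nonneg_left (by linarith) (mul_nonneg hκ0 hv2)
        have b2 : 0 ≤ (1 - 3 * κ) * v ^ 2 := mul_nonneg (by linarith) (sq_nonneg v)
        have b3 : 0 ≤ κ * (1 / 8 - v / 2 + 19 / 8 * v ^ 2) := by
          apply mul_nonneg hκ0
          nlinarith [sq_nonneg (v - 1 / 4)]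
        nlinarith
    linarith
  have := nonneg_of_mul_nonneg_right key hv
  linarith

lemma two_Q (v w : ℝ) (hv0 : 0 ≤ v) (hv1 : v ≤ 1) (hw0 : 0 ≤ w) (hw1 : w ≤ 1) :
    (1 * ((1 + w) / 2)) * ((1 + v) / 2) * (v / (1 + v) + (w / (1 + w) + 0))
      - (1 - (1 * ((1 + w) / 2)) * ((1 + v) / 2)) / 4 ≤ (0 + w ^ 2 / (1 + w)) + v ^ 2 / (1 + v) := by
  have hv : 0 < 1 + v := by linarith
  have hw : 0 < 1 + w := by linarith
  have key : 0 ≤ 16 * (1 + v) * (1 + w) * ((0 + w ^ 2 / (1 + w)) + v ^ 2 / (1 + v)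
      - ((1 * ((1 + w) / 2)) * ((1 + v) / 2) * (v / (1 + v) + (w / (1 + w) + 0))
      - (1 - (1 * ((1 + w) / 2)) * ((1 + v) / 2)) / 4)) := by
    have e : 16 * (1 + v) * (1 + w) * ((0 + w ^ 2 / (1 + w)) + v ^ 2 / (1 + v)
      - ((1 * ((1 + w) / 2)) * ((1 + v) / 2) * (v / (1 + v) + (w / (1 + w) + 0))
      - (1 - (1 * ((1 + w) / 2)) * ((1 + v) / 2)) / 4))
      = 3 - 2 * (v + w) + 11 * (v + w) ^ 2 - 38 * (v * w) + 2 * (v + w) * (v * w)
        - 9 * (v * w) ^ 2 := by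
      field_simp
      ring
    rw [e]
    set p := v + w with hp
    set q := v * w with hq
    have hd : 0 ≤ p ^ 2 / 4 - q := by rw [hp, hq]; nlinarith [sq_nonneg (v - w)]
    have hp0 : 0 ≤ p := by rw [hp]; linarith
    have hp2 : p ≤ 2 := by rw [hp]; linarith
    have hq0 : 0 ≤ q := mul_nonneg hv0 hw0
    have h1 : 0 ≤ (p ^ 2 / 4 - q) * (38 - 2 * p + 9 * (q + p ^ 2 / 4)) :=
      mul_nonneg hd (by nlinarith [sq_nonneg p])
    have h2 : 0 ≤ 3 - 2 * p + 3 / 2 * p ^ 2 + 1 / 2 * p ^ 3 - 9 / 16 * p ^ 4 := by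
      have : 3 - 2 * p + 3 / 2 * p ^ 2 + 1 / 2 * p ^ 3 - 9 / 16 * p ^ 4
          = (1 + p / 2) * ((1 - p / 2) * (3 - 2 * p + 9 / 4 * p ^ 2)) := by ring
      rw [this]
      apply mul_nonneg (by linarith)
      apply mul_nonneg (by linarith)
      nlinarith [sq_nonneg (p - 4 / 9)]
    nlinarith
  have := nonneg_of_mul_nonneg_right key (by positivity)
  linarith

lemma two_P (v w : ℝ) (hv0 : 0 ≤ v) (hv1 : v ≤ 1) (hw0 : 0 ≤ w) (hw1 : w ≤ 1) :
    (1 * ((1 + w) / 2)) * ((1 + v) / 2) * (v / (1 + v) + (w / (1 + w) + 0)) ^ 2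
      ≤ (0 + 2 * 0 * (w ^ 2 / (1 + w)) + (w / (1 + w)) ^ 2)
        + 2 * (0 + w ^ 2 / (1 + w)) * (v ^ 2 / (1 + v)) + (v / (1 + v)) ^ 2 := by
  have hv : 0 < 1 + v := by linarith
  have hw : 0 < 1 + w := by linarith
  have e : (0 + 2 * 0 * (w ^ 2 / (1 + w)) + (w / (1 + w)) ^ 2)
        + 2 * (0 + w ^ 2 / (1 + w)) * (v ^ 2 / (1 + v)) + (v / (1 + v)) ^ 2
        - (1 * ((1 + w) / 2)) * ((1 + v) / 2) * (v / (1 + v) + (w / (1 + w) + 0)) ^ 2
      = (1 - (1 + v) * (1 + w) / 4) * (v / (1 + v) - w / (1 + w)) ^ 2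
        + (v / (1 + v)) * (w / (1 + w)) * ((1 - v) * (1 - w)) := by
    field_simp
    ring
  have h1 : 0 ≤ (1 - (1 + v) * (1 + w) / 4) * (v / (1 + v) - w / (1 + w)) ^ 2 :=
    mul_nonneg (by nlinarith) (sq_nonneg _)
  have h2 : 0 ≤ (v / (1 + v)) * (w / (1 + w)) * ((1 - v) * (1 - w)) := by
    have : 0 ≤ (1 - v) * (1 - w) := mul_nonneg (by linarith) (by linarith)
    positivity
  linarith

/-- **(P) and (Q)** -/
theorem PQ (L : List ℝ) (h : ∀ s ∈ L, 0 ≤ s ∧ s ≤ 1 / 2) :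
    ka1 L * L.sum ^ 2 ≤ ww1 L ∧ (2 ≤ L.length →
      ka1 L * L.sum - (1 - ka1 L) / 4 ≤ be1 L ∧ (1 / 4 ≤ L.sum ∨ ka1 L ≤ 1 / 3)) := by
  induction L with
  | nil => simp [ka1, ww1]
  | cons s L ih =>
    have hL : ∀ s ∈ L, 0 ≤ s ∧ s ≤ 1 / 2 := fun r hr => h r (List.mem_cons_of_mem _ hr)
    obtain ⟨hs0, hs1⟩ := h s (by simp)
    obtain ⟨v, v0, v1, e1, -, e2, e3⟩ := exists_v hs0 hs1
    obtain ⟨ihP, ihQ⟩ := ih hL
    obtain ⟨k0, k1⟩ := ka1_bounds L hL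
    have hsum : 0 ≤ L.sum := List.sum_nonneg (fun r hr => (hL r hr).1)
    match L, ihP, ihQ, hL, k0, k1, hsum with
    | [], _, _, _, _, _, _ =>
      constructor
      · rw [ka1, ww1, List.sum_cons, List.sum_nil, ww1, be1, ka1, e2, e3]
        rw [e1]
        have : 0 < 1 + v := by linarith
        have : 0 ≤ (v / (1 + v)) ^ 2 * (1 - (1 + v) / 2) := mul_nonneg (sq_nonneg _) (by linarith)
        nlinarith
      · intro h2; simp at h2
    | [r], _, _, hL, _, _, _ =>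
      obtain ⟨hr0, hr1⟩ := hL r (by simp)
      obtain ⟨w, w0, w1, f1, -, f2, f3⟩ := exists_v hr0 hr1
      refine ⟨?_, fun _ => ⟨?_, ?_⟩⟩
      · rw [ka1, ka1, ka1, ww1, ww1, ww1, be1, be1, List.sum_cons, List.sum_cons, List.sum_nil,
          e2, e3, f2, f3]
        rw [e1, f1]
        exact two_P v w v0 v1 w0 w1
      · rw [ka1, ka1, ka1, be1, be1, be1, List.sum_cons, List.sum_cons, List.sum_nil, e2, e3, f2, f3]
        rw [e1, f1]
        exact two_Q v w v0 v1 w0 w1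
      · rw [List.sum_cons, List.sum_cons, List.sum_nil, ka1, ka1, ka1]
        by_cases hc : 1 / 4 ≤ s + (r + 0)
        · left; exact hc
        · right
          push Not at hc
          have : 1 * (1 / (2 * (1 - r))) * (1 / (2 * (1 - s))) = 1 / (4 * ((1 - r) * (1 - s))) := by
            have : 1 - r ≠ 0 := by linarith
            have : 1 - s ≠ 0 := by linarith
            field_simp; ring
          rw [this, div_le_div_iff₀ (by have := mul_pos (show 0 < 1 - r by linarith) (show 0 < 1 - s by linarith); linarith) (by norm_num)]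
          nlinarith [mul_nonneg hs0 hr0]
    | r :: q :: L, ihP, ihQ, hL, k0, k1, hsum =>
      obtain ⟨ihQ1, ihQ2⟩ := ihQ (by simp)
      refine ⟨?_, fun _ => ⟨?_, ?_⟩⟩
      · rw [ka1, ww1, List.sum_cons, e2, e3]
        conv_lhs => rw [e1]
        conv_rhs => rw [e1]
        exact P_step _ _ _ _ v k0.le k1 v0 v1 ihP ihQ1
      · rw [ka1, be1, List.sum_cons, e2, e3]
        conv_lhs => rw [e1]
        exact Q_step _ _ _ v k0.le k1 hsum v0 v1 ihQ1 ihQ2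
      · rw [List.sum_cons, ka1, e3]
        rcases ihQ2 with h2 | h2
        · left; linarith
        · right; nlinarith

/-- lower bound for level 2 -/
theorem level_two (L : List ℝ) (w : ℝ) (h : ∀ s ∈ L, 0 ≤ s ∧ s ≤ 1 / 2) (hw0 : 0 ≤ w)
    (hw : w ≤ pi1 L) :
    pi1 L * ww1 L - w * L.sum ^ 2 + 2 * w * L.sum * (1 / (1 + be1 L + L.sum) - w)
      ≤ 2 * coeff 2 (TT L w) := by
  rw [coeff_TT_two L w (fun s hs => by have := h s hs; linarith)]
  obtain ⟨s1, s2⟩ := pi1_slack L h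
  obtain ⟨b0, b1⟩ := be1_nonneg L h
  have hσ : 0 ≤ L.sum := List.sum_nonneg (fun r hr => (h r hr).1)
  have hd : 0 < 1 + be1 L + L.sum := by linarith
  have h1 : L.sum / (1 + be1 L + L.sum) ≤ 1 - pi1 L * (1 + be1 L) := by
    rw [div_le_iff₀ hd]
    nlinarith
  have h2 : 0 ≤ w * (pi1 L * w - w ^ 2) := by
    apply mul_nonneg hw0; nlinarith
  have h3 : w * (2 * (L.sum / (1 + be1 L + L.sum))) ≤ w * (2 * (1 - pi1 L * (1 + be1 L))) := by
    apply mul_le_mul_of_nonneg_left _ hw0; linarith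
  have e : 2 * w * L.sum * (1 / (1 + be1 L + L.sum) - w)
      = w * (2 * (L.sum / (1 + be1 L + L.sum))) - 2 * w ^ 2 * L.sum := by ring
  rw [e]
  nlinarith

/-- level 2 is nonnegative -/
theorem level_two_nonneg (L : List ℝ) (w : ℝ) (h : ∀ s ∈ L, 0 ≤ s ∧ s ≤ 1 / 2) (hw0 : 0 ≤ w)
    (hw : w ≤ pi1 L) (hW : w * L.sum ^ 2 ≤ pi1 L * ww1 L) : 0 ≤ coeff 2 (TT L w) := by
  have h1 := level_two L w h hw0 hw
  obtain ⟨s1, s2⟩ := pi1_slack L h
  obtain ⟨b0, b1⟩ := be1_nonneg L h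
  have hσ : 0 ≤ L.sum := List.sum_nonneg (fun r hr => (h r hr).1)
  have hd : 0 < 1 + be1 L + L.sum := by linarith
  have : w ≤ 1 / (1 + be1 L + L.sum) := by
    rw [le_div_iff₀ hd]
    nlinarith
  have : 0 ≤ 2 * w * L.sum * (1 / (1 + be1 L + L.sum) - w) :=
    mul_nonneg (by positivity) (by linarith)
  linarith

lemma pow_le_pi1 (L : List ℝ) (h : ∀ s ∈ L, 0 ≤ s ∧ s ≤ 1 / 2) : (1 / 2) ^ L.length ≤ pi1 L := by
  have h1 := ka1_mul_pi1 L (fun s hs => by have := h s hs; linarith)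
  have h2 := pi1_pos L (fun s hs => by have := h s hs; linarith)
  obtain ⟨k0, k1⟩ := ka1_bounds L h
  rw [← h1]
  nlinarith

/-- level 2 for honest weights -/
theorem level_two_star (L : List ℝ) (w : ℝ) (h : ∀ s ∈ L, 0 ≤ s ∧ s ≤ 1 / 2) (hw0 : 0 ≤ w)
    (hw : w ≤ (1 / 2) ^ L.length) : 0 ≤ coeff 2 (TT L w) := by
  apply level_two_nonneg L w h hw0 (hw.trans (pow_le_pi1 L h))
  have h1 := ka1_mul_pi1 L (fun s hs => by have := h s hs; linarith)
  have h2 := pi1_pos L (fun s hs => by have := h s hs; linarith)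
  have h3 := (PQ L h).1
  calc w * L.sum ^ 2 ≤ (ka1 L * pi1 L) * L.sum ^ 2 := by
        apply mul_le_mul_of_nonneg_right _ (sq_nonneg _); rw [h1]; exact hw
    _ = pi1 L * (ka1 L * L.sum ^ 2) := by ring
    _ ≤ pi1 L * ww1 L := mul_le_mul_of_nonneg_left h3 h2.le

end Pool.Agent.Lib_helper79.SRC
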