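import Pool.Agent.Lib_helper79.SRC.FRec
import Pool.Agent.Lib_helper13.GC6.DefR

set_option autoImplicit false

/-! # Part (A) of case IIIB, `m ≥ 2` (helper13's certificate) -/

namespace Pool.Agent.Lib_helper79.SRC

open PowerSeries
open Pool.Agent.Lib_helper36.SRC
open Pool.Agent.Lib_helper13.GC6 (kap HD HN HM HR)

lemma HR_nil79 : HR [] = 1 := by simp [HR]
lemma HR_cons79 (l : ℕ) (ls : List ℕ) :
    HR (l :: ls) = kap ^ l * (1 + C (pp l) * (X - 1)) * HR ls := by
  simp only [HR, List.map_cons, List.prod_cons, pp]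

lemma kle (k : ℕ) : (k : ℝ) * (1 / 2) ^ k ≤ 1 / 2 := by
  cases k with
  | zero => simp
  | succ k =>
    have h : ((k : ℝ) + 1) ≤ 2 ^ k := by exact_mod_cast Nat.lt_two_pow_self
    rw [pow_succ, div_pow, one_pow]
    have h2 : (0 : ℝ) < 2 ^ k := by positivity
    push_cast
    rw [show ((k : ℝ) + 1) * (1 / 2 ^ k * (1 / 2)) = ((k : ℝ) + 1) / 2 ^ k * (1 / 2) by ring]
    have h3 : ((k : ℝ) + 1) / 2 ^ k ≤ 1 := by rw [div_le_one h2]; exact h
    linarith

lemma HP_le' (ls : List ℕ) (s : ℝ) (hp : ∀ l ∈ ls, pp l ≤ s) : HP ls ≤ ls.length * s := by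
  induction ls with
  | nil => rw [HP_nil]; simp
  | cons l ls ih =>
    rw [HP_cons, List.length_cons]
    have h1 := hp l (by simp)
    have h2 := ih (fun j hj => hp j (by simp [hj]))
    push_cast
    linarith

/-- `V` -/
noncomputable def VV (Bs Cs : List ℕ) (t r : ℝ) : ℝ⟦X⟧ :=
  HR Cs * (HD Bs + C r * ((X - 1) * HN Bs)) * (1 + C t * (X - 1))
    - C (2 * r) * ((X - 1) * (HN Cs * HN Bs))

/-- the identity of the base -/
lemma VV_base (Bs : List ℕ) (t r q th : ℝ) (K : ℝ⟦X⟧)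
    (hK : C q * (HD Bs - C r * ((X - 1) * HN Bs))
      = C th * (HN Bs * (1 - C (r - HP Bs) * (X - 1))) + K) :
    C q * VV Bs [] t r = C (th - 4 * (t * (2 * q * r - th * (r - HP Bs))))
        * (HN Bs * (1 - C (r - t - HP Bs) * (X - 1)))
      + (K * (1 + C t * (X - 1))
        + C (4 * (t * (2 * q * r - th * (r - HP Bs)))) * (HN Bs
          * (1 - C (r - t - HP Bs) * (X - 1) + C (1 / 4) * (X - 1) ^ 2))) := by
  have h2 : (C (2 : ℝ) : ℝ⟦X⟧) = 2 := map_ofNat C 2
  have h4 : (C (4 : ℝ) : ℝ⟦X⟧) = 4 := map_ofNat C 4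
  have h5 : (4 : ℝ⟦X⟧) * C (1 / 4) = 1 := by
    rw [← h4, ← map_mul]; norm_num
  unfold VV
  rw [HR_nil79, HN_nil79]
  have e1 : (C (4 * (t * (2 * q * r - th * (r - HP Bs)))) : ℝ⟦X⟧)
      = 4 * (C t * (2 * C q * C r - C th * (C r - C (HP Bs)))) := by
    simp only [map_mul, map_sub, h2, h4]
  have e2 : (C (th - 4 * (t * (2 * q * r - th * (r - HP Bs)))) : ℝ⟦X⟧)
      = C th - 4 * (C t * (2 * C q * C r - C th * (C r - C (HP Bs)))) := by
    rw [map_sub, e1]
  rw [e1, e2]
  simp only [map_sub, map_mul, h2] at hK ⊢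
  linear_combination (1 + C t * (X - 1)) * hK
    - (C t * (2 * C q * C r - C th * (C r - C (HP Bs)))) * (HN Bs * (X - 1) ^ 2) * h5

/-- the identity of one step -/
lemma VV_step (Bs Cs : List ℕ) (l : ℕ) (t r q th : ℝ) (K : ℝ⟦X⟧)
    (hK : C q * VV Bs Cs t r = C th
        * (HN Cs * HN Bs * (1 - C (r - t - HP Cs - HP Bs) * (X - 1))) + K) :
    C q * VV Bs (l :: Cs) t r = C (th - 9 * pp l)
        * (HN (l :: Cs) * HN Bs * (1 - C (r - t - HP (l :: Cs) - HP Bs) * (X - 1)))
      + (kap ^ l * (1 + C (pp l) * (X - 1)) * K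
        + C (9 * pp l) * (kap ^ l * HN Cs * (HN Bs
          * (1 - C (r - t - HP Cs - HP Bs - pp l) * (X - 1)
            + C ((2 * q * r - th * (r - t - HP Cs - HP Bs)) / 9) * (X - 1) ^ 2)))) := by
  have h2 : (C (2 : ℝ) : ℝ⟦X⟧) = 2 := map_ofNat C 2
  have h9 : (C (9 : ℝ) : ℝ⟦X⟧) = 9 := map_ofNat C 9
  unfold VV at hK ⊢
  rw [HR_cons79, HN_cons79, HP_cons]
  set g := r - t - HP Cs - HP Bs with hg
  have e1 : r - t - (pp l + HP Cs) - HP Bs = g - pp l := by rw [hg]; ring
  have e3 : (C (9 * pp l) : ℝ⟦X⟧) * C ((2 * q * r - th * g) / 9)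
      = C (pp l) * (2 * C q * C r - C th * C g) := by
    rw [← map_mul, show 9 * pp l * ((2 * q * r - th * g) / 9) = pp l * (2 * q * r - th * g) by ring]
    simp only [map_mul, map_sub, h2]
  rw [e1]
  have e4 : (C (9 * pp l) : ℝ⟦X⟧) = 9 * C (pp l) := by rw [map_mul, h9]
  have e5 : (C (g - pp l) : ℝ⟦X⟧) = C g - C (pp l) := by rw [map_sub]
  have e6 : (C (th - 9 * pp l) : ℝ⟦X⟧) = C th - 9 * C (pp l) := by rw [map_sub, e4]
  have e7 : (C (2 * r) : ℝ⟦X⟧) = 2 * C r := by rw [map_mul, h2]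
  rw [e6, e5, e7]
  rw [e7] at hK
  rw [e4] at e3 ⊢
  linear_combination (kap ^ l * (1 + C (pp l) * (X - 1))) * hK
    - (kap ^ l * HN Cs * HN Bs * (X - 1) ^ 2) * e3

/-- the recursion over the remaining stars -/
theorem VV_rec (Bs Cs : List ℕ) (t r q th : ℝ) (h8 : 8 ≤ Bs.sum) (hq : 1 ≤ q) (hqr : q * r ≤ 1)
    (hr0 : 0 < r) (hr1 : r ≤ 1 / 4) (ht0 : 0 ≤ t) (hth0 : 0 ≤ th) (hth1 : th ≤ 1)
    (ha : HP Cs + HP Bs + t ≤ r + 1 / 16) (h9 : 9 * HP Cs ≤ th) (K : ℝ⟦X⟧)
    (hK : InW (HM Bs + t - r) K)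
    (hV : C q * VV Bs [] t r = C th * (HN Bs * (1 - C (r - t - HP Bs) * (X - 1))) + K) :
    ∃ K' : ℝ⟦X⟧, InW (HM Cs + HM Bs + t - r) K' ∧ C q * VV Bs Cs t r = C (th - 9 * HP Cs)
        * (HN Cs * HN Bs * (1 - C (r - t - HP Cs - HP Bs) * (X - 1))) + K' := by
  have hPB := HP_nonneg Bs
  have hqr0 : 0 ≤ q * r := by positivity
  have hrq : r ≤ q * r := by nlinarith
  induction Cs with
  | nil =>
    refine ⟨K, ?_, ?_⟩
    · rw [HM_nil79, zero_add]; exact hK
    · rw [hV, HP_nil, HN_nil79]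
      simp
  | cons l Cs ih =>
    rw [HP_cons] at ha h9
    have hp := pp_pos l
    have hPC := HP_nonneg Cs
    obtain ⟨K', hK', hV'⟩ := ih (by linarith) (by linarith)
    have hstep := VV_step Bs Cs l t r q (th - 9 * HP Cs) K' hV'
    have e : th - 9 * HP (l :: Cs) = th - 9 * HP Cs - 9 * pp l := by rw [HP_cons]; ring
    rw [← e] at hstep
    refine ⟨_, ?_, hstep⟩
    · have a1 := ((inW_kap_pow l).mul (InW.coin (s := pp l) (by
        have : pp l ≤ (1 / 2) ^ 0 := by
          unfold pp; exact pow_le_pow_of_le_one (by norm_num) (by norm_num) (by omega)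
        simpa using this))).mul hK'
      set g := r - t - HP Cs - HP Bs with hg
      set th' := th - 9 * HP Cs with hth'
      have hb0 : 0 ≤ 2 * q * r - th' * g := by
        rcases le_total 0 g with h | h
        · have : th' * g ≤ 1 * g := mul_le_mul_of_nonneg_right (by linarith) h
          nlinarith
        · have : th' * g ≤ 0 := mul_nonpos_of_nonneg_of_nonpos (by linarith) h
          nlinarith
      have hb1 : 2 * q * r - th' * g ≤ 9 / 4 := by
        have : -(1 / 16) ≤ th' * g := by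
          rcases le_total 0 g with h | h
          · have : 0 ≤ th' * g := mul_nonneg (by linarith) h
            linarith
          · have h3 : 1 * g ≤ th' * g := mul_le_mul_of_nonpos_right (by linarith) h
            linarith
        nlinarith
      have a2 := blk8x' Bs.sum h8 (g - pp l) ((2 * q * r - th' * g) / 9) (by linarith)
        (by linarith) (by positivity) (by linarith)
      rw [← HN_eq] at a2
      have a3 := (((inW_kap_pow l).mul (inW_HN79 Cs)).mul a2).smul (c := 9 * pp l) (by positivity)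
      refine (a1.congr ?_ rfl).add (a3.congr ?_ rfl)
      · rw [HM_cons79]; ring
      · rw [HM_cons79, HM_eq Bs]; ring

/-- **Part (A)** -/
theorem partA (h q : ℕ) (Bs Cs : List ℕ) (t r : ℝ)
    (ht : t = (1 / 2) ^ (h + (Cs.length + Bs.length) + 1)) (hr : r = (1 / 2) ^ q)
    (hm : 2 ≤ Cs.length + Bs.length) (hq : 2 ≤ q) (hq2 : q ≤ h + (Cs.length + Bs.length))
    (hB : (Cs = [] ∧ Bs.length ≤ q) ∨ Bs.length = q)
    (hl : ∀ l ∈ Cs ++ Bs, h + (Cs.length + Bs.length) + 2 ≤ l) :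
    InW (HM Cs + HM Bs + t - r) (HR Cs * (HD Bs + C r * ((X - 1) * HN Bs)) * (1 + C t * (X - 1))
      - C (2 * r) * ((X - 1) * (HN Cs * HN Bs))) := by
  set m := Cs.length + Bs.length with hmdef
  obtain ⟨s, hs⟩ : ∃ s : ℝ, s = (1 / 2) ^ (h + m + 3) := ⟨_, rfl⟩
  have hs0 : 0 < s := by rw [hs]; positivity
  have hts : t = 4 * s := by
    rw [ht, hs, pow_add _ (h + m) 3, pow_add _ (h + m) 1]; ring
  have hrs : 8 * s ≤ r := by
    have h1 : (1 / 2 : ℝ) ^ (h + m) ≤ (1 / 2) ^ q :=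
      pow_le_pow_of_le_one (by norm_num) (by norm_num) hq2
    rw [hr, hs, pow_add _ (h + m) 3]
    linarith
  have hr0 : 0 < r := by rw [hr]; positivity
  have hr1 : r ≤ 1 / 4 := by
    rw [hr]
    calc (1 / 2 : ℝ) ^ q ≤ (1 / 2) ^ 2 := pow_le_pow_of_le_one (by norm_num) (by norm_num) hq
      _ = 1 / 4 := by norm_num
  have hpp : ∀ l ∈ Cs ++ Bs, pp l ≤ s := by
    intro l hl'
    rw [hs]
    unfold pp
    exact pow_le_pow_of_le_one (by norm_num) (by norm_num) (by have := hl l hl'; omega)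
  have h4 : ∀ l ∈ Cs ++ Bs, 4 ≤ l := fun l hl' => by have := hl l hl'; omega
  have hb2 : 2 ≤ Bs.length := by
    rcases hB with ⟨h1, h2⟩ | h1
    · rw [h1] at hmdef; simp at hmdef; omega
    · omega
  have hbq : Bs.length ≤ q := by rcases hB with ⟨h1, h2⟩ | h1 <;> omega
  have hsum : ∀ L : List ℕ, (∀ l ∈ L, 4 ≤ l) → 4 * L.length ≤ L.sum := by
    intro L
    induction L with
    | nil => simp
    | cons a L ih =>
      intro h5
      have h6 := ih (fun l hl' => h5 l (by simp [hl']))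
      have h7 := h5 a (by simp)
      simp only [List.length_cons, List.sum_cons]
      omega
  have h8 : 8 ≤ Bs.sum := by
    have := hsum Bs (fun l hl' => h4 l (by simp [hl']))
    omega
  have h2r : (2 : ℝ) ^ Bs.length * r ≤ 1 := by
    rw [hr]
    calc (2 : ℝ) ^ Bs.length * (1 / 2) ^ q ≤ 2 ^ Bs.length * (1 / 2) ^ Bs.length := by
          apply mul_le_mul_of_nonneg_left _ (by positivity)
          exact pow_le_pow_of_le_one (by norm_num) (by norm_num) hbq
      _ = 1 := by rw [← mul_pow]; norm_num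
  have hpw : (1 : ℝ) ≤ 2 ^ Bs.length := one_le_pow₀ (by norm_num)
  -- the sums of the small weights
  have hms : (m : ℝ) * s ≤ 1 / 16 := by
    have h1 := kle m
    have h2 : s ≤ (1 / 2) ^ m * (1 / 8) := by
      rw [hs, pow_add, pow_add]
      have h3 : (1 / 2 : ℝ) ^ h ≤ 1 := pow_le_one₀ (by norm_num) (by norm_num)
      have h4 : (0 : ℝ) ≤ (1 / 2) ^ m := by positivity
      have := mul_le_mul_of_nonneg_right h3 h4
      norm_num at this ⊢
      linarith
    calc (m : ℝ) * s ≤ m * ((1 / 2) ^ m * (1 / 8)) := mul_le_mul_of_nonneg_left h2 (by positivity)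
      _ = (m * (1 / 2) ^ m) * (1 / 8) := by ring
      _ ≤ 1 / 2 * (1 / 8) := by linarith
      _ = 1 / 16 := by norm_num
  have hPB := HP_le' Bs s (fun l hl' => hpp l (by simp [hl']))
  have hPC := HP_le' Cs s (fun l hl' => hpp l (by simp [hl']))
  have hPB0 := HP_nonneg Bs
  have hPC0 := HP_nonneg Cs
  have hmc : (m : ℝ) = Cs.length + Bs.length := by rw [hmdef]; push_cast; ring
  have hPs : HP Cs + HP Bs ≤ m * s := by rw [hmc]; linarith
  have hC : 9 * HP Cs ≤ 9 / 64 := by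
    have h1 := kle Cs.length
    have h2 : s ≤ (1 / 2) ^ Cs.length * (1 / 32) := by
      have h3 : (1 / 2 : ℝ) ^ (h + m + 3) ≤ (1 / 2) ^ (Cs.length + 5) :=
        pow_le_pow_of_le_one (by norm_num) (by norm_num) (by omega)
      rw [hs]
      refine h3.trans (le_of_eq ?_)
      rw [pow_add]; norm_num
    have h3 : (Cs.length : ℝ) * s ≤ 1 / 64 := by
      calc (Cs.length : ℝ) * s ≤ Cs.length * ((1 / 2) ^ Cs.length * (1 / 32)) :=
            mul_le_mul_of_nonneg_left h2 (by positivity)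
        _ = (Cs.length * (1 / 2) ^ Cs.length) * (1 / 32) := by ring
        _ ≤ 1 / 2 * (1 / 32) := by linarith
        _ = 1 / 64 := by norm_num
    linarith
  -- the recursion `(F)` for `Bs`
  obtain ⟨K0, hK0, hF⟩ := FB Bs r hr0 hr1 (fun l hl' => h4 l (by simp [hl']))
    (fun l hl' => by have := hpp l (by simp [hl']); linarith) h2r
  have hbase := VV_base Bs t r (2 ^ Bs.length) (63 / 64) K0 hF
  set e := t * (2 * 2 ^ Bs.length * r - 63 / 64 * (r - HP Bs)) with he
  set Q : ℝ := 2 ^ Bs.length with hQ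
  have hQr : r ≤ Q * r := by nlinarith
  have hgr : 63 / 64 * (r - HP Bs) ≤ 2 * Q * r := by nlinarith
  have ht0 : 0 < t := by rw [hts]; linarith
  have he0 : 0 ≤ e := by
    rw [he]; apply mul_nonneg ht0.le; linarith
  -- the number block
  have hnum : 4 * e + 9 * HP Cs ≤ 63 / 64 := by
    have h5 : e ≤ t * (2 - 63 / 64 * (r - HP Bs)) := by
      rw [he]; apply mul_le_mul_of_nonneg_left _ ht0.le; linarith
    rcases Nat.lt_or_ge (h + m) 3 with h6 | h6
    · -- `h = 0`, `m = 2`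
      have h7 : h + m = 2 := by omega
      have hs32 : s = 1 / 32 := by
        rw [hs, h7]; norm_num
      have hC0 : Cs.length = 0 := by omega
      have hB2 : (Bs.length : ℝ) = 2 := by
        have : Bs.length = 2 := by omega
        exact_mod_cast this
      rw [hC0] at hPC
      rw [hB2, hs32] at hPB
      rw [hs32] at hrs hts
      rw [hts] at h5
      norm_num at hPC
      nlinarith
    · have hs64 : s ≤ 1 / 64 := by
        rw [hs]
        calc (1 / 2 : ℝ) ^ (h + m + 3) ≤ (1 / 2) ^ 6 :=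
              pow_le_pow_of_le_one (by norm_num) (by norm_num) (by omega)
          _ = 1 / 64 := by norm_num
      have ht16 : t ≤ 1 / 16 := by linarith
      have h9 : 2 - 63 / 64 * (r - HP Bs) ≤ 2 + 1 / 16 := by linarith
      have h10 : t * (2 - 63 / 64 * (r - HP Bs)) ≤ 1 / 16 * (2 + 1 / 16) := by
        apply mul_le_mul ht16 h9 _ (by norm_num)
        linarith
      linarith
  -- the base of `(V)`
  have hK1 : InW (HM Bs + t - r) (K0 * (1 + C t * (X - 1)) + C (4 * e) * (HN Bs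
          * (1 - C (r - t - HP Bs) * (X - 1) + C (1 / 4) * (X - 1) ^ 2))) := by
    have ht1 : t ≤ 1 := by
      have : (0 : ℝ) ≤ m * s := by positivity
      linarith
    have a1 := hK0.mul (InW.coin (s := t) ht1)
    have a2 := (blk8x' Bs.sum h8 (r - t - HP Bs) (1 / 4) (by linarith) (by linarith)
      (by norm_num) (le_refl _)).smul (c := 4 * e) (by positivity)
    rw [← HN_eq] at a2
    refine (a1.congr (by ring) rfl).add (a2.congr ?_ rfl)
    rw [HM_eq Bs]; ring
  obtain ⟨K', hK', hV'⟩ := VV_rec Bs Cs t r Q (63 / 64 - 4 * e) h8 hpw h2r hr0 hr1 ht0.le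
    (by linarith) (by linarith) (by linarith) (by linarith) _ hK1 hbase
  -- the end
  have hfin : InW (HM Cs + HM Bs + t - r) (C Q * VV Bs Cs t r) := by
    rw [hV']
    refine InW.add ?_ hK'
    have a1 := (((inW_HN79 Cs).mul (inW_HN79 Bs)).mul
      (InW.coin (s := -(r - t - HP Cs - HP Bs)) (by linarith))).smul
      (c := 63 / 64 - 4 * e - 9 * HP Cs) (by linarith)
    refine a1.congr (by ring) ?_
    rw [map_neg]; ring
  have hfin2 := hfin.smul (c := 1 / Q) (by positivity)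
  refine hfin2.congr rfl ?_
  have e1 : (C (1 / Q) : ℝ⟦X⟧) * C Q = 1 := by
    rw [← map_mul]
    have : 1 / Q * Q = 1 := by field_simp
    rw [this, map_one]
  unfold VV
  linear_combination (HR Cs * (HD Bs + C r * ((X - 1) * HN Bs)) * (1 + C t * (X - 1))
      - C (2 * r) * ((X - 1) * (HN Cs * HN Bs))) * e1

end Pool.Agent.Lib_helper79.SRC
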